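import Mathlib

/-!
Finite colength of a pair of relatively prime polynomials in two variables.
-/

open MvPolynomial

namespace Pool.Agent.Helper77.Graphoid

/-- The polynomial ring in two variables. -/
abbrev P2 := MvPolynomial (Fin 2) ℝ

theorem finite_quot_of_isRelPrime (p q : P2) (h : IsRelPrime p q) :
    Module.Finite ℝ (P2 ⧸ Ideal.span {p, q}) := by
  rw [Module.finite_iff_krullDimLE_zero, Ring.krullDimLE_zero_iff]
  intro I hI
  -- pull back to `P2`
  set mk := Ideal.Quotient.mk (Ideal.span {p, q}) with hmk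
  set J := I.comap mk with hJ
  have hJp : J.IsPrime := Ideal.comap_isPrime mk I
  have hle : Ideal.span {p, q} ≤ J := by
    intro x hx
    rw [hJ, Ideal.mem_comap]
    have : mk x = 0 := Ideal.Quotient.eq_zero_iff_mem.mpr hx
    rw [this]; exact I.zero_mem
  have hpJ : p ∈ J := hle (Ideal.subset_span (by simp))
  have hqJ : q ∈ J := hle (Ideal.subset_span (by simp))
  have hJmax : J.IsMaximal := by
    obtain ⟨M, hM, hJM⟩ := Ideal.exists_le_maximal J hJp.ne_top
    by_cases hJM' : J = M
    · rw [hJM']; exact hM
    exfalso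
    have hJbot : J ≠ ⊥ := by
      intro hb
      rw [hb] at hpJ hqJ
      rw [Ideal.mem_bot] at hpJ hqJ
      subst hpJ; subst hqJ
      have := h (d := (X 0 : P2)) (dvd_zero _) (dvd_zero _)
      have h1 : ¬ IsUnit (X 0 : P2) := by
        intro hu
        have hu' := hu.map (MvPolynomial.aeval (R := ℝ) (fun _ : Fin 2 => (0:ℝ)))
        simp at hu'
      exact h1 this
    obtain ⟨π, hπJ, hπ⟩ := hJp.exists_mem_prime_of_ne_bot hJbot
    have hspan : Ideal.span {π} ≤ J := by
      rw [Ideal.span_le]; simpa using hπJ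
    have hspp : (Ideal.span {π}).IsPrime := by
      rwa [Ideal.span_singleton_prime hπ.ne_zero]
    have hne : Ideal.span {π} ≠ J := by
      intro he
      rw [← he, Ideal.mem_span_singleton] at hpJ hqJ
      exact hπ.not_isUnit (h hpJ hqJ)
    -- chain of length three
    have hdim : ringKrullDim P2 = 2 := by
      rw [MvPolynomial.ringKrullDim_of_isNoetherianRing]
      simp
    let a0 : PrimeSpectrum P2 := ⟨⊥, Ideal.isPrime_bot⟩
    let a1 : PrimeSpectrum P2 := ⟨Ideal.span {π}, hspp⟩
    let a2 : PrimeSpectrum P2 := ⟨J, hJp⟩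
    let a3 : PrimeSpectrum P2 := ⟨M, hM.isPrime⟩
    have h01 : a0 < a1 := by
      rw [← PrimeSpectrum.asIdeal_lt_asIdeal]
      refine bot_lt_iff_ne_bot.mpr ?_
      simpa [a1] using hπ.ne_zero
    have h12 : a1 < a2 := by
      rw [← PrimeSpectrum.asIdeal_lt_asIdeal]
      exact lt_of_le_of_ne hspan hne
    have h23 : a2 < a3 := by
      rw [← PrimeSpectrum.asIdeal_lt_asIdeal]
      exact lt_of_le_of_ne hJM hJM'
    let s : LTSeries (PrimeSpectrum P2) :=
      (((RelSeries.singleton _ a0).snoc a1 (by simpa using h01)).snoc a2 (by simpa using h12)).snoc a3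
        (by simpa using h23)
    have hs : s.length = 3 := by simp [s]
    have := _root_.Order.LTSeries.length_le_krullDim s
    rw [hs] at this
    have h2 : ringKrullDim P2 = Order.krullDim (PrimeSpectrum P2) := rfl
    rw [← h2, hdim] at this
    norm_num at this
  -- conclude
  have hsurj : Function.Surjective mk := Ideal.Quotient.mk_surjective
  have : I = J.map mk := by
    rw [hJ, Ideal.map_comap_of_surjective _ hsurj]
  rw [this]
  rcases Ideal.map_eq_top_or_isMaximal_of_surjective mk hsurj hJmax with ht | hm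
  · exfalso
    rw [← this] at ht
    exact hI.ne_top ht
  · exact hm

end Pool.Agent.Helper77.Graphoid
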