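import Pool.Agent.Helper77.Graphoid.Alg1

/-!
Localised ideals at the origin and the decrease of the colength under a point blow-up.
-/

open MvPolynomial

namespace Pool.Agent.Helper77.Graphoid

/-- evaluation at the origin -/
noncomputable def ev0 : P2 →ₐ[ℝ] ℝ := MvPolynomial.aeval (fun _ => (0:ℝ))

@[simp] theorem ev0_X (i : Fin 2) : ev0 (X i) = 0 := by simp [ev0]

/-- contraction of the extension of `I` to the local ring at the origin -/
def locI (I : Ideal P2) : Ideal P2 where
  carrier := {f | ∃ s, ev0 s ≠ 0 ∧ s * f ∈ I}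
  add_mem' := by
    rintro f g ⟨s, hs, hsf⟩ ⟨t, ht, htg⟩
    refine ⟨s * t, by rw [map_mul]; exact mul_ne_zero hs ht, ?_⟩
    have : s * t * (f + g) = t * (s * f) + s * (t * g) := by ring
    rw [this]
    exact I.add_mem (I.mul_mem_left _ hsf) (I.mul_mem_left _ htg)
  zero_mem' := ⟨1, by simp, by simp⟩
  smul_mem' := by
    rintro c f ⟨s, hs, hsf⟩
    refine ⟨s, hs, ?_⟩
    have : s * (c • f) = c * (s * f) := by simp only [smul_eq_mul]; ring
    rw [this]
    exact I.mul_mem_left _ hsf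

theorem mem_locI {I : Ideal P2} {f : P2} : f ∈ locI I ↔ ∃ s, ev0 s ≠ 0 ∧ s * f ∈ I := Iff.rfl

theorem le_locI (I : Ideal P2) : I ≤ locI I := fun f hf => ⟨1, by simp, by simpa using hf⟩

theorem locI_sat {I : Ideal P2} {s f : P2} (hs : ev0 s ≠ 0) (h : s * f ∈ locI I) : f ∈ locI I := by
  obtain ⟨t, ht, h'⟩ := h
  refine ⟨t * s, by rw [map_mul]; exact mul_ne_zero ht hs, ?_⟩
  rwa [mul_assoc]

/-- Finite colength at the origin. -/
def FinCo (p q : P2) : Prop := Module.Finite ℝ (P2 ⧸ locI (Ideal.span {p, q}))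

/-- The colength at the origin. -/
noncomputable def colen (p q : P2) : ℕ := Module.finrank ℝ (P2 ⧸ locI (Ideal.span {p, q}))

theorem finCo_of_isRelPrime (p q : P2) (h : IsRelPrime p q) : FinCo p q := by
  have h1 := finite_quot_of_isRelPrime p q h
  unfold FinCo
  let φ : (P2 ⧸ Ideal.span {p, q}) →ₐ[ℝ] (P2 ⧸ locI (Ideal.span {p, q})) :=
    Ideal.Quotient.factorₐ ℝ (le_locI _)
  have hs : Function.Surjective φ := Ideal.Quotient.factor_surjective (le_locI _)
  exact Module.Finite.of_surjective φ.toLinearMap hs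

/-- nilpotency of an element vanishing at the origin -/
theorem exists_pow_mem_locI {p q : P2} (h : FinCo p q) (x : P2) (hx : ev0 x = 0) :
    ∃ N, x ^ N ∈ locI (Ideal.span {p, q}) := by
  unfold FinCo at h
  set A := P2 ⧸ locI (Ideal.span {p, q})
  have hint : IsIntegral ℝ (Ideal.Quotient.mk (locI (Ideal.span {p, q})) x) :=
    Algebra.IsIntegral.isIntegral _
  obtain ⟨w, hw, hw0⟩ := hint
  have hwne : w ≠ 0 := hw.ne_zero
  have hmem : Polynomial.aeval x w ∈ locI (Ideal.span {p, q}) := by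
    rw [← Ideal.Quotient.eq_zero_iff_mem]
    have e1 : Ideal.Quotient.mk (locI (Ideal.span {p, q})) (Polynomial.aeval x w)
        = Polynomial.aeval (Ideal.Quotient.mk (locI (Ideal.span {p, q})) x) w := by
      have := Polynomial.aeval_algHom_apply (Ideal.Quotient.mkₐ ℝ (locI (Ideal.span {p, q}))) x w
      simpa using this.symm
    rw [e1]
    rw [Polynomial.aeval_def]
    exact hw0
  obtain ⟨v, hv, hv0⟩ := Polynomial.exists_eq_pow_rootMultiplicity_mul_and_not_dvd w hwne 0
  set m := Polynomial.rootMultiplicity 0 w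
  refine ⟨m, ?_⟩
  have hs : ev0 (Polynomial.aeval x v) ≠ 0 := by
    have h1 : ev0 (Polynomial.aeval x v) = Polynomial.aeval (ev0 x) v := by
      rw [Polynomial.aeval_algHom_apply]
    rw [h1, hx]
    intro h0
    apply hv0
    rw [Polynomial.dvd_iff_isRoot]
    simpa [Polynomial.IsRoot] using h0
  apply locI_sat hs
  rw [hv] at hmem
  simp only [map_zero, sub_zero, map_mul, map_pow, Polynomial.aeval_X] at hmem
  rwa [mul_comm] at hmem

theorem colen_eq_zero_iff {p q : P2} (h : FinCo p q) :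
    colen p q = 0 ↔ (ev0 p ≠ 0 ∨ ev0 q ≠ 0) := by
  unfold colen
  unfold FinCo at h
  rw [Module.finrank_zero_iff, Ideal.Quotient.subsingleton_iff]
  constructor
  · intro ht
    have h1 : (1 : P2) ∈ locI (Ideal.span {p, q}) := by
      rw [ht]; trivial
    obtain ⟨s, hs, hs1⟩ := h1
    by_contra hcon
    push Not at hcon
    apply hs
    rw [mul_one] at hs1
    rw [Ideal.mem_span_pair] at hs1
    obtain ⟨a, b, hab⟩ := hs1
    rw [← hab]
    simp [hcon.1, hcon.2]
  · intro h1
    rw [Ideal.eq_top_iff_one]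
    rcases h1 with h1 | h1
    · exact ⟨p, h1, by rw [mul_one]; exact Ideal.subset_span (by simp)⟩
    · exact ⟨q, h1, by rw [mul_one]; exact Ideal.subset_span (by simp)⟩

/-- The filtration by order of vanishing at the origin. -/
def ordF (μ : ℕ) : Submodule ℝ P2 where
  carrier := {f | ∀ d, coeff d f ≠ 0 → μ ≤ d 0 + d 1}
  add_mem' := by
    intro f g hf hg d hd
    rw [coeff_add] at hd
    by_cases h1 : coeff d f = 0
    · rw [h1, zero_add] at hd; exact hg d hd
    · exact hf d h1
  zero_mem' := by intro d hd; simp at hd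
  smul_mem' := by
    intro c f hf d hd
    rw [coeff_smul] at hd
    exact hf d (fun h => hd (by rw [h, smul_zero]))

theorem mem_ordF {μ : ℕ} {f : P2} : f ∈ ordF μ ↔ ∀ d, coeff d f ≠ 0 → μ ≤ d 0 + d 1 := Iff.rfl

theorem ordF_zero : ordF 0 = ⊤ := by
  ext f; simp [mem_ordF]

theorem ordF_ev0 {μ : ℕ} (hμ : 1 ≤ μ) {f : P2} (hf : f ∈ ordF μ) : ev0 f = 0 := by
  have h1 : ev0 f = coeff 0 f := by
    unfold ev0
    have := MvPolynomial.aeval_zero' (R := ℝ) (S₁ := ℝ) f
    rw [this]; rfl
  rw [h1]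
  by_contra h2
  have := hf 0 h2
  simp at this
  omega

/-- the exponent map of the chart -/
noncomputable def gexp (μ : ℕ) (d : Fin 2 →₀ ℕ) : Fin 2 →₀ ℕ :=
  Finsupp.single 0 (d 0 + d 1 - μ) + Finsupp.single 1 (d 1)

/-- the linear map dividing the pulled back polynomial by the `μ`-th power of the exceptional
coordinate -/
noncomputable def th (μ : ℕ) : P2 →ₗ[ℝ] P2 :=
  (MvPolynomial.basisMonomials (Fin 2) ℝ).constr ℝ (fun d => monomial (gexp μ d) (1:ℝ))

theorem th_monomial (μ : ℕ) (d : Fin 2 →₀ ℕ) (c : ℝ) :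
    th μ (monomial d c) = monomial (gexp μ d) c := by
  have h1 : (monomial d c : P2) = c • (monomial d 1 : P2) := by
    rw [smul_monomial, smul_eq_mul, mul_one]
  rw [h1, map_smul]
  have h2 : th μ (monomial d (1:ℝ)) = monomial (gexp μ d) (1:ℝ) := by
    have := (MvPolynomial.basisMonomials (Fin 2) ℝ).constr_basis ℝ
      (fun d => (monomial (gexp μ d) (1:ℝ) : P2)) d
    simpa [th] using this
  rw [h2, smul_monomial, smul_eq_mul, mul_one]

/-- the substitution `x ↦ x`, `y ↦ x y` -/
noncomputable def bl : P2 →ₐ[ℝ] P2 := MvPolynomial.aeval ![X 0, X 0 * X 1]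

theorem bl_monomial (d : Fin 2 →₀ ℕ) (c : ℝ) :
    bl (monomial d c) = monomial (Finsupp.single 0 (d 0 + d 1) + Finsupp.single 1 (d 1)) c := by
  have h1 : (monomial d c : P2) = C c * (X 0 ^ d 0 * X 1 ^ d 1) := by
    rw [monomial_eq, Finsupp.prod_fintype _ _ (fun i => by simp)]
    simp [Fin.prod_univ_two]
  rw [h1]
  have h2 : (monomial (Finsupp.single (0: Fin 2) (d 0 + d 1) + Finsupp.single 1 (d 1)) c : P2)
      = C c * (X 0 ^ (d 0 + d 1) * X 1 ^ (d 1)) := by
    rw [monomial_eq, Finsupp.prod_fintype _ _ (fun i => by simp)]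
    simp [Fin.prod_univ_two]
  rw [h2]
  simp only [bl, map_mul, map_pow, aeval_X, Matrix.cons_val_zero, Matrix.cons_val_one,
    MvPolynomial.algHom_C, algebraMap_eq]
  ring

theorem X0_pow_mul_th {μ : ℕ} {f : P2} (hf : f ∈ ordF μ) : X 0 ^ μ * th μ f = bl f := by
  have hsum := MvPolynomial.support_sum_monomial_coeff f
  rw [← hsum]
  rw [map_sum, map_sum, Finset.mul_sum]
  refine Finset.sum_congr rfl ?_
  intro d hd
  rw [th_monomial, bl_monomial]
  have h1 : μ ≤ d 0 + d 1 := hf d (by simpa [mem_support_iff] using hd)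
  rw [X_pow_eq_monomial, monomial_mul, one_mul]
  rw [gexp, ← add_assoc, ← Finsupp.single_add]
  rw [show μ + (d 0 + d 1 - μ) = d 0 + d 1 by omega]

end Pool.Agent.Helper77.Graphoid
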