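import Pool.Agent.Helper77.Graphoid.Alg2

/-!
The decrease of the colength under a point blow-up.
-/

open MvPolynomial

namespace Pool.Agent.Helper77.Graphoid

/-- restriction to the exceptional line -/
noncomputable def eps : P2 →ₐ[ℝ] Polynomial ℝ := MvPolynomial.aeval ![0, Polynomial.X]

/-- polynomials in the second variable -/
noncomputable def lift1 : Polynomial ℝ →ₐ[ℝ] P2 := Polynomial.aeval (X 1)

/-- translation in the second variable -/
noncomputable def tr (u : ℝ) : P2 →ₐ[ℝ] P2 := MvPolynomial.aeval ![X 0, X 1 + C u]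

@[simp] theorem eps_X0 : eps (X 0) = 0 := by simp [eps]
@[simp] theorem eps_X1 : eps (X 1) = Polynomial.X := by simp [eps]
@[simp] theorem tr_X0 (u : ℝ) : tr u (X 0) = X 0 := by simp [tr]
@[simp] theorem tr_X1 (u : ℝ) : tr u (X 1) = X 1 + C u := by simp [tr]
@[simp] theorem bl_X0 : bl (X 0) = X 0 := by simp [bl]
@[simp] theorem bl_X1 : bl (X 1) = X 0 * X 1 := by simp [bl]

theorem tr_tr (u : ℝ) (f : P2) : tr u (tr (-u) f) = f := by
  have : (tr u).comp (tr (-u)) = AlgHom.id ℝ P2 := by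
    apply MvPolynomial.algHom_ext
    intro i
    fin_cases i
    · simp
    · simp [tr]
  exact DFunLike.congr_fun this f

theorem ev0_tr_bl (u : ℝ) (f : P2) : ev0 (tr u (bl f)) = ev0 f := by
  have : (ev0.comp (tr u)).comp bl = ev0 := by
    apply MvPolynomial.algHom_ext
    intro i
    fin_cases i
    · simp
    · simp
  exact DFunLike.congr_fun this f

theorem exists_eq_lift1_add (g : P2) : ∃ g', g = lift1 (eps g) + X 0 * g' := by
  induction g using MvPolynomial.induction_on with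
  | C a =>
    refine ⟨0, ?_⟩
    simp [lift1, eps, MvPolynomial.algHom_C]
  | add f g hf hg =>
    obtain ⟨f', hf'⟩ := hf
    obtain ⟨g', hg'⟩ := hg
    refine ⟨f' + g', ?_⟩
    rw [map_add, map_add]
    nth_rewrite 1 [hf']
    nth_rewrite 1 [hg']
    ring
  | mul_X f i hf =>
    obtain ⟨f', hf'⟩ := hf
    fin_cases i
    · refine ⟨f, ?_⟩
      simp only [Fin.zero_eta, map_mul, eps_X0, mul_zero, map_zero, zero_add]
      ring
    · refine ⟨f' * X 1, ?_⟩
      simp only [Fin.mk_one, map_mul, eps_X1]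
      have : lift1 (Polynomial.X) = X 1 := by simp [lift1]
      rw [this]
      nth_rewrite 1 [hf']
      ring

theorem mul_mem_ordF {μ : ℕ} {a f : P2} (hf : f ∈ ordF μ) : a * f ∈ ordF μ := by
  classical
  intro d hd
  have h1 := MvPolynomial.support_mul a f (mem_support_iff.mpr hd)
  rw [Finset.mem_add] at h1
  obtain ⟨y, _, z, hz, rfl⟩ := h1
  have := hf z (by simpa [mem_support_iff] using hz)
  simp only [Finsupp.add_apply]
  omega

theorem X0_pow_cancel {μ : ℕ} {f g : P2} (h : X 0 ^ μ * f = X 0 ^ μ * g) : f = g :=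
  mul_left_cancel₀ (pow_ne_zero _ (MvPolynomial.X_ne_zero 0)) h

theorem th_mul {μ : ℕ} (a : P2) {f : P2} (hf : f ∈ ordF μ) : th μ (a * f) = bl a * th μ f := by
  apply X0_pow_cancel (μ := μ)
  rw [X0_pow_mul_th (mul_mem_ordF hf), map_mul, ← X0_pow_mul_th hf]
  ring

theorem mem_Th_X0 {μ : ℕ} {t : P2} (ht : t ∈ (ordF μ).map (th μ)) :
    X 0 * t ∈ (ordF μ).map (th μ) := by
  obtain ⟨f, hf, rfl⟩ := ht
  refine ⟨X 0 * f, mul_mem_ordF hf, ?_⟩
  rw [th_mul _ hf, bl_X0]

theorem mem_Th_X0_pow {μ : ℕ} {t : P2} (ht : t ∈ (ordF μ).map (th μ)) (k : ℕ) :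
    X 0 ^ k * t ∈ (ordF μ).map (th μ) := by
  induction k with
  | zero => simpa using ht
  | succ k ih =>
    have := mem_Th_X0 ih
    rwa [← mul_assoc, ← pow_succ'] at this

theorem lift1_mem_Th {μ : ℕ} {r : Polynomial ℝ} (hr : r.natDegree ≤ μ) :
    lift1 r ∈ (ordF μ).map (th μ) := by
  rw [r.as_sum_range' (μ+1) (by omega), map_sum]
  refine Submodule.sum_mem _ ?_
  intro i hi
  have hi' : i ≤ μ := by simpa [Nat.lt_succ_iff] using hi
  refine ⟨monomial (Finsupp.single 0 (μ - i) + Finsupp.single 1 i) (r.coeff i), ?_, ?_⟩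
  · intro d hd
    rw [coeff_monomial] at hd
    split_ifs at hd with h
    · rw [← h]
      simp only [Finsupp.add_apply, Finsupp.single_apply]
      simp
      omega
    · exact absurd rfl hd
  · rw [th_monomial]
    have h2 : gexp μ (Finsupp.single 0 (μ - i) + Finsupp.single 1 i) = Finsupp.single 1 i := by
      have e0 : (Finsupp.single (0 : Fin 2) (μ - i) + Finsupp.single 1 i : Fin 2 →₀ ℕ) 0
          = μ - i := by simp
      have e1 : (Finsupp.single (0 : Fin 2) (μ - i) + Finsupp.single 1 i : Fin 2 →₀ ℕ) 1 = i := by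
        simp
      rw [gexp, e0, e1, show μ - i + i - μ = 0 by omega]
      simp
    rw [h2]
    simp only [lift1, Polynomial.aeval_monomial]
    rw [← MvPolynomial.C_mul_X_pow_eq_monomial]
    rfl

/-- one division step -/
theorem division_step {μ : ℕ} {q' : P2} (hq : eps q' ≠ 0) (hdeg : (eps q').natDegree ≤ μ) (g : P2) :
    ∃ t ∈ (ordF μ).map (th μ), ∃ w g', g = t + q' * w + X 0 * g' := by
  set Q := eps q'
  have hdiv := EuclideanDomain.div_add_mod (eps g) Q
  set w := eps g / Q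
  set r := eps g % Q
  have hr : r.natDegree ≤ μ := by
    have h1 : r.degree < Q.degree := Polynomial.degree_mod_lt _ hq
    have h2 : r.natDegree ≤ Q.natDegree := Polynomial.natDegree_le_natDegree h1.le
    omega
  obtain ⟨g1, hg1⟩ := exists_eq_lift1_add (g - q' * lift1 w - lift1 r)
  have heps : eps (g - q' * lift1 w - lift1 r) = 0 := by
    have hl : ∀ v : Polynomial ℝ, eps (lift1 v) = v := by
      intro v
      have : (eps.comp lift1) = AlgHom.id ℝ (Polynomial ℝ) := by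
        apply Polynomial.algHom_ext
        simp [lift1]
      exact DFunLike.congr_fun this v
    rw [map_sub, map_sub, map_mul, hl, hl]
    rw [← hdiv]
    ring
  rw [heps, map_zero, zero_add] at hg1
  refine ⟨lift1 r, lift1_mem_Th hr, lift1 w, g1, ?_⟩
  rw [← hg1]
  ring

theorem division_iter {μ : ℕ} {p' q' : P2}
    (hq : (eps q' ≠ 0 ∧ (eps q').natDegree ≤ μ) ∨ (eps p' ≠ 0 ∧ (eps p').natDegree ≤ μ))
    (g : P2) (k : ℕ) :
    ∃ t ∈ (ordF μ).map (th μ), ∃ e ∈ Ideal.span {p', q'}, ∃ g', g = t + e + X 0 ^ k * g' := by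
  induction k with
  | zero => exact ⟨0, Submodule.zero_mem _, 0, Ideal.zero_mem _, g, by simp⟩
  | succ k ih =>
    obtain ⟨t, ht, e, he, g', hg'⟩ := ih
    rcases hq with ⟨h1, h2⟩ | ⟨h1, h2⟩
    · obtain ⟨t', ht', w, g'', hg''⟩ := division_step h1 h2 g'
      refine ⟨t + X 0 ^ k * t', Submodule.add_mem _ ht (mem_Th_X0_pow ht' k),
        e + X 0 ^ k * w * q', ?_, g'', ?_⟩
      · exact Ideal.add_mem _ he (Ideal.mul_mem_left _ _ (Ideal.subset_span (by simp)))
      · rw [hg', hg'']; ring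
    · obtain ⟨t', ht', w, g'', hg''⟩ := division_step h1 h2 g'
      refine ⟨t + X 0 ^ k * t', Submodule.add_mem _ ht (mem_Th_X0_pow ht' k),
        e + X 0 ^ k * w * p', ?_, g'', ?_⟩
      · exact Ideal.add_mem _ he (Ideal.mul_mem_left _ _ (Ideal.subset_span (by simp)))
      · rw [hg', hg'']; ring

/-- elements of the localised ideal -/
theorem th_mem_locI {μ : ℕ} {p q f : P2} (hp : p ∈ ordF μ) (hq : q ∈ ordF μ) (hf : f ∈ ordF μ)
    (h : f ∈ locI (Ideal.span {p, q})) (u : ℝ) :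
    tr u (th μ f) ∈ locI (Ideal.span {tr u (th μ p), tr u (th μ q)}) := by
  obtain ⟨s, hs, hsf⟩ := h
  rw [Ideal.mem_span_pair] at hsf
  obtain ⟨a, b, hab⟩ := hsf
  refine ⟨tr u (bl s), by rwa [ev0_tr_bl], ?_⟩
  have h1 : th μ (s * f) = bl s * th μ f := th_mul s hf
  rw [← hab, map_add, th_mul a hp, th_mul b hq] at h1
  rw [← map_mul, ← h1, map_add, map_mul, map_mul]
  exact Ideal.add_mem _ (Ideal.mul_mem_left _ _ (Ideal.subset_span (by simp)))
    (Ideal.mul_mem_left _ _ (Ideal.subset_span (by simp)))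

theorem locI_le_ker {p q f : P2} (hp : ev0 p = 0) (hq : ev0 q = 0)
    (h : f ∈ locI (Ideal.span {p, q})) : ev0 f = 0 := by
  obtain ⟨s, hs, hsf⟩ := h
  rw [Ideal.mem_span_pair] at hsf
  obtain ⟨a, b, hab⟩ := hsf
  have : ev0 s * ev0 f = 0 := by
    rw [← map_mul, ← hab]; simp [hp, hq]
  exact (mul_eq_zero.mp this).resolve_left hs

/-- The colength strictly drops under a blow-up of a common zero. -/
theorem colen_drop {μ : ℕ} (hμ : 1 ≤ μ) {p q : P2} (hp : p ∈ ordF μ) (hq : q ∈ ordF μ)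
    (hfin : FinCo p q)
    (hne : (eps (th μ q) ≠ 0 ∧ (eps (th μ q)).natDegree ≤ μ) ∨
      (eps (th μ p) ≠ 0 ∧ (eps (th μ p)).natDegree ≤ μ)) (u : ℝ) :
    FinCo (tr u (th μ p)) (tr u (th μ q)) ∧
      colen (tr u (th μ p)) (tr u (th μ q)) < colen p q := by
  have hp0 := ordF_ev0 hμ hp
  have hq0 := ordF_ev0 hμ hq
  obtain ⟨N, hN⟩ := exists_pow_mem_locI hfin (X 0) (by simp)
  have hfin' := hfin
  unfold FinCo at hfin
  set I := Ideal.span {p, q} with hI
  set p' := tr u (th μ p) with hp'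
  set q' := tr u (th μ q) with hq'
  set I' := Ideal.span {p', q'} with hI'
  -- the two maps
  let φ : (ordF μ) →ₗ[ℝ] (P2 ⧸ locI I) :=
    (Ideal.Quotient.mkₐ ℝ (locI I)).toLinearMap.comp (ordF μ).subtype
  let ψ : (ordF μ) →ₗ[ℝ] (P2 ⧸ locI I') :=
    (Ideal.Quotient.mkₐ ℝ (locI I')).toLinearMap.comp
      ((tr u).toLinearMap.comp ((th μ).comp (ordF μ).subtype))
  have hφ : ∀ f : ordF μ, φ f = Ideal.Quotient.mk (locI I) (f : P2) := fun f => rfl
  have hψ : ∀ f : ordF μ, ψ f = Ideal.Quotient.mk (locI I') (tr u (th μ (f : P2))) := fun f => rfl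
  have hker : LinearMap.ker φ ≤ LinearMap.ker ψ := by
    intro f hf
    rw [LinearMap.mem_ker, hφ, Ideal.Quotient.eq_zero_iff_mem] at hf
    rw [LinearMap.mem_ker, hψ, Ideal.Quotient.eq_zero_iff_mem]
    exact th_mem_locI hp hq f.2 hf u
  have hX0N : (X 0 : P2) ^ N ∈ locI I' := by
    obtain ⟨s, hs, hsf⟩ := hN
    rw [Ideal.mem_span_pair] at hsf
    obtain ⟨a, b, hab⟩ := hsf
    refine ⟨tr u (bl s), by rwa [ev0_tr_bl], ?_⟩
    have h1 : bl (s * X 0 ^ N) = X 0 ^ μ * (bl a * th μ p + bl b * th μ q) := by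
      rw [← hab, map_add, map_mul, map_mul, ← X0_pow_mul_th hp, ← X0_pow_mul_th hq]
      ring
    have h2 : tr u (bl s) * X 0 ^ N = tr u (bl (s * X 0 ^ N)) := by
      simp
    rw [h2, h1]
    have h3 : tr u (X 0 ^ μ * (bl a * th μ p + bl b * th μ q))
        = (X 0 ^ μ * tr u (bl a)) * p' + (X 0 ^ μ * tr u (bl b)) * q' := by
      simp only [map_mul, map_add, map_pow, tr_X0, hp', hq']
      ring
    rw [h3]
    exact Ideal.add_mem _ (Ideal.mul_mem_left _ _ (Ideal.subset_span (by simp)))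
      (Ideal.mul_mem_left _ _ (Ideal.subset_span (by simp)))
  have hsurj : Function.Surjective ψ := by
    intro g0
    obtain ⟨g, rfl⟩ := Ideal.Quotient.mk_surjective g0
    obtain ⟨t, ht, e, he, g', hg'⟩ := division_iter hne (tr (-u) g) N
    obtain ⟨f, hf, rfl⟩ := ht
    refine ⟨⟨f, hf⟩, ?_⟩
    rw [hψ]
    have h1 : g = tr u (th μ f) + tr u e + X 0 ^ N * tr u g' := by
      have := congrArg (tr u) hg'
      rw [tr_tr] at this
      rw [this]
      simp
    rw [Ideal.Quotient.mk_eq_mk_iff_sub_mem]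
    have h2 : tr u (th μ f) - g = -(tr u e + tr u g' * X 0 ^ N) := by
      nth_rewrite 1 [h1]; ring
    simp only
    rw [h2]
    apply Ideal.neg_mem_iff _ |>.mpr
    refine Ideal.add_mem _ ?_ (Ideal.mul_mem_left _ _ hX0N)
    apply le_locI
    rw [Ideal.mem_span_pair] at he
    obtain ⟨a, b, rfl⟩ := he
    rw [map_add, map_mul, map_mul]
    exact Ideal.add_mem _ (Ideal.mul_mem_left _ _ (Ideal.subset_span (by simp [hp'])))
      (Ideal.mul_mem_left _ _ (Ideal.subset_span (by simp [hq'])))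
  -- factor
  let ψ' : ((ordF μ) ⧸ LinearMap.ker φ) →ₗ[ℝ] (P2 ⧸ locI I') :=
    (LinearMap.ker φ).liftQ ψ hker
  have hψ'surj : Function.Surjective ψ' := by
    intro g
    obtain ⟨f, hf⟩ := hsurj g
    exact ⟨Submodule.Quotient.mk f, by simpa [ψ'] using hf⟩
  let e := φ.quotKerEquivRange
  have : Module.Finite ℝ (LinearMap.range φ) := inferInstance
  have hfq : Module.Finite ℝ ((ordF μ) ⧸ LinearMap.ker φ) := Module.Finite.equiv e.symm
  have : Module.Finite ℝ (P2 ⧸ locI I') := Module.Finite.of_surjective ψ' hψ'surj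
  refine ⟨this, ?_⟩
  have h1 : Module.finrank ℝ (P2 ⧸ locI I') ≤ Module.finrank ℝ ((ordF μ) ⧸ LinearMap.ker φ) :=
    LinearMap.finrank_le_finrank_of_surjective hψ'surj
  have h2 : Module.finrank ℝ ((ordF μ) ⧸ LinearMap.ker φ) = Module.finrank ℝ (LinearMap.range φ) :=
    LinearEquiv.finrank_eq e
  have h3 : Module.finrank ℝ (LinearMap.range φ) < Module.finrank ℝ (P2 ⧸ locI I) := by
    apply Submodule.finrank_lt
    intro htop
    have : (1 : P2 ⧸ locI I) ∈ LinearMap.range φ := by rw [htop]; trivial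
    obtain ⟨f, hf⟩ := this
    rw [hφ] at hf
    have h4 : Ideal.Quotient.mk (locI I) (f : P2) = Ideal.Quotient.mk (locI I) 1 := by
      rw [hf]; rfl
    rw [Ideal.Quotient.mk_eq_mk_iff_sub_mem] at h4
    have h5 := locI_le_ker hp0 hq0 h4
    rw [map_sub, ordF_ev0 hμ f.2, map_one] at h5
    norm_num at h5
  have h6 : colen p' q' = Module.finrank ℝ (P2 ⧸ locI I') := rfl
  have h7 : colen p q = Module.finrank ℝ (P2 ⧸ locI I) := rfl
  rw [h6, h7]
  omega

end Pool.Agent.Helper77.Graphoid
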