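import Pool.Agent.Helper77.Graphoid.Alg3

/-!
Multiplicities, evaluations, isolation of common zeros, and values in the projective line.
-/

open MvPolynomial Topology Filter

namespace Pool.Agent.Helper77.Graphoid

/-- coefficients of the restriction to the exceptional line -/
theorem eps_th_monomial {μ : ℕ} {d : Fin 2 →₀ ℕ} (c : ℝ) (hd : μ ≤ d 0 + d 1) :
    eps (th μ (monomial d c)) = if d 0 + d 1 = μ then Polynomial.monomial (d 1) c else 0 := by
  rw [th_monomial]
  have h1 : (monomial (gexp μ d) c : P2) = C c * (X 0 ^ (d 0 + d 1 - μ) * X 1 ^ (d 1)) := by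
    rw [monomial_eq, Finsupp.prod_fintype _ _ (fun i => by simp)]
    simp [Fin.prod_univ_two, gexp]
  rw [h1]
  simp only [map_mul, map_pow, eps_X0, eps_X1]
  have h2 : eps (C c) = Polynomial.C c := by
    simp [eps, MvPolynomial.algHom_C]
  rw [h2]
  split_ifs with h
  · rw [h, Nat.sub_self, pow_zero, one_mul, ← Polynomial.C_mul_X_pow_eq_monomial]
  · rw [zero_pow (by omega), zero_mul, mul_zero]

theorem eps_th_coeff {μ : ℕ} {f : P2} (hf : f ∈ ordF μ) (b : ℕ) :
    (eps (th μ f)).coeff b =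
      if b ≤ μ then coeff (Finsupp.single 0 (μ - b) + Finsupp.single 1 b) f else 0 := by
  classical
  have hsum := MvPolynomial.support_sum_monomial_coeff f
  have h1 : eps (th μ f) = ∑ d ∈ f.support,
      (if d 0 + d 1 = μ then Polynomial.monomial (d 1) (coeff d f) else 0) := by
    conv_lhs => rw [← hsum]
    rw [map_sum, map_sum]
    refine Finset.sum_congr rfl ?_
    intro d hd
    exact eps_th_monomial _ (hf d (by simpa [mem_support_iff] using hd))
  rw [h1, Polynomial.finsetSum_coeff]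
  by_cases hb : b ≤ μ
  · rw [if_pos hb]
    set d0 : Fin 2 →₀ ℕ := Finsupp.single 0 (μ - b) + Finsupp.single 1 b with hd0
    have e0 : d0 0 = μ - b := by simp [hd0]
    have e1 : d0 1 = b := by simp [hd0]
    have key : ∀ d ∈ f.support, (if d 0 + d 1 = μ then Polynomial.monomial (d 1) (coeff d f)
        else 0 : Polynomial ℝ).coeff b = if d = d0 then coeff d0 f else 0 := by
      intro d _
      by_cases hd : d = d0
      · rw [if_pos hd, hd, e0, e1, if_pos (by omega), Polynomial.coeff_monomial, if_pos rfl]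
      · rw [if_neg hd]
        split_ifs with h2
        · rw [Polynomial.coeff_monomial]
          rw [if_neg]
          intro h3
          apply hd
          ext i
          fin_cases i
          · simp only [Fin.zero_eta, e0]; omega
          · simp only [Fin.mk_one, e1]; exact h3
        · simp
    rw [Finset.sum_congr rfl key]
    rw [Finset.sum_ite_eq']
    split_ifs with h4
    · rfl
    · rw [mem_support_iff, not_not] at h4; exact h4.symm
  · rw [if_neg hb]
    apply Finset.sum_eq_zero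
    intro d _
    split_ifs with h2
    · rw [Polynomial.coeff_monomial, if_neg]
      intro h3; omega
    · simp

theorem eps_th_spec {μ : ℕ} {f : P2} (hf : f ∈ ordF μ) (hf' : f ∉ ordF (μ + 1)) :
    eps (th μ f) ≠ 0 ∧ (eps (th μ f)).natDegree ≤ μ := by
  constructor
  · intro h0
    apply hf'
    intro d hd
    have h1 := hf d hd
    by_contra h2
    have h3 : d 0 + d 1 = μ := by omega
    have h4 := eps_th_coeff hf (d 1)
    rw [h0, Polynomial.coeff_zero, if_pos (by omega)] at h4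
    apply hd
    have h5 : d = Finsupp.single 0 (μ - d 1) + Finsupp.single 1 (d 1) := by
      ext i
      fin_cases i
      · simp; omega
      · simp
    rw [h5]; exact h4.symm
  · rw [Polynomial.natDegree_le_iff_coeff_eq_zero]
    intro N hN
    rw [eps_th_coeff hf, if_neg (by omega)]

theorem not_mem_ordF_of_ne_zero {f : P2} (hf : f ≠ 0) : ∃ N, f ∉ ordF N := by
  obtain ⟨d, hd⟩ := MvPolynomial.ne_zero_iff.mp hf
  refine ⟨d 0 + d 1 + 1, fun h => ?_⟩
  have := h d hd
  omega

theorem ordF_antitone {μ ν : ℕ} (h : μ ≤ ν) : ordF ν ≤ ordF μ := by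
  intro f hf d hd
  exact le_trans h (hf d hd)

/-- Existence of the multiplicity of a pair. -/
theorem exists_mult (p q : P2) (h : p ≠ 0 ∨ q ≠ 0) :
    ∃ μ, p ∈ ordF μ ∧ q ∈ ordF μ ∧ ((eps (th μ q) ≠ 0 ∧ (eps (th μ q)).natDegree ≤ μ) ∨
      (eps (th μ p) ≠ 0 ∧ (eps (th μ p)).natDegree ≤ μ)) := by
  classical
  have hex : ∃ N, ¬ (p ∈ ordF N ∧ q ∈ ordF N) := by
    rcases h with h | h
    · obtain ⟨N, hN⟩ := not_mem_ordF_of_ne_zero h
      exact ⟨N, fun hh => hN hh.1⟩
    · obtain ⟨N, hN⟩ := not_mem_ordF_of_ne_zero h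
      exact ⟨N, fun hh => hN hh.2⟩
  set N := Nat.find hex with hNdef
  have hN : ¬ (p ∈ ordF N ∧ q ∈ ordF N) := Nat.find_spec hex
  have hN0 : N ≠ 0 := by
    intro h0
    apply hN
    rw [h0, ordF_zero]
    exact ⟨trivial, trivial⟩
  obtain ⟨μ, hμ⟩ := Nat.exists_eq_succ_of_ne_zero hN0
  have hm : p ∈ ordF μ ∧ q ∈ ordF μ := by
    have := Nat.find_min hex (m := μ) (by omega)
    exact not_not.mp this
  refine ⟨μ, hm.1, hm.2, ?_⟩
  rw [hμ] at hN
  by_cases hq : q ∈ ordF (μ + 1)
  · right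
    exact eps_th_spec hm.1 (fun hp => hN ⟨hp, hq⟩)
  · left
    exact eps_th_spec hm.2 hq

theorem FinCo.ne_zero {p q : P2} (h : FinCo p q) : p ≠ 0 ∨ q ≠ 0 := by
  by_contra hcon
  push Not at hcon
  obtain ⟨N, s, hs, hsf⟩ := exists_pow_mem_locI h (X 0) (by simp)
  rw [hcon.1, hcon.2, Ideal.mem_span_pair] at hsf
  obtain ⟨a, b, hab⟩ := hsf
  simp only [mul_zero, add_zero] at hab
  rcases mul_eq_zero.mp hab.symm with h1 | h1
  · exact hs (by rw [h1, map_zero])
  · exact pow_ne_zero _ (MvPolynomial.X_ne_zero 0) h1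

/-- evaluation at a point of the plane -/
noncomputable def ev (z : ℝ × ℝ) : P2 →ₐ[ℝ] ℝ := MvPolynomial.aeval ![z.1, z.2]

@[simp] theorem ev_X0 (z : ℝ × ℝ) : ev z (X 0) = z.1 := by simp [ev]
@[simp] theorem ev_X1 (z : ℝ × ℝ) : ev z (X 1) = z.2 := by simp [ev]
@[simp] theorem ev_C (z : ℝ × ℝ) (c : ℝ) : ev z (C c) = c := by
  have : (C c : P2) = algebraMap ℝ P2 c := rfl
  rw [this, AlgHom.commutes]; rfl

theorem ev_zero (f : P2) : ev (0, 0) f = ev0 f := by
  have : ev (0, 0) = ev0 := by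
    apply MvPolynomial.algHom_ext
    intro i
    fin_cases i <;> simp
  rw [this]

theorem continuous_ev (f : P2) : Continuous (fun z : ℝ × ℝ => ev z f) := by
  have h1 : (fun z : ℝ × ℝ => ev z f) = fun z : ℝ × ℝ => MvPolynomial.eval ![z.1, z.2] f := by
    funext z
    rfl
  rw [h1]
  have h2 := MvPolynomial.continuous_eval f
  exact h2.comp (by fun_prop)

theorem ev_tr (u : ℝ) (z : ℝ × ℝ) (f : P2) : ev z (tr u f) = ev (z.1, z.2 + u) f := by
  have : (ev z).comp (tr u) = ev (z.1, z.2 + u) := by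
    apply MvPolynomial.algHom_ext
    intro i
    fin_cases i <;> simp
  rw [← this]; rfl

theorem ev_bl (z : ℝ × ℝ) (f : P2) : ev z (bl f) = ev (z.1, z.1 * z.2) f := by
  have : (ev z).comp bl = ev (z.1, z.1 * z.2) := by
    apply MvPolynomial.algHom_ext
    intro i
    fin_cases i <;> simp
  rw [← this]; rfl

theorem ev_th {μ : ℕ} {f : P2} (hf : f ∈ ordF μ) (z : ℝ × ℝ) :
    ev (z.1, z.1 * z.2) f = z.1 ^ μ * ev z (th μ f) := by
  rw [← ev_bl, ← X0_pow_mul_th hf, map_mul, map_pow, ev_X0]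

theorem ev_eps (u : ℝ) (f : P2) : ev (0, u) f = (eps f).eval u := by
  have : ev (0, u) = (Polynomial.aeval u).comp eps := by
    apply MvPolynomial.algHom_ext
    intro i
    fin_cases i <;> simp
  rw [this]; simp

/-- the pair `(p, q)` has a common zero at `z` -/
def Bad (p q : P2) (z : ℝ × ℝ) : Prop := ev z p = 0 ∧ ev z q = 0

theorem isClosed_bad (p q : P2) : IsClosed {z | Bad p q z} :=
  (isClosed_eq (continuous_ev p) continuous_const).inter
    (isClosed_eq (continuous_ev q) continuous_const)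

/-- common zeros are isolated -/
theorem FinCo.isolated {p q : P2} (h : FinCo p q) :
    ∀ᶠ z in 𝓝 ((0 : ℝ), (0 : ℝ)), Bad p q z → z = (0, 0) := by
  obtain ⟨N, s, hs, hsf⟩ := exists_pow_mem_locI h (X 0) (by simp)
  obtain ⟨M, t, ht, htf⟩ := exists_pow_mem_locI h (X 1) (by simp)
  have h1 : ∀ᶠ z in 𝓝 ((0 : ℝ), (0 : ℝ)), ev z s ≠ 0 :=
    (continuous_ev s).continuousAt.eventually_ne (by rwa [ev_zero])
  have h2 : ∀ᶠ z in 𝓝 ((0 : ℝ), (0 : ℝ)), ev z t ≠ 0 :=
    (continuous_ev t).continuousAt.eventually_ne (by rwa [ev_zero])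
  filter_upwards [h1, h2] with z hz1 hz2 hbad
  have key : ∀ g ∈ Ideal.span {p, q}, ev z g = 0 := by
    intro g hg
    rw [Ideal.mem_span_pair] at hg
    obtain ⟨a, b, rfl⟩ := hg
    simp [hbad.1, hbad.2]
  have k1 := key _ hsf
  have k2 := key _ htf
  rw [map_mul, map_pow, ev_X0] at k1
  rw [map_mul, map_pow, ev_X1] at k2
  have z1 : z.1 = 0 := by
    rcases mul_eq_zero.mp k1 with h | h
    · exact absurd h hz1
    · exact eq_zero_of_pow_eq_zero h
  have z2 : z.2 = 0 := by
    rcases mul_eq_zero.mp k2 with h | h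
    · exact absurd h hz2
    · exact eq_zero_of_pow_eq_zero h
  exact Prod.ext z1 z2

/-- the value `a / b` in the projective line -/
noncomputable def rv (a b : ℝ) : OnePoint ℝ := if b = 0 then OnePoint.infty else ((a / b : ℝ) : OnePoint ℝ)

theorem rv_smul {k : ℝ} (hk : k ≠ 0) (a b : ℝ) : rv (k * a) (k * b) = rv a b := by
  unfold rv
  by_cases hb : b = 0
  · simp [hb]
  · rw [if_neg (mul_ne_zero hk hb), if_neg hb, mul_div_mul_left _ _ hk]

theorem continuousAt_rv {a b : ℝ} (h : ¬ (a = 0 ∧ b = 0)) :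
    ContinuousAt (fun z : ℝ × ℝ => rv z.1 z.2) (a, b) := by
  by_cases hb : b = 0
  · have ha : a ≠ 0 := fun ha => h ⟨ha, hb⟩
    unfold ContinuousAt
    have e1 : rv a b = OnePoint.infty := by simp [rv, hb]
    rw [show (fun z : ℝ × ℝ => rv z.1 z.2) (a, b) = OnePoint.infty from e1]
    rw [OnePoint.hasBasis_nhds_infty.tendsto_right_iff]
    rintro K ⟨_, hK⟩
    obtain ⟨M, hM⟩ := hK.isBounded.exists_norm_le
    have h1 : ∀ᶠ z : ℝ × ℝ in 𝓝 (a, b), |z.1| > (|M| + 1) * |z.2| := by
      have c1 : ContinuousAt (fun z : ℝ × ℝ => |z.1|) (a, b) := by fun_prop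
      have c2 : ContinuousAt (fun z : ℝ × ℝ => (|M| + 1) * |z.2|) (a, b) := by fun_prop
      have := c2.eventually_lt c1 (by simp [hb, ha])
      exact this
    filter_upwards [h1] with z hz
    by_cases hz2 : z.2 = 0
    · right; simp [rv, hz2]
    · left
      refine ⟨z.1 / z.2, ?_, by simp [rv, hz2]⟩
      intro hmem
      have h3 := hM _ hmem
      rw [Real.norm_eq_abs, abs_div] at h3
      have h4 : 0 < |z.2| := abs_pos.mpr hz2
      rw [div_le_iff₀ h4] at h3
      have h5 : M ≤ |M| := le_abs_self M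
      nlinarith
  · have h1 : ∀ᶠ z : ℝ × ℝ in 𝓝 (a, b), z.2 ≠ 0 :=
      continuous_snd.continuousAt.eventually_ne hb
    have h2 : (fun z : ℝ × ℝ => rv z.1 z.2) =ᶠ[𝓝 (a, b)]
        fun z => ((z.1 / z.2 : ℝ) : OnePoint ℝ) := by
      filter_upwards [h1] with z hz
      simp [rv, hz]
    rw [continuousAt_congr h2]
    have h3 : ContinuousAt (fun z : ℝ × ℝ => z.1 / z.2) (a, b) :=
      ContinuousAt.div continuous_fst.continuousAt continuous_snd.continuousAt hb
    exact OnePoint.continuous_coe.continuousAt.comp h3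

/-- the value of the fraction `p / q` at `z` -/
noncomputable def fv (p q : P2) (z : ℝ × ℝ) : OnePoint ℝ := rv (ev z p) (ev z q)

theorem continuousAt_fv {p q : P2} {z : ℝ × ℝ} (h : ¬ Bad p q z) : ContinuousAt (fv p q) z := by
  have h1 : ContinuousAt (fun z : ℝ × ℝ => (ev z p, ev z q)) z :=
    ((continuous_ev p).prodMk (continuous_ev q)).continuousAt
  exact ContinuousAt.comp (f := fun z : ℝ × ℝ => (ev z p, ev z q))
    (g := fun w : ℝ × ℝ => rv w.1 w.2) (continuousAt_rv h) h1

end Pool.Agent.Helper77.Graphoid
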