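import Mathlib

/-!
Primitives of a local `ZMod 2`-valued cocycle along a map.
-/

open Topology Filter Set

set_option linter.unusedSectionVars false

namespace Pool.Agent.Helper77.Graphoid

variable {B B' S : Type*} [TopologicalSpace B] [TopologicalSpace B'] [TopologicalSpace S]

/-- `h` is a primitive of the cocycle `τ` along `c` on the set `D`. -/
def IsPrim {B S : Type*} [TopologicalSpace B] (τ : S → S → ZMod 2) (c : B → S) (D : Set B)
    (h : B → ZMod 2) : Prop :=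
  ∀ b0 ∈ D, ∀ᶠ b in 𝓝[D] b0, h b = h b0 + τ (c b) (c b0)

/-- local cocycle condition on the set `C` -/
def LocCocycle {S : Type*} [TopologicalSpace S] (τ : S → S → ZMod 2) (C : Set S) : Prop :=
  ∀ s0 ∈ C, ∃ O ∈ 𝓝 s0, ∀ s ∈ O ∩ C, ∀ s' ∈ O ∩ C, ∀ s'' ∈ O ∩ C, τ s s'' = τ s s' + τ s' s''

variable {τ : S → S → ZMod 2} {c : B → S} {D : Set B} {h h' : B → ZMod 2}

theorem IsPrim.mono {D' : Set B} (hh : IsPrim τ c D h) (hD : D' ⊆ D) : IsPrim τ c D' h := by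
  intro b0 hb0
  exact nhdsWithin_mono _ hD (hh b0 (hD hb0))

theorem IsPrim.congr (hh : IsPrim τ c D h) (he : ∀ b ∈ D, h' b = h b) : IsPrim τ c D h' := by
  intro b0 hb0
  filter_upwards [hh b0 hb0, self_mem_nhdsWithin] with b h1 h2
  rw [he b h2, he b0 hb0, h1]

theorem IsPrim.congr_map {c' : B → S} (hh : IsPrim τ c D h) (he : ∀ b ∈ D, c' b = c b) :
    IsPrim τ c' D h := by
  intro b0 hb0
  filter_upwards [hh b0 hb0, self_mem_nhdsWithin] with b h1 h2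
  rw [he b h2, he b0 hb0, h1]

theorem IsPrim.add_const (hh : IsPrim τ c D h) (k : ZMod 2) :
    IsPrim τ c D (fun b => h b + k) := by
  intro b0 hb0
  filter_upwards [hh b0 hb0] with b h1
  rw [h1]; ring

theorem IsPrim.comp {D' : Set B'} {φ : B' → B} (hh : IsPrim τ c D h) (hφ : ContinuousOn φ D')
    (hm : MapsTo φ D' D) : IsPrim τ (fun b => c (φ b)) D' (fun b => h (φ b)) := by
  intro b0 hb0
  have h1 := hh (φ b0) (hm hb0)
  have h2 : Tendsto φ (𝓝[D'] b0) (𝓝[D] (φ b0)) :=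
    tendsto_nhdsWithin_iff.mpr ⟨hφ b0 hb0, eventually_nhdsWithin_of_forall (fun x hx => hm hx)⟩
  exact h2.eventually h1

theorem IsPrim.sub_const (hD : IsPreconnected D) (hh : IsPrim τ c D h) (hh' : IsPrim τ c D h')
    {a b : B} (ha : a ∈ D) (hb : b ∈ D) : h a + h' a = h b + h' b := by
  refine IsPreconnected.induction₂' hD (fun x y => h x + h' x = h y + h' y) ?_ ?_ ha hb
  · intro x hx
    filter_upwards [hh x hx, hh' x hx] with y h1 h2
    have key : h x + h' x = h y + h' y := by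
      rw [h1, h2]
      have h3 : ∀ t : ZMod 2, t + t = 0 := by decide
      have : h x + τ (c y) (c x) + (h' x + τ (c y) (c x))
        = (h x + h' x) + (τ (c y) (c x) + τ (c y) (c x)) := by ring
      rw [this, h3, add_zero]
    exact ⟨key, key.symm⟩
  · intro x y z _ _ _ h1 h2
    exact h1.trans h2

theorem IsPrim.glue_same {Z1 Z2 : Set B} (h1 : IsPrim τ c (D ∩ Z1) h) (h2 : IsPrim τ c (D ∩ Z2) h)
    (hZ1 : IsClosed Z1) (hZ2 : IsClosed Z2) (hD : D ⊆ Z1 ∪ Z2) : IsPrim τ c D h := by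
  intro b0 hb0
  have e1 : ∀ᶠ b in 𝓝[D] b0, b ∈ Z1 → h b = h b0 + τ (c b) (c b0) := by
    by_cases hb : b0 ∈ Z1
    · have := h1 b0 ⟨hb0, hb⟩
      rw [nhdsWithin_inter', eventually_inf_principal] at this
      exact this
    · have : ∀ᶠ b in 𝓝 b0, b ∉ Z1 := hZ1.isOpen_compl.mem_nhds hb
      filter_upwards [nhdsWithin_le_nhds this] with b hb1 hb2
      exact absurd hb2 hb1
  have e2 : ∀ᶠ b in 𝓝[D] b0, b ∈ Z2 → h b = h b0 + τ (c b) (c b0) := by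
    by_cases hb : b0 ∈ Z2
    · have := h2 b0 ⟨hb0, hb⟩
      rw [nhdsWithin_inter', eventually_inf_principal] at this
      exact this
    · have : ∀ᶠ b in 𝓝 b0, b ∉ Z2 := hZ2.isOpen_compl.mem_nhds hb
      filter_upwards [nhdsWithin_le_nhds this] with b hb1 hb2
      exact absurd hb2 hb1
  filter_upwards [e1, e2, self_mem_nhdsWithin] with b k1 k2 k3
  rcases hD k3 with k | k
  · exact k1 k
  · exact k2 k

theorem exists_prim_glue {Z1 Z2 : Set B} {h1 h2 : B → ZMod 2}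
    (hp1 : IsPrim τ c (D ∩ Z1) h1) (hp2 : IsPrim τ c (D ∩ Z2) h2)
    (hZ1 : IsClosed Z1) (hZ2 : IsClosed Z2) (hD : D ⊆ Z1 ∪ Z2)
    (hconn : IsPreconnected (D ∩ Z1 ∩ Z2)) : ∃ h, IsPrim τ c D h := by
  classical
  -- the constant
  obtain ⟨k, hk⟩ : ∃ k : ZMod 2, ∀ b ∈ D ∩ Z1 ∩ Z2, h1 b = h2 b + k := by
    rcases (D ∩ Z1 ∩ Z2).eq_empty_or_nonempty with he | ⟨b0, hb0⟩
    · refine ⟨0, fun b hb => ?_⟩
      rw [he] at hb; exact absurd hb (notMem_empty b)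
    · refine ⟨h1 b0 + h2 b0, fun b hb => ?_⟩
      have q1 : IsPrim τ c (D ∩ Z1 ∩ Z2) h1 := hp1.mono inter_subset_left
      have q2 : IsPrim τ c (D ∩ Z1 ∩ Z2) h2 :=
        hp2.mono (fun x hx => ⟨hx.1.1, hx.2⟩)
      have := IsPrim.sub_const hconn q1 q2 hb hb0
      rw [← this]
      have h3 : ∀ t s : ZMod 2, t = s + (t + s) := by decide
      exact h3 _ _
  refine ⟨fun b => if b ∈ Z1 then h1 b else h2 b + k, ?_⟩
  refine IsPrim.glue_same (Z1 := Z1) (Z2 := Z2) ?_ ?_ hZ1 hZ2 hD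
  · exact hp1.congr (fun b hb => by simp [hb.2])
  · refine (hp2.add_const k).congr (fun b hb => ?_)
    by_cases hb1 : b ∈ Z1
    · simp only [hb1, if_true]
      exact hk b ⟨⟨hb.1, hb1⟩, hb.2⟩
    · simp [hb1]

/-- existence of local primitives at points of continuity -/
theorem exists_local_prim {C : Set S} (hτ : LocCocycle τ C) {b0 : B}
    (hc : ContinuousWithinAt c D b0) (hb0 : c b0 ∈ C) (hC : ∀ᶠ b in 𝓝[D] b0, c b ∈ C) :
    ∃ U ∈ 𝓝 b0, IsPrim τ c (D ∩ U) (fun b => τ (c b) (c b0)) := by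
  obtain ⟨O, hO, hcoc⟩ := hτ (c b0) hb0
  have h1 : ∀ᶠ b in 𝓝[D] b0, c b ∈ O := hc hO
  have h2 := h1.and hC
  rw [eventually_nhdsWithin_iff] at h2
  refine ⟨_, h2, ?_⟩
  intro b1 hb1
  filter_upwards [self_mem_nhdsWithin] with b hb
  have k1 := hb1.2 hb1.1
  have k2 := hb.2 hb.1
  have k3 : c b0 ∈ O ∩ C := ⟨mem_of_mem_nhds hO, hb0⟩
  have := hcoc _ ⟨k2.1, k2.2⟩ _ ⟨k1.1, k1.2⟩ _ k3
  rw [this]; ring

/-- continuous induction on an interval -/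
theorem interval_induction (Pr : ℝ → ℝ → Prop) (Bd : Set ℝ) {a b : ℝ} (hab : a ≤ b)
    (hBd : ∀ s t, a ≤ s → s < t → t ≤ b → ∃ u ∈ Ioo s t, u ∉ Bd)
    (mono : ∀ s t s' t', s ≤ s' → t' ≤ t → Pr s t → Pr s' t')
    (loc : ∀ x ∈ Icc a b, ∃ ε > 0, Pr (x - ε) (x + ε))
    (glue : ∀ s t u, s ≤ t → t ≤ u → t ∈ Icc a b → t ∉ Bd → Pr s t → Pr t u → Pr s u) :
    Pr a b := by
  set G := {t | t ∈ Icc a b ∧ Pr a t} with hG
  have haG : a ∈ G := by
    obtain ⟨ε, hε, hP⟩ := loc a ⟨le_refl _, hab⟩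
    exact ⟨⟨le_refl _, hab⟩, mono _ _ _ _ (by linarith) (by linarith) hP⟩
  have hGb : BddAbove G := ⟨b, fun t ht => ht.1.2⟩
  set t0 := sSup G with ht0
  have ht0a : a ≤ t0 := le_csSup hGb haG
  have ht0b : t0 ≤ b := csSup_le ⟨a, haG⟩ (fun t ht => ht.1.2)
  obtain ⟨ε, hε, hP⟩ := loc t0 ⟨ht0a, ht0b⟩
  have key : Pr a (t0 + ε) := by
    by_cases h : t0 - ε < a
    · exact mono _ _ _ _ h.le (le_refl _) hP
    push Not at h
    have h1 : t0 - ε < t0 := by linarith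
    obtain ⟨t1, ht1, ht1'⟩ := exists_lt_of_lt_csSup ⟨a, haG⟩ h1
    have ht1le : t1 ≤ t0 := le_csSup hGb ht1
    obtain ⟨u, hu, huB⟩ := hBd (t0 - ε) t1 h (by linarith) ht1.1.2
    have huI : u ∈ Icc a b := ⟨by linarith [hu.1], by linarith [hu.2, ht1.1.2]⟩
    refine glue a u (t0 + ε) huI.1 (by linarith [hu.2]) huI huB ?_ ?_
    · exact mono _ _ _ _ (le_refl _) hu.2.le ht1.2
    · exact mono _ _ _ _ hu.1.le (le_refl _) hP
  by_cases hb : t0 + ε ≤ b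
  · exfalso
    have : t0 + ε ∈ G := ⟨⟨by linarith, hb⟩, key⟩
    have := le_csSup hGb this
    linarith
  · push Not at hb
    exact mono _ _ _ _ (le_refl _) hb.le key

/-- gluing in a thin vertical strip -/
theorem strip (τ : S → S → ZMod 2) (c : ℝ × ℝ → S) (bad : Set (ℝ × ℝ)) (hbad : IsClosed bad)
    (x0 : ℝ) {a b : ℝ} (hab : a ≤ b)
    (loc : ∀ u ∈ Icc a b, ∃ ε > 0,
      (∀ z ∈ Icc (x0 - ε) (x0 + ε) ×ˢ Icc (u - ε) (u + ε), z ∈ bad → z = (x0, u)) ∧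
      ∃ h, IsPrim τ c ((Icc (x0 - ε) (x0 + ε) ×ˢ Icc (u - ε) (u + ε)) \ bad) h) :
    ∃ r > 0, ∃ h, IsPrim τ c ((Icc (x0 - r) (x0 + r) ×ˢ Icc a b) \ bad) h := by
  refine interval_induction
    (fun s t => ∃ r > 0, ∃ h, IsPrim τ c ((Icc (x0 - r) (x0 + r) ×ˢ Icc s t) \ bad) h)
    {u | (x0, u) ∈ bad} hab ?_ ?_ ?_ ?_
  · -- isolated
    intro s t hs hst ht
    obtain ⟨ε, hε, h1, _⟩ := loc s ⟨hs, by linarith⟩
    refine ⟨min ((s + t) / 2) (s + ε), ⟨?_, ?_⟩, ?_⟩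
    · exact lt_min (by linarith) (by linarith)
    · exact lt_of_le_of_lt (min_le_left _ _) (by linarith)
    · intro hmem
      have h2 : s < min ((s + t) / 2) (s + ε) := lt_min (by linarith) (by linarith)
      have := h1 (x0, min ((s + t) / 2) (s + ε)) ⟨⟨by simp; linarith, by simp; linarith⟩,
        ⟨by simp only; linarith, min_le_right _ _⟩⟩ hmem
      have h3 := congrArg Prod.snd this
      simp only at h3
      linarith
  · rintro s t s' t' hs ht ⟨r, hr, h, hh⟩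
    exact ⟨r, hr, h, hh.mono (sdiff_subset_sdiff_left
      (prod_mono_right (Icc_subset_Icc hs ht)))⟩
  · intro u hu
    obtain ⟨ε, hε, _, h, hh⟩ := loc u hu
    exact ⟨ε, hε, ε, hε, h, hh⟩
  · rintro s t u hst htu _ htB ⟨r1, hr1, h1, hh1⟩ ⟨r2, hr2, h2, hh2⟩
    have hopen : badᶜ ∈ 𝓝 (x0, t) := hbad.isOpen_compl.mem_nhds htB
    obtain ⟨δ, hδ, hball⟩ := Metric.mem_nhds_iff.mp hopen
    set r := min (min r1 r2) (δ / 2) with hr
    have hrpos : 0 < r := lt_min (lt_min hr1 hr2) (by linarith)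
    have hr1' : r ≤ r1 := (min_le_left _ _).trans (min_le_left _ _)
    have hr2' : r ≤ r2 := (min_le_left _ _).trans (min_le_right _ _)
    have hrδ : r ≤ δ / 2 := min_le_right _ _
    refine ⟨r, hrpos, ?_⟩
    refine exists_prim_glue (Z1 := {z | z.2 ≤ t}) (Z2 := {z | t ≤ z.2})
      (h1 := h1) (h2 := h2) ?_ ?_ ?_ ?_ ?_ ?_
    · refine hh1.mono ?_
      rintro ⟨x, y⟩ ⟨⟨⟨hx, hy⟩, hb⟩, hz⟩
      refine ⟨⟨?_, ?_⟩, hb⟩
      · simp only [mem_Icc] at hx ⊢; constructor <;> linarith [hx.1, hx.2]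
      · simp only [mem_Icc, mem_ofPred_eq] at hy hz ⊢; exact ⟨hy.1, hz⟩
    · refine hh2.mono ?_
      rintro ⟨x, y⟩ ⟨⟨⟨hx, hy⟩, hb⟩, hz⟩
      refine ⟨⟨?_, ?_⟩, hb⟩
      · simp only [mem_Icc] at hx ⊢; constructor <;> linarith [hx.1, hx.2]
      · simp only [mem_Icc, mem_ofPred_eq] at hy hz ⊢; exact ⟨hz, hy.2⟩
    · exact isClosed_le continuous_snd continuous_const
    · exact isClosed_le continuous_const continuous_snd
    · intro z _
      exact le_total z.2 t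
    · have heq : ((Icc (x0 - r) (x0 + r) ×ˢ Icc s u) \ bad) ∩ {z : ℝ × ℝ | z.2 ≤ t} ∩
          {z | t ≤ z.2} = Icc (x0 - r) (x0 + r) ×ˢ {t} := by
        ext ⟨x, y⟩
        simp only [mem_inter_iff, Set.mem_sdiff, mem_prod, mem_Icc, mem_ofPred_eq, mem_singleton_iff]
        constructor
        · rintro ⟨⟨⟨⟨hx, hy⟩, hb⟩, h1⟩, h2⟩
          exact ⟨hx, le_antisymm h1 h2⟩
        · rintro ⟨hx, rfl⟩
          refine ⟨⟨⟨⟨hx, hst, htu⟩, ?_⟩, le_refl _⟩, le_refl _⟩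
          have : (x, y) ∈ Metric.ball (x0, y) δ := by
            rw [Metric.mem_ball, Prod.dist_eq, dist_self, max_eq_left dist_nonneg, Real.dist_eq]
            rw [abs_lt]; constructor <;> linarith [hx.1, hx.2]
          exact hball this
      rw [heq]
      exact isPreconnected_Icc.prod isPreconnected_singleton

/-- gluing in a rectangle -/
theorem rect (τ : S → S → ZMod 2) (c : ℝ × ℝ → S) (bad : Set (ℝ × ℝ)) (hbad : IsClosed bad)
    (loc : ∀ w : ℝ × ℝ, ∃ ε > 0,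
      (∀ z ∈ Icc (w.1 - ε) (w.1 + ε) ×ˢ Icc (w.2 - ε) (w.2 + ε), z ∈ bad → z = w) ∧
      ∃ h, IsPrim τ c ((Icc (w.1 - ε) (w.1 + ε) ×ˢ Icc (w.2 - ε) (w.2 + ε)) \ bad) h)
    {a b a' b' : ℝ} (hab : a ≤ b) (hab' : a' ≤ b') :
    ∃ h, IsPrim τ c ((Icc a b ×ˢ Icc a' b') \ bad) h := by
  -- finiteness of the bad set in the rectangle
  have hfin : (bad ∩ (Icc a b ×ˢ Icc a' b')).Finite := by
    have hcomp : IsCompact (bad ∩ (Icc a b ×ˢ Icc a' b')) :=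
      (isCompact_Icc.prod isCompact_Icc).inter_left hbad
    apply hcomp.finite
    rw [isDiscrete_iff_forall_mem_exists_isOpen]
    intro w hw
    obtain ⟨ε, hε, h1, _⟩ := loc w
    refine ⟨Ioo (w.1 - ε) (w.1 + ε) ×ˢ Ioo (w.2 - ε) (w.2 + ε), isOpen_Ioo.prod isOpen_Ioo, ?_⟩
    ext z
    simp only [mem_inter_iff, mem_singleton_iff]
    constructor
    · rintro ⟨hz1, hz2, _⟩
      exact h1 z ⟨Ioo_subset_Icc_self hz1.1, Ioo_subset_Icc_self hz1.2⟩ hz2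
    · rintro rfl
      refine ⟨⟨?_, ?_⟩, hw⟩ <;> constructor <;> linarith
  refine interval_induction
    (fun s t => ∃ h, IsPrim τ c ((Icc s t ×ˢ Icc a' b') \ bad) h)
    (Prod.fst '' (bad ∩ (Icc a b ×ˢ Icc a' b'))) hab ?_ ?_ ?_ ?_
  · intro s t _ hst _
    have hinf : (Ioo s t).Infinite := Ioo_infinite hst
    obtain ⟨u, hu, hu'⟩ := hinf.exists_notMem_finite (hfin.image Prod.fst)
    exact ⟨u, hu, hu'⟩
  · rintro s t s' t' hs ht ⟨h, hh⟩
    exact ⟨h, hh.mono (sdiff_subset_sdiff_left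
      (prod_mono_left (Icc_subset_Icc hs ht)))⟩
  · intro x _
    obtain ⟨r, hr, h, hh⟩ := strip τ c bad hbad x hab' (fun u _ => by
      obtain ⟨ε, hε, h1, h2⟩ := loc (x, u)
      exact ⟨ε, hε, h1, h2⟩)
    exact ⟨r, hr, h, hh⟩
  · rintro s t u hst htu htI htB ⟨h1, hh1⟩ ⟨h2, hh2⟩
    refine exists_prim_glue (Z1 := {z | z.1 ≤ t}) (Z2 := {z | t ≤ z.1})
      (h1 := h1) (h2 := h2) ?_ ?_ ?_ ?_ ?_ ?_
    · refine hh1.mono ?_
      rintro ⟨x, y⟩ ⟨⟨⟨hx, hy⟩, hb⟩, hz⟩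
      exact ⟨⟨⟨hx.1, hz⟩, hy⟩, hb⟩
    · refine hh2.mono ?_
      rintro ⟨x, y⟩ ⟨⟨⟨hx, hy⟩, hb⟩, hz⟩
      exact ⟨⟨⟨hz, hx.2⟩, hy⟩, hb⟩
    · exact isClosed_le continuous_fst continuous_const
    · exact isClosed_le continuous_const continuous_fst
    · intro z _
      exact le_total z.1 t
    · have heq : ((Icc s u ×ˢ Icc a' b') \ bad) ∩ {z : ℝ × ℝ | z.1 ≤ t} ∩
          {z | t ≤ z.1} = {t} ×ˢ Icc a' b' := by
        ext ⟨x, y⟩
        simp only [mem_inter_iff, Set.mem_sdiff, mem_prod, mem_Icc, mem_ofPred_eq, mem_singleton_iff]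
        constructor
        · rintro ⟨⟨⟨⟨hx, hy⟩, hb⟩, h1⟩, h2⟩
          exact ⟨le_antisymm h1 h2, hy⟩
        · rintro ⟨rfl, hy⟩
          refine ⟨⟨⟨⟨⟨hst, htu⟩, hy⟩, ?_⟩, le_refl _⟩, le_refl _⟩
          intro hmem
          exact htB ⟨(x, y), ⟨hmem, ⟨htI, hy⟩⟩, rfl⟩
      rw [heq]
      exact isPreconnected_singleton.prod isPreconnected_Icc

end Pool.Agent.Helper77.Graphoid
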