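import Pool.Agent.Helper77.Graphoid.Alg4
import Pool.Agent.Helper77.Graphoid.Prim

/-!
Charts of the blow-up for a finite family of fractions.
-/

open MvPolynomial Topology Filter Set

namespace Pool.Agent.Helper77.Graphoid

variable {ι : Type*}

/-- the vector of values of a family of fractions -/
noncomputable def cmap (p q : ι → P2) (z : ℝ × ℝ) : ι → OnePoint ℝ := fun i => fv (p i) (q i) z

/-- the set of points where some fraction of the family is undetermined -/
def badSet (p q : ι → P2) : Set (ℝ × ℝ) := {z | ∃ i, Bad (p i) (q i) z}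

theorem isClosed_badSet [Finite ι] (p q : ι → P2) : IsClosed (badSet p q) := by
  have : badSet p q = ⋃ i, {z | Bad (p i) (q i) z} := by
    ext z; simp [badSet]
  rw [this]
  exact isClosed_iUnion_of_finite (fun i => isClosed_bad _ _)

theorem continuousAt_cmap {p q : ι → P2} {z : ℝ × ℝ} (h : z ∉ badSet p q) :
    ContinuousAt (cmap p q) z := by
  rw [continuousAt_pi]
  intro i
  exact continuousAt_fv (fun hb => h ⟨i, hb⟩)

/-- exchange of the two variables -/
noncomputable def sw : P2 ≃ₐ[ℝ] P2 := MvPolynomial.renameEquiv ℝ (Equiv.swap 0 1)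

@[simp] theorem sw_X0 : sw (X 0) = X 1 := by simp [sw]
@[simp] theorem sw_X1 : sw (X 1) = X 0 := by simp [sw]

theorem ev_sw (z : ℝ × ℝ) (f : P2) : ev z (sw f) = ev (z.2, z.1) f := by
  have : (ev z).comp (sw : P2 →ₐ[ℝ] P2) = ev (z.2, z.1) := by
    apply MvPolynomial.algHom_ext
    intro i
    fin_cases i <;> simp
  rw [← this]; rfl

theorem bad_sw (p q : P2) (z : ℝ × ℝ) : Bad (sw p) (sw q) z ↔ Bad p q (z.2, z.1) := by
  simp [Bad, ev_sw]

theorem fv_sw (p q : P2) (z : ℝ × ℝ) : fv (sw p) (sw q) z = fv p q (z.2, z.1) := by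
  simp [fv, ev_sw]

theorem locI_equiv (e : P2 ≃ₐ[ℝ] P2) (he : ∀ f, ev0 (e f) = ev0 f) (p q f : P2) :
    e f ∈ locI (Ideal.span {e p, e q}) ↔ f ∈ locI (Ideal.span {p, q}) := by
  constructor
  · rintro ⟨s, hs, hsf⟩
    rw [Ideal.mem_span_pair] at hsf
    obtain ⟨a, b, hab⟩ := hsf
    refine ⟨e.symm s, ?_, ?_⟩
    · rw [← he, AlgEquiv.apply_symm_apply]; exact hs
    · rw [Ideal.mem_span_pair]
      refine ⟨e.symm a, e.symm b, ?_⟩
      have := congrArg e.symm hab
      simpa using this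
  · rintro ⟨s, hs, hsf⟩
    rw [Ideal.mem_span_pair] at hsf
    obtain ⟨a, b, hab⟩ := hsf
    refine ⟨e s, ?_, ?_⟩
    · rw [he]; exact hs
    · rw [Ideal.mem_span_pair]
      refine ⟨e a, e b, ?_⟩
      rw [← map_mul, ← map_mul, ← map_add, hab, map_mul]

/-- the induced isomorphism of local algebras -/
noncomputable def quotEquiv (e : P2 ≃ₐ[ℝ] P2) (he : ∀ f, ev0 (e f) = ev0 f) (p q : P2) :
    (P2 ⧸ locI (Ideal.span {p, q})) ≃ₐ[ℝ] (P2 ⧸ locI (Ideal.span {e p, e q})) :=
  Ideal.quotientEquivAlg _ _ e (by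
    ext f
    rw [Ideal.mem_map_iff_of_surjective (e : P2 →+* P2) e.surjective]
    constructor
    · intro hf
      refine ⟨e.symm f, ?_, by simp⟩
      rw [← locI_equiv e he]; simpa using hf
    · rintro ⟨g, hg, rfl⟩
      exact (locI_equiv e he p q g).mpr hg)

theorem finCo_equiv (e : P2 ≃ₐ[ℝ] P2) (he : ∀ f, ev0 (e f) = ev0 f) {p q : P2} (h : FinCo p q) :
    FinCo (e p) (e q) := by
  unfold FinCo at h ⊢
  exact Module.Finite.equiv (quotEquiv e he p q).toLinearEquiv

theorem colen_equiv (e : P2 ≃ₐ[ℝ] P2) (he : ∀ f, ev0 (e f) = ev0 f) (p q : P2) :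
    colen (e p) (e q) = colen p q :=
  (LinearEquiv.finrank_eq (quotEquiv e he p q).toLinearEquiv).symm

theorem ev0_sw (f : P2) : ev0 (sw f) = ev0 f := by
  rw [← ev_zero, ev_sw, ev_zero]

theorem badSet_sw (p q : ι → P2) (z : ℝ × ℝ) :
    z ∈ badSet (fun i => sw (p i)) (fun i => sw (q i)) ↔ (z.2, z.1) ∈ badSet p q := by
  simp only [badSet, mem_ofPred_eq, bad_sw]

theorem cmap_sw (p q : ι → P2) (z : ℝ × ℝ) :
    cmap (fun i => sw (p i)) (fun i => sw (q i)) z = cmap p q (z.2, z.1) := by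
  funext i
  simp only [cmap, fv_sw]

theorem finCo_of_not_bad {p q : P2} (h : ev0 p ≠ 0 ∨ ev0 q ≠ 0) : FinCo p q ∧ colen p q = 0 := by
  have htop : locI (Ideal.span {p, q}) = ⊤ := by
    rw [Ideal.eq_top_iff_one]
    rcases h with h1 | h1
    · exact ⟨p, h1, by rw [mul_one]; exact Ideal.subset_span (by simp)⟩
    · exact ⟨q, h1, by rw [mul_one]; exact Ideal.subset_span (by simp)⟩
  have hsub : Subsingleton (P2 ⧸ locI (Ideal.span {p, q})) :=
    Ideal.Quotient.subsingleton_iff.mpr htop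
  have hfin : FinCo p q := by
    unfold FinCo
    exact Module.Finite.of_finite
  exact ⟨hfin, (colen_eq_zero_iff hfin).mpr h⟩

/-- the chart for a single fraction -/
theorem exists_chart_single (p q : P2) (hfin : FinCo p q) :
    ∃ P Q : P2, (∀ u, FinCo (tr u P) (tr u Q) ∧ colen (tr u P) (tr u Q) ≤ colen p q ∧
        (Bad p q (0, 0) → colen (tr u P) (tr u Q) < colen p q)) ∧
      (∀ x w : ℝ, x ≠ 0 → (Bad P Q (x, w) ↔ Bad p q (x, x * w))) ∧
      (∀ x w : ℝ, x ≠ 0 → fv P Q (x, w) = fv p q (x, x * w)) ∧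
      {u : ℝ | Bad P Q (0, u)}.Finite := by
  obtain ⟨μ, hp, hq, hne⟩ := exists_mult p q hfin.ne_zero
  refine ⟨th μ p, th μ q, ?_, ?_, ?_, ?_⟩
  · intro u
    by_cases hb : Bad p q (0, 0)
    · have hμ : 1 ≤ μ := by
        by_contra h0
        have hμ0 : μ = 0 := by omega
        subst hμ0
        -- then one of the values at the origin is nonzero
        have key : ∀ f : P2, ev0 f = 0 → ¬ (eps (th 0 f) ≠ 0 ∧ (eps (th 0 f)).natDegree ≤ 0) := by
          intro f hf ⟨h1, h2⟩
          have h3 : f ∈ ordF 0 := by rw [ordF_zero]; trivial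
          have h4 := Polynomial.eq_C_of_natDegree_le_zero h2
          have h5 : (eps (th 0 f)).eval 0 = 0 := by
            rw [← ev_eps]
            have h6 := ev_th h3 ((0 : ℝ), (0 : ℝ))
            simp only [pow_zero, one_mul, mul_zero] at h6
            rw [← h6, ev_zero, hf]
          rw [h4, Polynomial.eval_C] at h5
          rw [h5, map_zero] at h4
          exact h1 h4
        have hb1 : ev0 p = 0 := by rw [← ev_zero]; exact hb.1
        have hb2 : ev0 q = 0 := by rw [← ev_zero]; exact hb.2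
        rcases hne with h | h
        · exact key q hb2 h
        · exact key p hb1 h
      have hd := colen_drop hμ hp hq hfin hne u
      exact ⟨hd.1, hd.2.le, fun _ => hd.2⟩
    · have hb' : ev0 p ≠ 0 ∨ ev0 q ≠ 0 := by
        by_contra hcon
        push Not at hcon
        exact hb ⟨by rw [ev_zero]; exact hcon.1, by rw [ev_zero]; exact hcon.2⟩
      have hμ : μ = 0 := by
        by_contra h0
        rcases hb' with h | h
        · exact h (ordF_ev0 (by omega) hp)
        · exact h (ordF_ev0 (by omega) hq)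
      subst hμ
      have key : ∀ f : P2, ev0 (tr u (th 0 f)) = ev0 f := by
        intro f
        have h3 : f ∈ ordF 0 := by rw [ordF_zero]; trivial
        have h4 := X0_pow_mul_th h3
        rw [pow_zero, one_mul] at h4
        rw [h4, ev0_tr_bl]
      have h5 := finCo_of_not_bad (p := tr u (th 0 p)) (q := tr u (th 0 q)) (by
        rw [key, key]; exact hb')
      exact ⟨h5.1, by rw [h5.2]; exact Nat.zero_le _, fun h => absurd h hb⟩
  · intro x w hx
    unfold Bad
    have h1 := ev_th hp (x, w)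
    have h2 := ev_th hq (x, w)
    simp only at h1 h2
    rw [h1, h2]
    have hx' : x ^ μ ≠ 0 := pow_ne_zero _ hx
    simp [hx']
  · intro x w hx
    unfold fv
    have h1 := ev_th hp (x, w)
    have h2 := ev_th hq (x, w)
    simp only at h1 h2
    rw [h1, h2, rv_smul (pow_ne_zero _ hx)]
  · rcases hne with ⟨h, _⟩ | ⟨h, _⟩
    · refine ((eps (th μ q)).roots.toFinset.finite_toSet).subset ?_
      intro u hu
      have h2 : (eps (th μ q)).eval u = 0 := by rw [← ev_eps]; exact hu.2
      simp [Polynomial.mem_roots h, Polynomial.IsRoot, h2]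
    · refine ((eps (th μ p)).roots.toFinset.finite_toSet).subset ?_
      intro u hu
      have h2 : (eps (th μ p)).eval u = 0 := by rw [← ev_eps]; exact hu.1
      simp [Polynomial.mem_roots h, Polynomial.IsRoot, h2]

/-- the chart for a finite family -/
theorem exists_chart [Fintype ι] (p q : ι → P2) (hfin : ∀ i, FinCo (p i) (q i))
    (h0 : ((0 : ℝ), (0 : ℝ)) ∈ badSet p q) :
    ∃ P Q : ι → P2, (∀ u, (∀ i, FinCo (tr u (P i)) (tr u (Q i))) ∧
        ∑ i, colen (tr u (P i)) (tr u (Q i)) < ∑ i, colen (p i) (q i)) ∧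
      (∀ x w : ℝ, x ≠ 0 → ((x, w) ∈ badSet P Q ↔ (x, x * w) ∈ badSet p q)) ∧
      (∀ x w : ℝ, x ≠ 0 → cmap P Q (x, w) = cmap p q (x, x * w)) ∧
      {u : ℝ | ((0 : ℝ), u) ∈ badSet P Q}.Finite := by
  choose P Q h1 h2 h3 h4 using fun i => exists_chart_single (p i) (q i) (hfin i)
  refine ⟨P, Q, ?_, ?_, ?_, ?_⟩
  · intro u
    refine ⟨fun i => (h1 i u).1, ?_⟩
    obtain ⟨i0, hi0⟩ := h0
    exact Finset.sum_lt_sum (fun i _ => (h1 i u).2.1) ⟨i0, Finset.mem_univ _, (h1 i0 u).2.2 hi0⟩
  · intro x w hx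
    simp only [badSet, mem_ofPred_eq]
    exact exists_congr (fun i => h2 i x w hx)
  · intro x w hx
    funext i
    exact h3 i x w hx
  · have : {u : ℝ | ((0 : ℝ), u) ∈ badSet P Q} = ⋃ i, {u : ℝ | Bad (P i) (Q i) (0, u)} := by
      ext u; simp [badSet]
    rw [this]
    exact Set.finite_iUnion h4

theorem badSet_tr (P Q : ι → P2) (u : ℝ) (z : ℝ × ℝ) :
    z ∈ badSet (fun i => tr u (P i)) (fun i => tr u (Q i)) ↔ (z.1, z.2 + u) ∈ badSet P Q := by
  simp only [badSet, mem_ofPred_eq, Bad, ev_tr]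

theorem cmap_tr (P Q : ι → P2) (u : ℝ) (z : ℝ × ℝ) :
    cmap (fun i => tr u (P i)) (fun i => tr u (Q i)) z = cmap P Q (z.1, z.2 + u) := by
  funext i
  simp only [cmap, fv, ev_tr]

end Pool.Agent.Helper77.Graphoid
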