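import Pool.Agent.Helper77.Graphoid.Blow1

/-!
The blow-up induction: triviality of the monodromy around an indeterminacy point.
-/

open MvPolynomial Topology Filter Set

namespace Pool.Agent.Helper77.Graphoid

variable {ι : Type*}

/-- the closed square of radius `ε` around `w` -/
def box (w : ℝ × ℝ) (ε : ℝ) : Set (ℝ × ℝ) :=
  Icc (w.1 - ε) (w.1 + ε) ×ˢ Icc (w.2 - ε) (w.2 + ε)

theorem box_mem_nhds (w : ℝ × ℝ) {ε : ℝ} (hε : 0 < ε) : box w ε ∈ 𝓝 w := by
  have h1 : Icc (w.1 - ε) (w.1 + ε) ∈ 𝓝 w.1 := Icc_mem_nhds (by linarith) (by linarith)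
  have h2 : Icc (w.2 - ε) (w.2 + ε) ∈ 𝓝 w.2 := Icc_mem_nhds (by linarith) (by linarith)
  have := prod_mem_nhds h1 h2
  exact this

theorem exists_box_subset {w : ℝ × ℝ} {U : Set (ℝ × ℝ)} (hU : U ∈ 𝓝 w) :
    ∃ ε > 0, box w ε ⊆ U := by
  obtain ⟨δ, hδ, h⟩ := Metric.mem_nhds_iff.mp hU
  refine ⟨δ / 2, by linarith, ?_⟩
  rintro ⟨x, y⟩ ⟨hx, hy⟩
  apply h
  simp only [mem_Icc] at hx hy
  rw [Metric.mem_ball, Prod.dist_eq, Real.dist_eq, Real.dist_eq]
  simp only
  apply max_lt <;> rw [abs_lt] <;> constructor <;> linarith [hx.1, hx.2, hy.1, hy.2]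

theorem box_mono (w : ℝ × ℝ) {ε δ : ℝ} (h : ε ≤ δ) : box w ε ⊆ box w δ := by
  rintro ⟨x, y⟩ ⟨hx, hy⟩
  simp only [mem_Icc] at hx hy
  exact ⟨⟨by linarith [hx.1], by linarith [hx.2]⟩, ⟨by linarith [hy.1], by linarith [hy.2]⟩⟩

/-- the conclusion of the blow-up induction at the point `w` -/
def Good (τ : (ι → OnePoint ℝ) → (ι → OnePoint ℝ) → ZMod 2) (p q : ι → P2) (w : ℝ × ℝ) : Prop :=
  ∃ ε > 0, (∀ z ∈ box w ε, z ∈ badSet p q → z = w) ∧
    ∃ h, IsPrim τ (cmap p q) (box w ε \ badSet p q) h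

theorem isolated_badSet [Finite ι] {p q : ι → P2} (hfin : ∀ i, FinCo (p i) (q i)) :
    ∀ᶠ z in 𝓝 ((0 : ℝ), (0 : ℝ)), z ∈ badSet p q → z = (0, 0) := by
  have h : ∀ᶠ z in 𝓝 ((0 : ℝ), (0 : ℝ)), ∀ i, Bad (p i) (q i) z → z = (0, 0) := by
    rw [eventually_all]
    intro i
    exact (hfin i).isolated
  filter_upwards [h] with z hz ⟨i, hi⟩
  exact hz i hi

/-- Strip in a chart of the blow-up. -/
theorem chart_strip [Fintype ι] {τ : (ι → OnePoint ℝ) → (ι → OnePoint ℝ) → ZMod 2}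
    {C : Set (ι → OnePoint ℝ)} (hC : IsClosed C) {n : ℕ}
    (IH : ∀ m < n, ∀ p q : ι → P2, (∀ i, FinCo (p i) (q i)) → ∑ i, colen (p i) (q i) = m →
      (∀ᶠ z in 𝓝 ((0 : ℝ), (0 : ℝ)), z ∉ badSet p q → cmap p q z ∈ C) → Good τ p q (0, 0))
    {p q : ι → P2} (hn : ∑ i, colen (p i) (q i) = n)
    (hmem : ∀ᶠ z in 𝓝 ((0 : ℝ), (0 : ℝ)), z ∉ badSet p q → cmap p q z ∈ C)
    {P Q : ι → P2}
    (hPQ : ∀ u, (∀ i, FinCo (tr u (P i)) (tr u (Q i))) ∧
        ∑ i, colen (tr u (P i)) (tr u (Q i)) < ∑ i, colen (p i) (q i))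
    (hbad : ∀ x w : ℝ, x ≠ 0 → ((x, w) ∈ badSet P Q ↔ (x, x * w) ∈ badSet p q))
    (hval : ∀ x w : ℝ, x ≠ 0 → cmap P Q (x, w) = cmap p q (x, x * w)) {m : ℝ} (hm : 0 < m) :
    ∃ r > 0, ∃ H, IsPrim τ (cmap P Q) ((Icc (0 - r) (0 + r) ×ˢ Icc (-m) m) \ badSet P Q) H := by
  refine strip τ (cmap P Q) (badSet P Q) (isClosed_badSet P Q) 0 (by linarith) ?_
  intro u _
  have hgood : Good τ (fun i => tr u (P i)) (fun i => tr u (Q i)) (0, 0) := by
    refine IH _ ?_ _ _ (hPQ u).1 rfl ?_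
    · rw [← hn]; exact (hPQ u).2
    · -- membership in C
      have hcont : ContinuousAt (fun z : ℝ × ℝ => (z.1, z.1 * (z.2 + u))) (0, 0) := by fun_prop
      have h1 : ∀ᶠ z in 𝓝 ((0 : ℝ), (0 : ℝ)), (z.1, z.1 * (z.2 + u)) ∉ badSet p q →
          cmap p q (z.1, z.1 * (z.2 + u)) ∈ C := by
        have : Tendsto (fun z : ℝ × ℝ => (z.1, z.1 * (z.2 + u))) (𝓝 (0, 0)) (𝓝 (0, 0)) := by
          have := hcont.tendsto
          simpa using this
        exact this.eventually hmem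
      have h2 := eventually_eventually_nhds.mpr h1
      filter_upwards [h2] with z hz hzb
      rw [badSet_tr] at hzb
      rw [cmap_tr]
      by_cases hz1 : z.1 = 0
      · -- limit argument
        set z' : ℝ × ℝ := (z.1, z.2 + u) with hz'
        have hcz : ContinuousAt (cmap P Q) z' := continuousAt_cmap hzb
        have hpath : Tendsto (fun x : ℝ => (x, z.2 + u)) (𝓝[≠] (0 : ℝ)) (𝓝 z') := by
          have : Tendsto (fun x : ℝ => (x, z.2 + u)) (𝓝 (0 : ℝ)) (𝓝 z') := by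
            have hc : ContinuousAt (fun x : ℝ => (x, z.2 + u)) 0 := by fun_prop
            have := hc.tendsto
            rw [hz', hz1]; exact this
          exact this.mono_left nhdsWithin_le_nhds
        have hpath2 : Tendsto (fun x : ℝ => (x, z.2)) (𝓝[≠] (0 : ℝ)) (𝓝 z) := by
          have : Tendsto (fun x : ℝ => (x, z.2)) (𝓝 (0 : ℝ)) (𝓝 z) := by
            have hc : ContinuousAt (fun x : ℝ => (x, z.2)) 0 := by fun_prop
            have h3 := hc.tendsto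
            have h4 : z = (0, z.2) := Prod.ext hz1 rfl
            rw [h4]; exact h3
          exact this.mono_left nhdsWithin_le_nhds
        refine hC.mem_of_tendsto (hcz.tendsto.comp hpath) ?_
        have e1 := hpath2.eventually hz
        have e2 : ∀ᶠ x : ℝ in 𝓝[≠] (0 : ℝ), (x, z.2 + u) ∉ badSet P Q :=
          hpath.eventually ((isClosed_badSet P Q).isOpen_compl.mem_nhds hzb)
        filter_upwards [e1, e2, self_mem_nhdsWithin] with x h5 h6 h7
        have hx : x ≠ 0 := h7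
        simp only [Function.comp]
        rw [hval x _ hx]
        apply h5
        rw [← hbad x _ hx]
        exact h6
      · have h3 := hz.self_of_nhds
        rw [hbad _ _ hz1] at hzb
        rw [hval _ _ hz1]
        exact h3 hzb
  obtain ⟨ε, hε, hiso, h, hh⟩ := hgood
  refine ⟨ε, hε, ?_, ?_⟩
  · rintro ⟨x, w⟩ ⟨hx, hw⟩ hb
    have h1 : (x, w - u) ∈ box (0, 0) ε := by
      simp only [mem_Icc] at hx hw
      refine ⟨hx, ?_⟩
      simp only [mem_Icc]
      constructor <;> linarith [hw.1, hw.2]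
    have h2 := hiso (x, w - u) h1 (by rw [badSet_tr]; simpa using hb)
    have h3 := congrArg Prod.fst h2
    have h4 := congrArg Prod.snd h2
    simp only at h3 h4
    ext
    · exact h3
    · simp only; linarith
  · refine ⟨fun z => h (z.1, z.2 - u), ?_⟩
    have h1 : IsPrim τ (fun z : ℝ × ℝ => cmap (fun i => tr u (P i)) (fun i => tr u (Q i))
        (z.1, z.2 - u)) ((Icc (0 - ε) (0 + ε) ×ˢ Icc (u - ε) (u + ε)) \ badSet P Q)
        (fun z => h (z.1, z.2 - u)) := by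
      refine hh.comp (φ := fun z : ℝ × ℝ => (z.1, z.2 - u)) (by fun_prop) ?_
      rintro ⟨x, w⟩ ⟨⟨hx, hw⟩, hb⟩
      simp only [mem_Icc] at hx hw
      refine ⟨⟨hx, ?_⟩, ?_⟩
      · simp only [mem_Icc]; constructor <;> linarith [hw.1, hw.2]
      · rw [badSet_tr]; simpa using hb
    refine h1.congr_map ?_
    rintro ⟨x, w⟩ _
    rw [cmap_tr]; simp

end Pool.Agent.Helper77.Graphoid
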