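import Pool.Agent.Helper77.Graphoid.Blow2

/-!
The blow-up induction: gluing the two charts.
-/

open MvPolynomial Topology Filter Set

namespace Pool.Agent.Helper77.Graphoid

variable {ι : Type*}

/-- The sum of the two primitives is constant along a common segment. -/
theorem seg_const {τ : (ι → OnePoint ℝ) → (ι → OnePoint ℝ) → ZMod 2}
    {p q P Q Ps Qs : ι → P2}
    (hval : ∀ x w : ℝ, x ≠ 0 → cmap P Q (x, w) = cmap p q (x, x * w))
    (hvals : ∀ x w : ℝ, x ≠ 0 → cmap Ps Qs (x, w) = cmap p q (x * w, x))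
    {H1 H2 : ℝ × ℝ → ZMod 2} {D1 D2 : Set (ℝ × ℝ)}
    (hH1 : IsPrim τ (cmap P Q) D1 H1) (hH2 : IsPrim τ (cmap Ps Qs) D2 H2)
    {σ ρ : ℝ} (hσ : σ ≠ 0) (hρ : 0 < ρ)
    (hs1 : ((0 : ℝ), σ) ∉ badSet P Q) (hs2 : ((0 : ℝ), σ⁻¹) ∉ badSet Ps Qs)
    (hm1 : ∀ t ∈ Icc (-ρ) ρ, (t, σ) ∈ D1) (hm2 : ∀ t ∈ Icc (-ρ) ρ, (σ * t, σ⁻¹) ∈ D2) :
    ∀ t ∈ Icc (-ρ) ρ, H1 (t, σ) + H2 (σ * t, σ⁻¹) = H1 (0, σ) + H2 (0, σ⁻¹) := by
  intro t ht
  have h1 : IsPrim τ (fun t : ℝ => cmap P Q (t, σ)) (Icc (-ρ) ρ) (fun t => H1 (t, σ)) :=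
    hH1.comp (φ := fun t : ℝ => (t, σ)) (by fun_prop) hm1
  have h2 : IsPrim τ (fun t : ℝ => cmap Ps Qs (σ * t, σ⁻¹)) (Icc (-ρ) ρ)
      (fun t => H2 (σ * t, σ⁻¹)) :=
    hH2.comp (φ := fun t : ℝ => (σ * t, σ⁻¹)) (by fun_prop) hm2
  have hne : ∀ t : ℝ, t ≠ 0 → cmap P Q (t, σ) = cmap Ps Qs (σ * t, σ⁻¹) := by
    intro t ht
    rw [hval t σ ht, hvals _ _ (mul_ne_zero hσ ht)]
    congr 2
    · field_simp
    · ring
  have h0 : cmap P Q (0, σ) = cmap Ps Qs (σ * 0, σ⁻¹) := by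
    have c1 : Tendsto (fun t : ℝ => cmap P Q (t, σ)) (𝓝[≠] 0) (𝓝 (cmap P Q (0, σ))) := by
      have hc : ContinuousAt (fun t : ℝ => (t, σ)) 0 := by fun_prop
      have := (ContinuousAt.comp (f := fun t : ℝ => (t, σ)) (g := cmap P Q)
        (continuousAt_cmap hs1) hc).tendsto
      exact this.mono_left nhdsWithin_le_nhds
    have c2 : Tendsto (fun t : ℝ => cmap Ps Qs (σ * t, σ⁻¹)) (𝓝[≠] 0)
        (𝓝 (cmap Ps Qs (σ * 0, σ⁻¹))) := by
      have hc : ContinuousAt (fun t : ℝ => (σ * t, σ⁻¹)) 0 := by fun_prop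
      have := (ContinuousAt.comp (f := fun t : ℝ => (σ * t, σ⁻¹)) (g := cmap Ps Qs)
        (continuousAt_cmap (by simpa using hs2)) hc).tendsto
      exact this.mono_left nhdsWithin_le_nhds
    refine tendsto_nhds_unique c1 (c2.congr' ?_)
    filter_upwards [self_mem_nhdsWithin] with t ht
    exact (hne t ht).symm
  have h2' : IsPrim τ (fun t : ℝ => cmap P Q (t, σ)) (Icc (-ρ) ρ)
      (fun t => H2 (σ * t, σ⁻¹)) := by
    refine h2.congr_map ?_
    intro t _
    by_cases ht : t = 0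
    · rw [ht]; exact h0
    · exact hne t ht
  have := IsPrim.sub_const isPreconnected_Icc h1 h2' ht (b := 0) ⟨by linarith, by linarith⟩
  simpa using this

theorem blow_main [Fintype ι] {τ : (ι → OnePoint ℝ) → (ι → OnePoint ℝ) → ZMod 2}
    {C : Set (ι → OnePoint ℝ)} (hC : IsClosed C) (hτ : LocCocycle τ C) (n : ℕ) :
    ∀ p q : ι → P2, (∀ i, FinCo (p i) (q i)) → ∑ i, colen (p i) (q i) = n →
      (∀ᶠ z in 𝓝 ((0 : ℝ), (0 : ℝ)), z ∉ badSet p q → cmap p q z ∈ C) →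
      Good τ p q (0, 0) := by
  induction n using Nat.strong_induction_on with
  | _ n IH =>
  intro p q hfin hn hmem
  by_cases h0 : ((0 : ℝ), (0 : ℝ)) ∈ badSet p q
  swap
  · -- the regular case
    have hc := continuousAt_cmap h0
    obtain ⟨U, hU, hprim⟩ := exists_local_prim (D := (badSet p q)ᶜ) hτ hc.continuousWithinAt
      (hmem.self_of_nhds h0) (eventually_nhdsWithin_iff.mpr hmem)
    have hopen : (badSet p q)ᶜ ∈ 𝓝 ((0 : ℝ), (0 : ℝ)) :=
      (isClosed_badSet p q).isOpen_compl.mem_nhds h0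
    obtain ⟨ε, hε, hb⟩ := exists_box_subset (inter_mem hU hopen)
    refine ⟨ε, hε, fun z hz hzb => absurd hzb (hb hz).2, _, hprim.mono ?_⟩
    intro z hz
    exact ⟨hz.2, (hb hz.1).1⟩
  -- the blow-up
  obtain ⟨P, Q, hPQ, hbad, hval, hfinB⟩ := exists_chart p q hfin h0
  have h0s : ((0 : ℝ), (0 : ℝ)) ∈ badSet (fun i => sw (p i)) (fun i => sw (q i)) := by
    rw [badSet_sw]; exact h0
  have hfins : ∀ i, FinCo (sw (p i)) (sw (q i)) := fun i => finCo_equiv sw ev0_sw (hfin i)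
  obtain ⟨Ps, Qs, hPQs, hbads, hvals, hfinBs⟩ := exists_chart _ _ hfins h0s
  have hns : ∑ i, colen (sw (p i)) (sw (q i)) = n := by
    rw [← hn]
    exact Finset.sum_congr rfl (fun i _ => colen_equiv sw ev0_sw (p i) (q i))
  have hmems : ∀ᶠ z in 𝓝 ((0 : ℝ), (0 : ℝ)), z ∉ badSet (fun i => sw (p i)) (fun i => sw (q i)) →
      cmap (fun i => sw (p i)) (fun i => sw (q i)) z ∈ C := by
    have : Tendsto (fun z : ℝ × ℝ => (z.2, z.1)) (𝓝 ((0 : ℝ), (0 : ℝ))) (𝓝 ((0 : ℝ), (0 : ℝ))) := by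
      have hc : ContinuousAt (fun z : ℝ × ℝ => (z.2, z.1)) ((0 : ℝ), (0 : ℝ)) := by fun_prop
      exact hc.tendsto
    filter_upwards [this.eventually hmem] with z hz hzb
    rw [badSet_sw] at hzb
    rw [cmap_sw]
    exact hz hzb
  have hvals' : ∀ x w : ℝ, x ≠ 0 → cmap Ps Qs (x, w) = cmap p q (x * w, x) := by
    intro x w hx
    rw [hvals x w hx, cmap_sw]
  have hbads' : ∀ x w : ℝ, x ≠ 0 → ((x, w) ∈ badSet Ps Qs ↔ (x * w, x) ∈ badSet p q) := by
    intro x w hx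
    rw [hbads x w hx, badSet_sw]
  -- choice of the slope
  obtain ⟨m, hmI, hmF⟩ : ∃ m ∈ Ioo (1 : ℝ) 2, m ∉ ({u : ℝ | ((0 : ℝ), u) ∈ badSet P Q} ∪
      (fun u => -u) '' {u : ℝ | ((0 : ℝ), u) ∈ badSet P Q} ∪
      (fun u => u⁻¹) '' {u : ℝ | ((0 : ℝ), u) ∈ badSet Ps Qs} ∪
      (fun u => (-u)⁻¹) '' {u : ℝ | ((0 : ℝ), u) ∈ badSet Ps Qs}) := by
    apply (Ioo_infinite (by norm_num : (1 : ℝ) < 2)).exists_notMem_finite
    exact ((hfinB.union (hfinB.image _)).union (hfinBs.image _)).union (hfinBs.image _)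
  have hm0 : 0 < m := by linarith [hmI.1]
  have hmne : m ≠ 0 := hm0.ne'
  simp only [mem_union, not_or] at hmF
  obtain ⟨⟨⟨hm1, hm2⟩, hm3⟩, hm4⟩ := hmF
  have g1 : ((0 : ℝ), m) ∉ badSet P Q := hm1
  have g2 : ((0 : ℝ), -m) ∉ badSet P Q := fun h => hm2 ⟨-m, h, by simp⟩
  have g3 : ((0 : ℝ), m⁻¹) ∉ badSet Ps Qs := fun h => hm3 ⟨m⁻¹, h, by simp⟩
  have g4 : ((0 : ℝ), (-m)⁻¹) ∉ badSet Ps Qs := fun h => hm4 ⟨(-m)⁻¹, h, by simp [inv_neg]⟩
  -- the two strips
  obtain ⟨r1, hr1, H1, hH1⟩ := chart_strip hC IH hn hmem hPQ hbad hval hm0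
  obtain ⟨r2, hr2, H2, hH2⟩ := chart_strip hC IH hns hmems hPQs hbads hvals
    (inv_pos.mpr hm0)
  obtain ⟨ε0, hε0, hiso⟩ := exists_box_subset (isolated_badSet hfin)
  -- the radius
  set ρ := (min (min r1 r2) ε0) / 2 with hρdef
  have hmin : 0 < min (min r1 r2) ε0 := lt_min (lt_min hr1 hr2) hε0
  have hρ : 0 < ρ := by rw [hρdef]; linarith
  have hρ1 : 2 * ρ ≤ r1 := by
    rw [hρdef]; linarith [(min_le_left (min r1 r2) ε0).trans (min_le_left r1 r2)]
  have hρ2 : 2 * ρ ≤ r2 := by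
    rw [hρdef]; linarith [(min_le_left (min r1 r2) ε0).trans (min_le_right r1 r2)]
  have hρ3 : 2 * ρ ≤ ε0 := by
    rw [hρdef]; linarith [(min_le_right (min r1 r2) ε0)]
  have hisoρ : ∀ x y : ℝ, |x| ≤ 2 * ρ → |y| ≤ 2 * ρ → (x, y) ∈ badSet p q → x = 0 ∧ y = 0 := by
    intro x y hx hy hb
    rw [abs_le] at hx hy
    have h1 : (x, y) ∈ box ((0 : ℝ), (0 : ℝ)) ε0 := by
      refine ⟨⟨?_, ?_⟩, ⟨?_, ?_⟩⟩ <;> simp only <;> linarith [hx.1, hx.2, hy.1, hy.2]
    have h2 := hiso h1 hb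
    exact ⟨congrArg Prod.fst h2, congrArg Prod.snd h2⟩
  -- segments
  have hseg : ∀ σ : ℝ, (σ = m ∨ σ = -m) → ((0 : ℝ), σ) ∉ badSet P Q →
      ((0 : ℝ), σ⁻¹) ∉ badSet Ps Qs →
      ∀ t ∈ Icc (-ρ) ρ, H1 (t, σ) + H2 (σ * t, σ⁻¹) = H1 (0, σ) + H2 (0, σ⁻¹) := by
    intro σ hσ hs1 hs2
    have hσne : σ ≠ 0 := by
      rcases hσ with h | h
      · rw [h]; exact hmne
      · rw [h]; exact neg_ne_zero.mpr hmne
    have hσabs : |σ| = m := by
      rcases hσ with h | h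
      · rw [h, abs_of_pos hm0]
      · rw [h, abs_neg, abs_of_pos hm0]
    have hσI : σ ∈ Icc (-m) m := by
      rw [mem_Icc, ← abs_le, hσabs]
    have hσinvabs : |σ⁻¹| = m⁻¹ := by rw [abs_inv, hσabs]
    have hσinvI : σ⁻¹ ∈ Icc (-m⁻¹) m⁻¹ := by
      rw [mem_Icc, ← abs_le, hσinvabs]
    have hst : ∀ t ∈ Icc (-ρ) ρ, |t| ≤ ρ := fun t ht => abs_le.mpr ht
    have hst2 : ∀ t ∈ Icc (-ρ) ρ, |σ * t| ≤ 2 * ρ := by
      intro t ht
      rw [abs_mul, hσabs]
      have := hst t ht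
      nlinarith [hmI.1, hmI.2, abs_nonneg t]
    refine seg_const hval hvals' hH1 hH2 hσne hρ hs1 hs2 ?_ ?_
    · intro t ht
      have ht' := hst t ht
      refine ⟨⟨?_, hσI⟩, ?_⟩
      · rw [abs_le] at ht'
        constructor <;> simp only <;> linarith [ht'.1, ht'.2]
      · by_cases ht0 : t = 0
        · rw [ht0]; exact hs1
        · rw [hbad t σ ht0]
          intro hb
          have := hisoρ t (t * σ) (by linarith) (by rw [mul_comm]; exact hst2 t ht) hb
          exact ht0 this.1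
    · intro t ht
      have ht' := hst t ht
      refine ⟨⟨?_, hσinvI⟩, ?_⟩
      · have := hst2 t ht
        rw [abs_le] at this
        constructor <;> simp only <;> linarith [this.1, this.2]
      · by_cases ht0 : t = 0
        · rw [ht0, mul_zero]; exact hs2
        · have hne : σ * t ≠ 0 := mul_ne_zero hσne ht0
          rw [hbads' _ _ hne]
          intro hb
          have he : σ * t * σ⁻¹ = t := by field_simp
          rw [he] at hb
          have := hisoρ t (σ * t) (by linarith) (hst2 t ht) hb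
          exact ht0 this.1
  set kp := H1 (0, m) + H2 (0, m⁻¹) with hkp
  set kn := H1 (0, -m) + H2 (0, (-m)⁻¹) with hkn
  have hsegp := hseg m (Or.inl rfl) g1 g3
  have hsegn := hseg (-m) (Or.inr rfl) g2 g4
  rw [← hkp] at hsegp
  rw [← hkn] at hsegn
  have z2 : ∀ a b k : ZMod 2, a + b = k → a = b + k := by decide
  have z2' : ∀ a b k l : ZMod 2, a + b = k → a + (l + k) = b + l := by decide
  have z2'' : ∀ a b k l : ZMod 2, a + b = k → a + (k + l) = b + l := by decide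
  -- the glued function
  let hfun : ℝ × ℝ → ZMod 2 := fun z =>
    if |z.2| ≤ m * |z.1| then H1 (z.1, z.2 / z.1) + (if 0 < z.1 then 0 else kp + kn)
    else H2 (z.2, z.1 / z.2) + (if 0 < z.2 then kp else kn)
  set D := box ((0 : ℝ), (0 : ℝ)) ρ \ badSet p q with hD
  have hDbd : ∀ z ∈ D, |z.1| ≤ ρ ∧ |z.2| ≤ ρ := by
    rintro ⟨x, y⟩ ⟨⟨hx, hy⟩, _⟩
    simp only [mem_Icc, zero_sub, zero_add] at hx hy
    exact ⟨abs_le.mpr hx, abs_le.mpr hy⟩
  have hDne : ∀ z ∈ D, ¬ (z.1 = 0 ∧ z.2 = 0) := by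
    rintro ⟨x, y⟩ ⟨_, hb⟩ ⟨hx, hy⟩
    simp only at hx hy
    subst hx; subst hy
    exact hb h0
  -- primitive in the horizontal sectors
  have hhor : IsPrim τ (cmap p q) (D ∩ {z | |z.2| ≤ m * |z.1|}) (fun z => H1 (z.1, z.2 / z.1)) := by
    have hx0 : ∀ z ∈ D ∩ {z | |z.2| ≤ m * |z.1|}, z.1 ≠ 0 := by
      rintro z ⟨hz, hz'⟩ h
      have h3 : |z.2| ≤ m * |z.1| := hz'
      rw [h, abs_zero, mul_zero] at h3
      exact hDne z hz ⟨h, abs_eq_zero.mp (le_antisymm h3 (abs_nonneg _))⟩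
    have h1 := hH1.comp (φ := fun z : ℝ × ℝ => (z.1, z.2 / z.1))
      (D' := D ∩ {z | |z.2| ≤ m * |z.1|}) ?_ ?_
    · refine h1.congr_map ?_
      intro z hz
      have hz0 := hx0 z hz
      rw [hval _ _ hz0]
      congr 1
      ext
      · rfl
      · simp only; field_simp
    · intro z hz
      have hz0 := hx0 z hz
      exact (continuousAt_fst.prodMk (continuousAt_snd.div continuousAt_fst hz0)).continuousWithinAt
    · intro z hz
      have hz0 := hx0 z hz
      have hzb := hDbd z hz.1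
      have h3 : |z.2| ≤ m * |z.1| := hz.2
      refine ⟨⟨?_, ?_⟩, ?_⟩
      · have := abs_le.mp hzb.1
        constructor <;> simp only <;> linarith [this.1, this.2]
      · rw [mem_Icc, ← abs_le, abs_div, div_le_iff₀ (abs_pos.mpr hz0)]
        exact h3
      · rw [hbad _ _ hz0]
        have : z.1 * (z.2 / z.1) = z.2 := by field_simp
        rw [this]
        exact hz.1.2
  -- primitive in the vertical sectors
  have hver : IsPrim τ (cmap p q) (D ∩ {z | m * |z.1| ≤ |z.2|}) (fun z => H2 (z.2, z.1 / z.2)) := by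
    have hx0 : ∀ z ∈ D ∩ {z | m * |z.1| ≤ |z.2|}, z.2 ≠ 0 := by
      rintro z ⟨hz, hz'⟩ h
      have h3 : m * |z.1| ≤ |z.2| := hz'
      rw [h, abs_zero] at h3
      have h4 : |z.1| ≤ 0 := by
        by_contra h5
        push Not at h5
        have := mul_pos hm0 h5
        linarith
      exact hDne z hz ⟨abs_eq_zero.mp (le_antisymm h4 (abs_nonneg _)), h⟩
    have h1 := hH2.comp (φ := fun z : ℝ × ℝ => (z.2, z.1 / z.2))
      (D' := D ∩ {z | m * |z.1| ≤ |z.2|}) ?_ ?_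
    · refine h1.congr_map ?_
      intro z hz
      have hz0 := hx0 z hz
      rw [hvals' _ _ hz0]
      congr 1
      ext
      · simp only; field_simp
      · rfl
    · intro z hz
      have hz0 := hx0 z hz
      exact (continuousAt_snd.prodMk (continuousAt_fst.div continuousAt_snd hz0)).continuousWithinAt
    · intro z hz
      have hz0 := hx0 z hz
      have hzb := hDbd z hz.1
      have h3 : m * |z.1| ≤ |z.2| := hz.2
      refine ⟨⟨?_, ?_⟩, ?_⟩
      · have := abs_le.mp hzb.2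
        constructor <;> simp only <;> linarith [this.1, this.2]
      · rw [mem_Icc, ← abs_le, abs_div, div_le_iff₀ (abs_pos.mpr hz0)]
        rw [inv_mul_eq_div, le_div_iff₀ hm0, mul_comm]
        exact h3
      · rw [hbads' _ _ hz0]
        have : z.2 * (z.1 / z.2) = z.1 := by field_simp
        rw [this]
        exact hz.1.2
  -- closed sectors
  have cR : IsClosed {z : ℝ × ℝ | |z.2| ≤ m * z.1} := isClosed_le (by fun_prop) (by fun_prop)
  have cL : IsClosed {z : ℝ × ℝ | |z.2| ≤ -(m * z.1)} := isClosed_le (by fun_prop) (by fun_prop)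
  have cT : IsClosed {z : ℝ × ℝ | m * |z.1| ≤ z.2} := isClosed_le (by fun_prop) (by fun_prop)
  have cB : IsClosed {z : ℝ × ℝ | m * |z.1| ≤ -z.2} := isClosed_le (by fun_prop) (by fun_prop)
  have pR : IsPrim τ (cmap p q) (D ∩ {z : ℝ × ℝ | |z.2| ≤ m * z.1}) hfun := by
    have hsub : D ∩ {z : ℝ × ℝ | |z.2| ≤ m * z.1} ⊆ D ∩ {z | |z.2| ≤ m * |z.1|} := by
      rintro z ⟨hz, hz'⟩
      have h3 : |z.2| ≤ m * z.1 := hz'
      exact ⟨hz, h3.trans (mul_le_mul_of_nonneg_left (le_abs_self _) hm0.le)⟩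
    refine (hhor.mono hsub).congr ?_
    intro z hz
    have h3 : |z.2| ≤ m * z.1 := hz.2
    have hpos : 0 < z.1 := by
      rcases lt_trichotomy z.1 0 with h | h | h
      · have := mul_neg_of_pos_of_neg hm0 h
        linarith [abs_nonneg z.2]
      · rw [h, mul_zero] at h3
        exact absurd ⟨h, abs_eq_zero.mp (le_antisymm h3 (abs_nonneg _))⟩ (hDne z hz.1)
      · exact h
    have h4 : |z.2| ≤ m * |z.1| := (hsub hz).2
    simp only [hfun, if_pos h4, if_pos hpos, add_zero]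
  have pL : IsPrim τ (cmap p q) (D ∩ {z : ℝ × ℝ | |z.2| ≤ -(m * z.1)}) hfun := by
    have hsub : D ∩ {z : ℝ × ℝ | |z.2| ≤ -(m * z.1)} ⊆ D ∩ {z | |z.2| ≤ m * |z.1|} := by
      rintro z ⟨hz, hz'⟩
      have h3 : |z.2| ≤ -(m * z.1) := hz'
      refine ⟨hz, h3.trans ?_⟩
      rw [← mul_neg]
      exact mul_le_mul_of_nonneg_left (neg_le_abs _) hm0.le
    refine ((hhor.mono hsub).add_const (kp + kn)).congr ?_
    intro z hz
    have h3 : |z.2| ≤ -(m * z.1) := hz.2
    have hneg : ¬ (0 < z.1) := by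
      intro h
      have := mul_pos hm0 h
      linarith [abs_nonneg z.2]
    have h4 : |z.2| ≤ m * |z.1| := (hsub hz).2
    simp only [hfun, if_pos h4, if_neg hneg]
  have hρabs : ∀ t : ℝ, |t| ≤ ρ → t ∈ Icc (-ρ) ρ := fun t ht => abs_le.mp ht
  have pT : IsPrim τ (cmap p q) (D ∩ {z : ℝ × ℝ | m * |z.1| ≤ z.2}) hfun := by
    have hsub : D ∩ {z : ℝ × ℝ | m * |z.1| ≤ z.2} ⊆ D ∩ {z | m * |z.1| ≤ |z.2|} := by
      rintro z ⟨hz, hz'⟩
      have h3 : m * |z.1| ≤ z.2 := hz'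
      exact ⟨hz, h3.trans (le_abs_self _)⟩
    refine ((hver.mono hsub).add_const kp).congr ?_
    intro z hz
    have h3 : m * |z.1| ≤ z.2 := hz.2
    have hypos : 0 < z.2 := by
      have h5 : 0 ≤ m * |z.1| := mul_nonneg hm0.le (abs_nonneg _)
      rcases lt_or_eq_of_le (h5.trans h3) with h | h
      · exact h
      · exfalso
        have h6 : m * |z.1| = 0 := by linarith
        have h7 : |z.1| = 0 := (mul_eq_zero.mp h6).resolve_left hmne
        exact hDne z hz.1 ⟨abs_eq_zero.mp h7, h.symm⟩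
    by_cases h4 : |z.2| ≤ m * |z.1|
    · have habs : |z.2| = z.2 := abs_of_pos hypos
      have heq : z.2 = m * |z.1| := by rw [habs] at h4; linarith
      by_cases hx : 0 < z.1
      · rw [abs_of_pos hx] at heq
        simp only [hfun, if_pos h4, if_pos hx, add_zero]
        have e1 : z.2 / z.1 = m := by rw [heq]; field_simp
        have e2 : z.1 / z.2 = m⁻¹ := by rw [heq]; field_simp
        rw [e1, e2, heq]
        exact z2 _ _ _ (hsegp z.1 (hρabs _ (hDbd z hz.1).1))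
      · have hx' : z.1 < 0 := by
          rcases lt_or_eq_of_le (not_lt.mp hx) with h | h
          · exact h
          · exfalso
            rw [h, abs_zero, mul_zero] at heq
            linarith
        rw [abs_of_neg hx'] at heq
        simp only [hfun, if_pos h4, if_neg hx]
        have hne : z.1 ≠ 0 := hx'.ne
        have e1 : z.2 / z.1 = -m := by rw [heq]; field_simp
        have e2 : z.1 / z.2 = (-m)⁻¹ := by rw [heq]; field_simp
        have e3 : z.2 = -m * z.1 := by rw [heq]; ring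
        rw [e1, e2, e3]
        exact z2' _ _ _ _ (hsegn z.1 (hρabs _ (hDbd z hz.1).1))
    · simp only [hfun, if_neg h4, if_pos hypos]
  have pB : IsPrim τ (cmap p q) (D ∩ {z : ℝ × ℝ | m * |z.1| ≤ -z.2}) hfun := by
    have hsub : D ∩ {z : ℝ × ℝ | m * |z.1| ≤ -z.2} ⊆ D ∩ {z | m * |z.1| ≤ |z.2|} := by
      rintro z ⟨hz, hz'⟩
      have h3 : m * |z.1| ≤ -z.2 := hz'
      exact ⟨hz, h3.trans (neg_le_abs _)⟩
    refine ((hver.mono hsub).add_const kn).congr ?_
    intro z hz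
    have h3 : m * |z.1| ≤ -z.2 := hz.2
    have hyneg : z.2 < 0 := by
      have h5 : 0 ≤ m * |z.1| := mul_nonneg hm0.le (abs_nonneg _)
      rcases lt_or_eq_of_le (h5.trans h3) with h | h
      · linarith
      · exfalso
        have h6 : m * |z.1| = 0 := by linarith
        have h7 : |z.1| = 0 := (mul_eq_zero.mp h6).resolve_left hmne
        exact hDne z hz.1 ⟨abs_eq_zero.mp h7, by linarith⟩
    have hy' : ¬ (0 < z.2) := not_lt.mpr hyneg.le
    by_cases h4 : |z.2| ≤ m * |z.1|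
    · have habs : |z.2| = -z.2 := abs_of_neg hyneg
      have heq : z.2 = -(m * |z.1|) := by rw [habs] at h4; linarith
      by_cases hx : 0 < z.1
      · rw [abs_of_pos hx] at heq
        simp only [hfun, if_pos h4, if_pos hx, add_zero]
        have e1 : z.2 / z.1 = -m := by rw [heq]; field_simp
        have e2 : z.1 / z.2 = (-m)⁻¹ := by rw [heq]; field_simp
        have e3 : z.2 = -m * z.1 := by rw [heq]; ring
        rw [e1, e2, e3]
        exact z2 _ _ _ (hsegn z.1 (hρabs _ (hDbd z hz.1).1))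
      · have hx' : z.1 < 0 := by
          rcases lt_or_eq_of_le (not_lt.mp hx) with h | h
          · exact h
          · exfalso
            rw [h, abs_zero, mul_zero] at heq
            linarith
        rw [abs_of_neg hx'] at heq
        simp only [hfun, if_pos h4, if_neg hx]
        have hne : z.1 ≠ 0 := hx'.ne
        have e3 : z.2 = m * z.1 := by rw [heq]; ring
        have e1 : z.2 / z.1 = m := by rw [e3]; field_simp
        have e2 : z.1 / z.2 = m⁻¹ := by rw [e3]; field_simp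
        rw [e1, e2, e3]
        exact z2'' _ _ _ _ (hsegp z.1 (hρabs _ (hDbd z hz.1).1))
    · simp only [hfun, if_neg h4, if_neg hy']
  refine ⟨ρ, hρ, ?_, hfun, ?_⟩
  · rintro ⟨x, y⟩ ⟨hx, hy⟩ hb
    simp only [mem_Icc, zero_sub, zero_add] at hx hy
    have := hisoρ x y (by linarith [abs_le.mpr hx]) (by linarith [abs_le.mpr hy]) hb
    ext
    · exact this.1
    · exact this.2
  · have pX : IsPrim τ (cmap p q) (D ∩ ({z : ℝ × ℝ | |z.2| ≤ m * z.1} ∪
        {z : ℝ × ℝ | |z.2| ≤ -(m * z.1)})) hfun := by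
      refine IsPrim.glue_same (pR.mono ?_) (pL.mono ?_) cR cL inter_subset_right
      · rintro z ⟨⟨h1, _⟩, h2⟩; exact ⟨h1, h2⟩
      · rintro z ⟨⟨h1, _⟩, h2⟩; exact ⟨h1, h2⟩
    have pY : IsPrim τ (cmap p q) (D ∩ ({z : ℝ × ℝ | m * |z.1| ≤ z.2} ∪
        {z : ℝ × ℝ | m * |z.1| ≤ -z.2})) hfun := by
      refine IsPrim.glue_same (pT.mono ?_) (pB.mono ?_) cT cB inter_subset_right
      · rintro z ⟨⟨h1, _⟩, h2⟩; exact ⟨h1, h2⟩
      · rintro z ⟨⟨h1, _⟩, h2⟩; exact ⟨h1, h2⟩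
    refine IsPrim.glue_same pX pY (cR.union cL) (cT.union cB) ?_
    intro z _
    rcases le_total (|z.2|) (m * |z.1|) with h | h
    · left
      rcases le_total 0 z.1 with h1 | h1
      · left; simpa [abs_of_nonneg h1] using h
      · right
        have : m * |z.1| = -(m * z.1) := by rw [abs_of_nonpos h1]; ring
        simp only [mem_ofPred_eq]; rw [← this]; exact h
    · right
      rcases le_total 0 z.2 with h1 | h1
      · left; simpa [abs_of_nonneg h1] using h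
      · right; simpa [abs_of_nonpos h1] using h

end Pool.Agent.Helper77.Graphoid
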