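import Pool.Agent.Helper77.Graphoid.LC

/-!
Compact subsets of a CW complex lie in compact locally contractible subsets.
-/

open Topology Set Filter Metric

namespace Pool.Agent.Helper77.Graphoid

variable {K : Type*} [TopologicalSpace K] [T2Space K] [CWComplex (univ : Set K)]

/-- finite subcomplexes, built by attaching one cell at a time -/
inductive FinSub (K : Type*) [TopologicalSpace K] [T2Space K] [CWComplex (univ : Set K)] :
    Set K → Prop
  | empty : FinSub K ∅
  | attach {S : Set K} {n : ℕ} (e : RelCWComplex.cell (univ : Set K) n) :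
      FinSub K S → RelCWComplex.cellFrontier n e ⊆ S →
      Disjoint (RelCWComplex.openCell n e) S → FinSub K (S ∪ RelCWComplex.openCell n e)

theorem FinSub.isCompact {S : Set K} (h : FinSub K S) : IsCompact S := by
  induction h with
  | empty => exact isCompact_empty
  | @attach S n e hS hfr hdis ih =>
    have : S ∪ RelCWComplex.openCell n e = S ∪ RelCWComplex.closedCell n e := by
      rw [← RelCWComplex.cellFrontier_union_openCell_eq_closedCell, ← union_assoc,
        union_eq_self_of_subset_right hfr]
    rw [this]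
    exact ih.union RelCWComplex.isCompact_closedCell

theorem FinSub.lc {S : Set K} (h : FinSub K S) : LC S := by
  induction h with
  | empty => intro x hx; exact absurd hx (notMem_empty x)
  | @attach S n e hS hfr hdis ih =>
    have h1 : RelCWComplex.openCell n e = RelCWComplex.map n e '' ball 0 1 := rfl
    rw [h1]
    refine LC.attach (Ψ := (RelCWComplex.map n e).symm) hS.isCompact ih
      (RelCWComplex.continuousOn n e) ?_ ?_ ?_ ?_
    · have h2 := RelCWComplex.continuousOn_symm n e
      have h3 : (RelCWComplex.map n e).target = RelCWComplex.map n e '' ball 0 1 := by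
        rw [← RelCWComplex.source_eq n e, PartialEquiv.image_source_eq_target]
      rwa [h3] at h2
    · intro y hy
      rw [← RelCWComplex.source_eq n e] at hy
      exact (RelCWComplex.map n e).left_inv hy
    · intro y hy
      exact hfr ⟨y, hy, rfl⟩
    · intro y hy hyS
      exact (disjoint_left.mp hdis) ⟨y, hy, rfl⟩ hyS

theorem FinSub.dichotomy {S : Set K} (h : FinSub K S) {n : ℕ}
    (e : RelCWComplex.cell (univ : Set K) n) :
    RelCWComplex.openCell n e ⊆ S ∨ Disjoint (RelCWComplex.openCell n e) S := by
  induction h with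
  | empty => right; exact disjoint_empty _
  | @attach S m e' hS hfr hdis ih =>
    rcases ih with ih | ih
    · left; exact ih.trans subset_union_left
    · by_cases he : (⟨n, e⟩ : Σ n, RelCWComplex.cell (univ : Set K) n) = ⟨m, e'⟩
      · left
        cases he
        exact subset_union_right
      · right
        rw [disjoint_union_right]
        exact ⟨ih, RelCWComplex.disjoint_openCell_of_ne he⟩

theorem FinSub.exists_finset {S : Set K} (hS : FinSub K S)
    (T : Finset (Σ n, RelCWComplex.cell (univ : Set K) n))
    (hT : ∀ x ∈ T, ∀ S : Set K, FinSub K S → ∃ S', FinSub K S' ∧ S ⊆ S' ∧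
      RelCWComplex.openCell x.1 x.2 ⊆ S') :
    ∃ S', FinSub K S' ∧ S ⊆ S' ∧ ∀ x ∈ T, RelCWComplex.openCell x.1 x.2 ⊆ S' := by
  classical
  induction T using Finset.induction_on with
  | empty => exact ⟨S, hS, subset_rfl, by simp⟩
  | insert a T ha ih =>
    obtain ⟨S1, h1, h2, h3⟩ := ih (fun x hx => hT x (Finset.mem_insert_of_mem hx))
    obtain ⟨S2, k1, k2, k3⟩ := hT a (Finset.mem_insert_self _ _) S1 h1
    refine ⟨S2, k1, h2.trans k2, ?_⟩
    intro x hx
    rcases Finset.mem_insert.mp hx with h | h
    · rw [h]; exact k3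
    · exact (h3 x h).trans k2

theorem FinSub.exists_cell (n : ℕ) : ∀ (e : RelCWComplex.cell (univ : Set K) n) (S : Set K),
    FinSub K S → ∃ S', FinSub K S' ∧ S ⊆ S' ∧ RelCWComplex.openCell n e ⊆ S' := by
  induction n using Nat.strong_induction_on with
  | _ n IH =>
  intro e S hS
  obtain ⟨I, hI⟩ := CWComplex.cellFrontier_subset_finite_openCell n e
  classical
  let T : Finset (Σ n, RelCWComplex.cell (univ : Set K) n) :=
    (Finset.range n).sigma (fun m => I m)
  obtain ⟨S1, h1, h2, h3⟩ := hS.exists_finset T (by
    rintro ⟨m, j⟩ hx S hS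
    have hm : m < n := by
      have := (Finset.mem_sigma.mp hx).1
      simpa using this
    exact IH m hm j S hS)
  have hfr : RelCWComplex.cellFrontier n e ⊆ S1 := by
    refine hI.trans ?_
    intro y hy
    simp only [mem_iUnion] at hy
    obtain ⟨m, hm, j, hj, hy⟩ := hy
    refine h3 ⟨m, j⟩ ?_ hy
    exact Finset.mem_sigma.mpr ⟨Finset.mem_range.mpr hm, hj⟩
  rcases h1.dichotomy e with h | h
  · exact ⟨S1, h1, h2, h⟩
  · exact ⟨_, FinSub.attach e h1 hfr h, h2.trans subset_union_left, subset_union_right⟩

theorem finite_cells_of_isCompact {C : Set K} (hC : IsCompact C) :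
    {x : Σ n, RelCWComplex.cell (univ : Set K) n |
      (C ∩ RelCWComplex.openCell x.1 x.2).Nonempty}.Finite := by
  set J := {x : Σ n, RelCWComplex.cell (univ : Set K) n |
      (C ∩ RelCWComplex.openCell x.1 x.2).Nonempty} with hJ
  choose f hf using fun x : J => x.2
  have hinj : Function.Injective f := by
    intro x y hxy
    by_contra hne
    have hne' : (x : Σ n, RelCWComplex.cell (univ : Set K) n) ≠ y := fun h => hne (Subtype.ext h)
    have hd : Disjoint (RelCWComplex.openCell x.1.1 x.1.2) (RelCWComplex.openCell y.1.1 y.1.2) :=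
      RelCWComplex.disjoint_openCell_of_ne hne'
    exact (disjoint_left.mp hd) (hf x).2 (by rw [hxy]; exact (hf y).2)
  -- each subset of the range is closed
  have hclosed : ∀ Q ⊆ range f, IsClosed Q := by
    intro Q hQ
    rw [CWComplex.closed (univ : Set K) Q (subset_univ _)]
    intro n e
    apply Set.Finite.isClosed
    obtain ⟨I, hI⟩ := CWComplex.cellFrontier_subset_finite_openCell n e
    classical
    let T : Finset (Σ n, RelCWComplex.cell (univ : Set K) n) :=
      insert ⟨n, e⟩ ((Finset.range n).sigma (fun m => I m))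
    have hsub : Q ∩ RelCWComplex.closedCell n e ⊆
        ⋃ x ∈ T, (range f ∩ RelCWComplex.openCell x.1 x.2) := by
      rintro y ⟨hyQ, hy⟩
      rw [← RelCWComplex.cellFrontier_union_openCell_eq_closedCell] at hy
      simp only [mem_iUnion]
      rcases hy with hy | hy
      · have := hI hy
        simp only [mem_iUnion] at this
        obtain ⟨m, hm, j, hj, hy'⟩ := this
        refine ⟨⟨m, j⟩, ?_, hQ hyQ, hy'⟩
        exact Finset.mem_insert_of_mem (Finset.mem_sigma.mpr ⟨Finset.mem_range.mpr hm, hj⟩)
      · exact ⟨⟨n, e⟩, Finset.mem_insert_self _ _, hQ hyQ, hy⟩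
    refine Set.Finite.subset ?_ hsub
    refine T.finite_toSet.biUnion (fun x _ => ?_)
    apply Set.Subsingleton.finite
    rintro y ⟨⟨a, rfl⟩, hy⟩ z ⟨⟨b, rfl⟩, hz⟩
    have ha : (a : Σ n, RelCWComplex.cell (univ : Set K) n) = x := by
      by_contra hne
      have hd : Disjoint (RelCWComplex.openCell a.1.1 a.1.2) (RelCWComplex.openCell x.1 x.2) :=
        RelCWComplex.disjoint_openCell_of_ne hne
      exact (disjoint_left.mp hd) (hf a).2 hy
    have hb : (b : Σ n, RelCWComplex.cell (univ : Set K) n) = x := by
      by_contra hne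
      have hd : Disjoint (RelCWComplex.openCell b.1.1 b.1.2) (RelCWComplex.openCell x.1 x.2) :=
        RelCWComplex.disjoint_openCell_of_ne hne
      exact (disjoint_left.mp hd) (hf b).2 hz
    have : a = b := Subtype.ext (ha.trans hb.symm)
    rw [this]
  have hrange : (range f).Finite := by
    have hcomp : IsCompact (range f) :=
      hC.of_isClosed_subset (hclosed _ subset_rfl) (by
        rintro y ⟨x, rfl⟩; exact (hf x).1)
    apply hcomp.finite
    rw [isDiscrete_iff_forall_mem_exists_isOpen]
    intro y hy
    refine ⟨(range f \ {y})ᶜ, (hclosed _ sdiff_subset).isOpen_compl, ?_⟩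
    ext z
    simp only [mem_inter_iff, mem_compl_iff, Set.mem_sdiff, mem_singleton_iff, not_and, not_not]
    constructor
    · rintro ⟨h1, h2⟩; exact h1 h2
    · rintro rfl; exact ⟨fun _ => rfl, hy⟩
  have : Finite J := by
    have : Finite (range f) := hrange
    exact Finite.of_injective (fun x => (⟨f x, x, rfl⟩ : range f)) (fun x y h => by
      apply hinj
      exact congrArg Subtype.val h)
  exact Set.toFinite J

/-- A compact subset of a CW complex lies in a compact locally contractible subset. -/
theorem exists_finSub {C : Set K} (hC : IsCompact C) : ∃ S, FinSub K S ∧ C ⊆ S := by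
  classical
  have hfin := finite_cells_of_isCompact hC
  obtain ⟨S, h1, _, h3⟩ := FinSub.empty (K := K).exists_finset hfin.toFinset
    (fun x _ S hS => FinSub.exists_cell x.1 x.2 S hS)
  refine ⟨S, h1, ?_⟩
  intro y hy
  have hy' : y ∈ (univ : Set K) := mem_univ y
  rw [← CWComplex.iUnion_openCell_eq_complex (C := (univ : Set K))] at hy'
  simp only [mem_iUnion] at hy'
  obtain ⟨n, e, hye⟩ := hy'
  exact h3 ⟨n, e⟩ (by simpa using ⟨y, hy, hye⟩) hye

theorem exists_lc_of_isCompact {C : Set K} (hC : IsCompact C) :
    ∃ S, IsCompact S ∧ LC S ∧ C ⊆ S := by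
  obtain ⟨S, h1, h2⟩ := exists_finSub hC
  exact ⟨S, h1.isCompact, h1.lc, h2⟩

end Pool.Agent.Helper77.Graphoid
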