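import Pool.Agent.Helper77.Graphoid.LC

/-!
A character of the fundamental group, extended to the fundamental groupoid, and its local
primitives on contractible open sets.
-/

open Topology Set Filter CategoryTheory

set_option linter.unusedSectionVars false

namespace Pool.Agent.Helper77.Graphoid

variable {K : Type*} [TopologicalSpace K] [PathConnectedSpace K] {k0 : K}

/-- a reference path class -/
noncomputable def rho (k0 a : K) : Path.Homotopic.Quotient k0 a :=
  Path.Homotopic.Quotient.mk (PathConnectedSpace.somePath k0 a)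

/-- the extension of the character `χ` to the fundamental groupoid -/
noncomputable def chiQ (χ : FundamentalGroup K k0 →* Multiplicative (ZMod 2)) {a b : K}
    (γ : Path.Homotopic.Quotient a b) : ZMod 2 :=
  Multiplicative.toAdd (χ (FundamentalGroup.fromPath (((rho k0 a).trans γ).trans (rho k0 b).symm)))

variable (χ : FundamentalGroup K k0 →* Multiplicative (ZMod 2))

theorem chiQ_trans {a b c : K} (γ : Path.Homotopic.Quotient a b) (δ : Path.Homotopic.Quotient b c) :
    chiQ χ (γ.trans δ) = chiQ χ γ + chiQ χ δ := by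
  have key : ((rho k0 a).trans (γ.trans δ)).trans (rho k0 c).symm =
      (((rho k0 a).trans γ).trans (rho k0 b).symm).trans
        (((rho k0 b).trans δ).trans (rho k0 c).symm) := by
    simp only [Path.Homotopic.Quotient.trans_assoc]
    congr 2
    rw [← Path.Homotopic.Quotient.trans_assoc, Path.Homotopic.Quotient.symm_trans,
      Path.Homotopic.Quotient.refl_trans]
  unfold chiQ
  rw [key]
  have h2 : FundamentalGroup.fromPath ((((rho k0 a).trans γ).trans (rho k0 b).symm).trans
        (((rho k0 b).trans δ).trans (rho k0 c).symm)) =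
      FundamentalGroup.fromPath (((rho k0 b).trans δ).trans (rho k0 c).symm) *
      FundamentalGroup.fromPath (((rho k0 a).trans γ).trans (rho k0 b).symm) := rfl
  rw [h2, map_mul, toAdd_mul, add_comm]

theorem chiQ_refl (a : K) : chiQ χ (Path.Homotopic.Quotient.refl a) = 0 := by
  have h := chiQ_trans χ (Path.Homotopic.Quotient.refl a) (Path.Homotopic.Quotient.refl a)
  rw [Path.Homotopic.Quotient.refl_trans] at h
  have h3 : ∀ t : ZMod 2, t = t + t → t = 0 := by decide
  exact h3 _ h

theorem chiQ_loop (γ : Path.Homotopic.Quotient k0 k0) :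
    chiQ χ γ = Multiplicative.toAdd (χ (FundamentalGroup.fromPath γ)) := by
  unfold chiQ
  have h2 : FundamentalGroup.fromPath (((rho k0 k0).trans γ).trans (rho k0 k0).symm) =
      FundamentalGroup.fromPath (rho k0 k0).symm *
      (FundamentalGroup.fromPath γ * FundamentalGroup.fromPath (rho k0 k0)) := rfl
  rw [h2, χ.map_mul, χ.map_mul, toAdd_mul, toAdd_mul]
  have h3 : Multiplicative.toAdd (χ (FundamentalGroup.fromPath (rho k0 k0).symm)) +
      Multiplicative.toAdd (χ (FundamentalGroup.fromPath (rho k0 k0))) = 0 := by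
    rw [← toAdd_mul, ← map_mul]
    have : FundamentalGroup.fromPath (rho k0 k0).symm * FundamentalGroup.fromPath (rho k0 k0) =
        FundamentalGroup.fromPath ((rho k0 k0).trans (rho k0 k0).symm) := rfl
    rw [this, Path.Homotopic.Quotient.trans_symm]
    have : FundamentalGroup.fromPath (Path.Homotopic.Quotient.refl k0) = 1 := rfl
    rw [this, map_one, toAdd_one]
  have h4 : ∀ a b c : ZMod 2, a + c = 0 → a + (b + c) = b := by decide
  exact h4 _ _ _ h3

/-- the value on a path -/
noncomputable def chiP {a b : K} (α : Path a b) : ZMod 2 :=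
  chiQ χ (Path.Homotopic.Quotient.mk α)

theorem chiP_congr {a b : K} {α β : Path a b} (h : α.Homotopic β) : chiP χ α = chiP χ β := by
  unfold chiP
  rw [Path.Homotopic.Quotient.eq.mpr h]

theorem chiP_trans {a b c : K} (α : Path a b) (β : Path b c) :
    chiP χ (α.trans β) = chiP χ α + chiP χ β := by
  unfold chiP
  rw [Path.Homotopic.Quotient.mk_trans, chiQ_trans]

theorem chiP_refl (a : K) : chiP χ (Path.refl a) = 0 := by
  unfold chiP
  rw [Path.Homotopic.Quotient.mk_refl, chiQ_refl]

theorem chiP_cast {a b a' b' : K} (α : Path a b) (ha : a' = a) (hb : b' = b) :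
    chiP χ (α.cast ha hb) = chiP χ α := by
  subst ha; subst hb; rfl

theorem chiP_const {a b : K} (α : Path a b) (x : K) (h : ∀ t, α t = x) : chiP χ α = 0 := by
  have ha : a = x := by rw [← α.source]; exact h 0
  have hb : b = x := by rw [← α.target]; exact h 1
  subst ha
  subst hb
  have : α = Path.refl _ := by
    ext t; simp [h t]
  rw [this, chiP_refl]

instance instContractibleUnitInterval : ContractibleSpace unitInterval :=
  (convex_Icc (0 : ℝ) 1).contractibleSpace ⟨0, by simp⟩

/-- a contraction of a relatively open subset of `S` inside the ambient space -/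
structure Contr (S : Set K) where
  /-- the open set -/
  O : Set K
  /-- it is open -/
  isOpen_O : IsOpen O
  /-- the centre -/
  x : K
  /-- the homotopy -/
  H : K × ℝ → K
  cont : ContinuousOn H ((O ∩ S) ×ˢ Icc (0 : ℝ) 1)
  h0 : ∀ y ∈ O ∩ S, H (y, 0) = y
  h1 : ∀ y ∈ O ∩ S, H (y, 1) = x

/-- the track of a point under a contraction -/
def Contr.path {S : Set K} (c : Contr S) (y : K) (hy : y ∈ c.O ∩ S) : Path y c.x where
  toFun t := c.H (y, t)
  continuous_toFun := by
    rw [← continuousOn_univ]
    refine c.cont.comp (f := fun t : unitInterval => (y, (t : ℝ))) (by fun_prop) ?_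
    intro t _
    exact ⟨hy, t.2⟩
  source' := by simpa using c.h0 y hy
  target' := by simpa using c.h1 y hy

open Classical in
/-- the local primitive -/
noncomputable def Contr.val {S : Set K} (c : Contr S) (y : K) : ZMod 2 :=
  if hy : y ∈ c.O ∩ S then chiP χ (c.path y hy) else 0

theorem Contr.val_eq {S : Set K} (c : Contr S) {y : K} (hy : y ∈ c.O ∩ S) :
    c.val χ y = chiP χ (c.path y hy) := by
  unfold Contr.val
  rw [dif_pos hy]

theorem Contr.val_path {S : Set K} (c : Contr S) {a b : K} (α : Path a b)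
    (hα : ∀ t, α t ∈ c.O ∩ S) : c.val χ a = chiP χ α + c.val χ b := by
  have ha : a ∈ c.O ∩ S := by rw [← α.source]; exact hα 0
  have hb : b ∈ c.O ∩ S := by rw [← α.target]; exact hα 1
  rw [c.val_eq χ ha, c.val_eq χ hb]
  -- the square
  let F : C(unitInterval × unitInterval, K) :=
    ⟨fun w => c.H (α w.1, w.2), by
      rw [← continuousOn_univ]
      refine c.cont.comp (f := fun w : unitInterval × unitInterval => (α w.1, (w.2 : ℝ)))
        (by fun_prop) ?_
      intro w _
      exact ⟨hα _, w.2.2⟩⟩
  -- edge paths of the square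
  let L : Path ((0, 0) : unitInterval × unitInterval) (0, 1) :=
    ⟨⟨fun t => (0, t), by fun_prop⟩, rfl, rfl⟩
  let T : Path ((0, 1) : unitInterval × unitInterval) (1, 1) :=
    ⟨⟨fun t => (t, 1), by fun_prop⟩, rfl, rfl⟩
  let Bo : Path ((0, 0) : unitInterval × unitInterval) (1, 0) :=
    ⟨⟨fun t => (t, 0), by fun_prop⟩, rfl, rfl⟩
  let R : Path ((1, 0) : unitInterval × unitInterval) (1, 1) :=
    ⟨⟨fun t => (1, t), by fun_prop⟩, rfl, rfl⟩
  have hhom : (L.trans T).Homotopic (Bo.trans R) := SimplyConnectedSpace.paths_homotopic _ _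
  have h1 := chiP_congr χ (hhom.map F)
  rw [Path.map_trans, Path.map_trans, chiP_trans, chiP_trans] at h1
  have e1 : chiP χ (L.map F.continuous) = chiP χ (c.path a ha) := by
    have q0 : F (0, 0) = a := by
      change c.H (α 0, ((0 : unitInterval) : ℝ)) = a
      rw [α.source]; simpa using c.h0 a ha
    have q1 : F (0, 1) = c.x := by
      change c.H (α 0, ((1 : unitInterval) : ℝ)) = c.x
      rw [α.source]; simpa using c.h1 a ha
    have : L.map F.continuous = (c.path a ha).cast q0 q1 := by
      ext t
      change c.H (α 0, (t : ℝ)) = c.H (a, (t : ℝ))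
      rw [α.source]
    rw [this, chiP_cast]
  have e2 : chiP χ (T.map F.continuous) = 0 := by
    apply chiP_const χ _ c.x
    intro t
    change c.H (α t, ((1 : unitInterval) : ℝ)) = c.x
    simpa using c.h1 _ (hα t)
  have e3 : chiP χ (Bo.map F.continuous) = chiP χ α := by
    have q0 : F (0, 0) = a := by
      change c.H (α 0, ((0 : unitInterval) : ℝ)) = a
      rw [α.source]; simpa using c.h0 a ha
    have q1 : F (1, 0) = b := by
      change c.H (α 1, ((0 : unitInterval) : ℝ)) = b
      rw [α.target]; simpa using c.h0 b hb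
    have : Bo.map F.continuous = α.cast q0 q1 := by
      ext t
      change c.H (α t, ((0 : unitInterval) : ℝ)) = α t
      simpa using c.h0 _ (hα t)
    rw [this, chiP_cast]
  have e4 : chiP χ (R.map F.continuous) = chiP χ (c.path b hb) := by
    have q0 : F (1, 0) = b := by
      change c.H (α 1, ((0 : unitInterval) : ℝ)) = b
      rw [α.target]; simpa using c.h0 b hb
    have q1 : F (1, 1) = c.x := by
      change c.H (α 1, ((1 : unitInterval) : ℝ)) = c.x
      rw [α.target]; simpa using c.h1 b hb
    have : R.map F.continuous = (c.path b hb).cast q0 q1 := by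
      ext t
      change c.H (α 1, (t : ℝ)) = c.H (b, (t : ℝ))
      rw [α.target]
    rw [this, chiP_cast]
  rw [e1, e2, e3, e4, add_zero] at h1
  exact h1

/-- contractions exist around each point of a locally contractible set -/
theorem LC.exists_contr {S : Set K} (hS : LC S) {x : K} (hx : x ∈ S) :
    ∃ c : Contr S, x ∈ c.O := by
  obtain ⟨O, hO, hxO, H, h1, h2, h3, _⟩ := hS x hx univ isOpen_univ (mem_univ x)
  exact ⟨⟨O, hO, x, H, h1, h2, h3⟩, hxO⟩

/-- small paths exist in a locally contractible set -/
theorem LC.exists_small_path {S : Set K} (hS : LC S) {x : K} (hx : x ∈ S) {V : Set K}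
    (hV : IsOpen V) (hxV : x ∈ V) :
    ∃ O, IsOpen O ∧ x ∈ O ∧ ∀ y ∈ O ∩ S, ∃ α : Path y x, ∀ t, α t ∈ V ∩ S := by
  obtain ⟨O, hO, hxO, H, h1, h2, h3, h4⟩ := hS x hx V hV hxV
  refine ⟨O, hO, hxO, fun y hy => ?_⟩
  let c : Contr S := ⟨O, hO, x, H, h1, h2, h3⟩
  exact ⟨c.path y hy, fun t => h4 y hy t t.2⟩

/-- the difference of two local primitives is locally constant -/
theorem LC.val_add_const {S : Set K} (hS : LC S) (c c' : Contr S) {x : K} (hx : x ∈ S)
    (h1 : x ∈ c.O) (h2 : x ∈ c'.O) :
    ∃ O, IsOpen O ∧ x ∈ O ∧ ∀ y ∈ O ∩ S,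
      c.val χ y + c'.val χ y = c.val χ x + c'.val χ x := by
  obtain ⟨O, hO, hxO, hpath⟩ := hS.exists_small_path hx (c.isOpen_O.inter c'.isOpen_O) ⟨h1, h2⟩
  refine ⟨O, hO, hxO, fun y hy => ?_⟩
  obtain ⟨α, hα⟩ := hpath y hy
  rw [c.val_path χ α (fun t => ⟨(hα t).1.1, (hα t).2⟩),
    c'.val_path χ α (fun t => ⟨(hα t).1.2, (hα t).2⟩)]
  have h3 : ∀ a b c : ZMod 2, a + b + (a + c) = b + c := by decide
  exact h3 _ _ _

end Pool.Agent.Helper77.Graphoid
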