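import Mathlib

/-!
# Graphoids of families of rational functions and cohomological dimension

Definitions used in the statements on `MP_294eca_gt`.
-/

open Topology Set

namespace Pool.Agent.Helper77.Graphoid

/-- The field `ℝ(x, y)` of rational functions in two variables. -/
abbrev RatXY := FractionRing (MvPolynomial (Fin 2) ℝ)

/-- The numerator `p` of `f = p / q`, with `p` and `q` relatively prime. -/
noncomputable def ratNum (f : RatXY) : MvPolynomial (Fin 2) ℝ :=
  IsFractionRing.num (MvPolynomial (Fin 2) ℝ) f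

/-- The denominator `q` of `f = p / q`, with `p` and `q` relatively prime. -/
noncomputable def ratDen (f : RatXY) : MvPolynomial (Fin 2) ℝ :=
  (IsFractionRing.den (MvPolynomial (Fin 2) ℝ) f : MvPolynomial (Fin 2) ℝ)

/-- The value of a polynomial at a point of the plane. -/
noncomputable def evalXY (p : MvPolynomial (Fin 2) ℝ) (z : ℝ × ℝ) : ℝ :=
  MvPolynomial.eval ![z.1, z.2] p

/-- The domain of `f = p / q`: the complement in the plane of the common zeros of `p`, `q`. -/
def ratDom (f : RatXY) : Set (ℝ × ℝ) :=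
  {z | ¬ (evalXY (ratNum f) z = 0 ∧ evalXY (ratDen f) z = 0)}

/-- The value of `f = p / q` in the projective line: `∞` where `q` vanishes. -/
noncomputable def ratVal (f : RatXY) (z : ℝ × ℝ) : OnePoint ℝ :=
  if evalXY (ratDen f) z = 0 then OnePoint.infty
  else ((evalXY (ratNum f) z / evalXY (ratDen f) z : ℝ) : OnePoint ℝ)

/-- The inclusion of the plane into the torus `OnePoint ℝ × OnePoint ℝ`. -/
def torusPt (z : ℝ × ℝ) : OnePoint ℝ × OnePoint ℝ := ((z.1 : OnePoint ℝ), (z.2 : OnePoint ℝ))

/-- The graphoid extension of the family `F` at a point `z` of the torus. -/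
def graphoidExt (F : Set RatXY) (z : OnePoint ℝ × OnePoint ℝ) : Set (F → OnePoint ℝ) :=
  {y | ∀ O ∈ 𝓝 z, ∀ (E : Finset F) (V : F → Set (OnePoint ℝ)), (∀ f ∈ E, V f ∈ 𝓝 (y f)) →
    ∃ z' : ℝ × ℝ, torusPt z' ∈ O ∧ ∀ f ∈ E, z' ∈ ratDom f ∧ ratVal f z' ∈ V f}

/-- The graphoid of the family `F`. -/
def graphoid (F : Set RatXY) : Set ((OnePoint ℝ × OnePoint ℝ) × (F → OnePoint ℝ)) :=
  {w | w.2 ∈ graphoidExt F w.1}

open scoped Topology.Homotopy in
/-- `K` is an Eilenberg–MacLane CW-complex `K(G, n)`: a Hausdorff space with a CW structure; for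
`n = 0` its path components are in bijection with `G` and all higher homotopy groups are
trivial; for `n = k + 1` it is path connected, its `n`-th homotopy group (at every base point) is
isomorphic to `G` and all other homotopy groups of positive degree are trivial. -/
def IsEilenbergMacLane (G : Type*) [AddCommGroup G] (n : ℕ) (K : Type*) [TopologicalSpace K] :
    Prop :=
  T2Space K ∧ Nonempty (CWComplex (univ : Set K)) ∧
    match n with
    | 0 => Nonempty (ZerothHomotopy K ≃ G) ∧
        ∀ (m : ℕ) (x : K), Subsingleton (HomotopyGroup.Pi (m + 1) K x)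
    | k + 1 => PathConnectedSpace K ∧
        (∀ x : K, Nonempty (HomotopyGroup.Pi (k + 1) K x ≃* Multiplicative G)) ∧
        ∀ m : ℕ, m ≠ k → ∀ x : K, Subsingleton (HomotopyGroup.Pi (m + 1) K x)

/-- Every continuous map from a closed subset of `X` into `K` extends continuously to `X`. -/
def ExtProp (X K : Type*) [TopologicalSpace X] [TopologicalSpace K] : Prop :=
  ∀ A : Set X, IsClosed A → ∀ φ : C(A, K), ∃ ψ : C(X, K), ∀ a : A, ψ a = φ a

end Pool.Agent.Helper77.Graphoid
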