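import Mathlib

/-!
Local contractibility is preserved under attaching a cell.
-/

open Topology Set Filter Metric

namespace Pool.Agent.Helper77.Graphoid

variable {K : Type*} [TopologicalSpace K]

/-- local contractibility (in the classical sense) of a subset -/
def LC (S : Set K) : Prop :=
  ∀ x ∈ S, ∀ V, IsOpen V → x ∈ V → ∃ O, IsOpen O ∧ x ∈ O ∧ ∃ H : K × ℝ → K,
    ContinuousOn H ((O ∩ S) ×ˢ Icc (0 : ℝ) 1) ∧
    (∀ y ∈ O ∩ S, H (y, 0) = y) ∧ (∀ y ∈ O ∩ S, H (y, 1) = x) ∧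
    (∀ y ∈ O ∩ S, ∀ t ∈ Icc (0 : ℝ) 1, H (y, t) ∈ V ∩ S)

/-- continuity on the image of a compact set -/
theorem continuousOn_image_of_comp {X Y Z : Type*} [TopologicalSpace X] [TopologicalSpace Y]
    [TopologicalSpace Z] [T2Space Y] {C : Set X} (hC : IsCompact C) {f : X → Y}
    (hf : ContinuousOn f C) {g : Y → Z} (hg : ContinuousOn (g ∘ f) C) :
    ContinuousOn g (f '' C) := by
  rw [continuousOn_iff_isClosed]
  intro t ht
  obtain ⟨u, hu, hu'⟩ := (continuousOn_iff_isClosed.mp hg) t ht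
  refine ⟨f '' (C ∩ u), ?_, ?_⟩
  · exact ((hC.inter_right hu).image_of_continuousOn (hf.mono inter_subset_left)).isClosed
  · ext y
    constructor
    · rintro ⟨h1, x, hx, rfl⟩
      have : x ∈ u ∩ C := by rw [← hu']; exact ⟨h1, hx⟩
      exact ⟨⟨x, ⟨this.2, this.1⟩, rfl⟩, ⟨x, hx, rfl⟩⟩
    · rintro ⟨⟨x, hx, rfl⟩, h2⟩
      refine ⟨?_, h2⟩
      have : x ∈ (g ∘ f) ⁻¹' t ∩ C := by rw [hu']; exact ⟨hx.2, hx.1⟩
      exact this.1

theorem LC.attach {E : Type*} [NormedAddCommGroup E] [NormedSpace ℝ E] [ProperSpace E]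
    [T2Space K] {S' : Set K} (hS : IsCompact S') (hLC : LC S') {Φ : E → K} {Ψ : K → E}
    (hΦ : ContinuousOn Φ (closedBall 0 1)) (hΨ : ContinuousOn Ψ (Φ '' ball 0 1))
    (hinv : ∀ y ∈ ball (0 : E) 1, Ψ (Φ y) = y) (hfr : ∀ y ∈ sphere (0 : E) 1, Φ y ∈ S')
    (hdis : ∀ y ∈ ball (0 : E) 1, Φ y ∉ S') : LC (S' ∪ Φ '' ball 0 1) := by
  intro x hx V hV hxV
  by_cases hxS : x ∈ S'
  swap
  · -- the point lies in the open cell
    obtain ⟨a, ha, rfl⟩ := hx.resolve_left hxS
    have hΦb : ContinuousOn Φ (ball 0 1) := hΦ.mono ball_subset_closedBall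
    have hopen : IsOpen (ball (0 : E) 1 ∩ Φ ⁻¹' V) := hΦb.isOpen_inter_preimage isOpen_ball hV
    obtain ⟨ε, hε, hball⟩ := Metric.isOpen_iff.mp hopen a ⟨ha, hxV⟩
    obtain ⟨O1, hO1, hO1'⟩ := (_root_.continuousOn_iff'.mp hΨ) (ball a ε) isOpen_ball
    have hmem : ∀ z ∈ (O1 ∩ S'ᶜ) ∩ (S' ∪ Φ '' ball 0 1), z ∈ Φ '' ball 0 1 ∧ Ψ z ∈ ball a ε := by
      rintro z ⟨⟨h1, h2⟩, h3⟩
      have h4 := h3.resolve_left h2
      have : z ∈ Ψ ⁻¹' ball a ε ∩ Φ '' ball 0 1 := by rw [hO1']; exact ⟨h1, h4⟩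
      exact ⟨h4, this.1⟩
    refine ⟨O1 ∩ S'ᶜ, hO1.inter hS.isClosed.isOpen_compl, ⟨?_, hxS⟩,
      fun w => Φ ((1 - w.2) • Ψ w.1 + w.2 • a), ?_, ?_, ?_, ?_⟩
    · have : Φ a ∈ Ψ ⁻¹' ball a ε ∩ Φ '' ball 0 1 :=
        ⟨by rw [mem_preimage, hinv a ha]; exact mem_ball_self hε, ⟨a, ha, rfl⟩⟩
      rw [hO1'] at this
      exact this.1
    · have hin : ∀ w ∈ ((O1 ∩ S'ᶜ) ∩ (S' ∪ Φ '' ball 0 1)) ×ˢ Icc (0 : ℝ) 1,
          (1 - w.2) • Ψ w.1 + w.2 • a ∈ ball a ε := by
        rintro ⟨z, t⟩ ⟨hz, ht⟩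
        have h1 := (hmem z hz).2
        exact (convex_ball a ε) h1 (mem_ball_self hε) (by linarith [ht.2]) ht.1 (by ring)
      refine hΦ.comp ?_ (fun w hw => ball_subset_closedBall (hball (hin w hw)).1)
      have h1 : ContinuousOn (fun w : K × ℝ => Ψ w.1)
          (((O1 ∩ S'ᶜ) ∩ (S' ∪ Φ '' ball 0 1)) ×ˢ Icc (0 : ℝ) 1) :=
        hΨ.comp continuousOn_fst (fun w hw => (hmem w.1 hw.1).1)
      exact ((continuousOn_const.sub continuousOn_snd).smul h1).add
        (continuousOn_snd.smul continuousOn_const)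
    · intro y hy
      obtain ⟨⟨b, hb, rfl⟩, _⟩ := hmem y hy
      simp [hinv b hb]
    · intro y _
      simp
    · rintro y hy t ht
      have h1 := (hmem y hy).2
      have h2 : (1 - t) • Ψ y + t • a ∈ ball a ε :=
        (convex_ball a ε) h1 (mem_ball_self hε) (by linarith [ht.2]) ht.1 (by ring)
      have h3 := hball h2
      exact ⟨h3.2, Or.inr ⟨_, h3.1, rfl⟩⟩
  · -- the point lies in the old part
    obtain ⟨O', hO', hxO', H', hH'c, hH'0, hH'1, hH'V⟩ := hLC x hxS V hV hxV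
    -- separate
    have hcomp : IsCompact (S' \ (O' ∩ V)) := hS.diff (hO'.inter hV)
    obtain ⟨W, W'', hW, hW'', hxW, hsubW'', hdisW⟩ :=
      SeparatedNhds.of_isCompact_isCompact (isCompact_singleton (x := x)) hcomp
        (by rw [disjoint_singleton_left]; exact fun h => h.2 ⟨hxO', hxV⟩)
    have hxW' : x ∈ W := hxW (mem_singleton x)
    have hclW : closure W ∩ S' ⊆ O' ∩ V := by
      rintro z ⟨hz1, hz2⟩
      by_contra hcon
      have h1 : z ∈ W'' := hsubW'' ⟨hz2, hcon⟩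
      have h2 : Disjoint (closure W) W'' := hdisW.closure_left hW''
      exact (disjoint_left.mp h2) hz1 h1
    -- annulus continuity
    have hdir : ∀ r : ℝ, 0 < r → ContinuousOn (fun y : E => Φ (‖y‖⁻¹ • y))
        (closedBall 0 1 \ ball 0 r) := by
      intro r hr
      have hne : ∀ y ∈ closedBall (0 : E) 1 \ ball 0 r, ‖y‖ ≠ 0 := by
        rintro y ⟨_, hy⟩
        rw [mem_ball_zero_iff, not_lt] at hy
        linarith
      refine hΦ.comp ?_ ?_
      · exact (continuousOn_id.norm.inv₀ hne).smul continuousOn_id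
      · intro y hy
        rw [mem_closedBall_zero_iff, norm_smul, norm_inv, norm_norm,
          inv_mul_cancel₀ (hne y hy)]
    -- radius
    obtain ⟨r0, hr0a, hr0b, hr0⟩ : ∃ r0 : ℝ, 1 / 2 ≤ r0 ∧ r0 < 1 ∧ ∀ y : E, r0 < ‖y‖ → ‖y‖ ≤ 1 →
        Φ (‖y‖⁻¹ • y) ∈ closure W → Φ y ∈ V := by
      set A := closedBall (0 : E) 1 \ ball 0 (1 / 2) with hA
      have hAcomp : IsCompact A := (isCompact_closedBall 0 1).diff isOpen_ball
      set N := {y ∈ A | Φ (‖y‖⁻¹ • y) ∈ closure W ∧ Φ y ∉ V} with hN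
      have hNcomp : IsCompact N := by
        have c1 := hdir (1 / 2) (by norm_num)
        have c2 : ContinuousOn Φ A := hΦ.mono sdiff_subset
        have e1 : N = (A ∩ (fun y : E => Φ (‖y‖⁻¹ • y)) ⁻¹' closure W) ∩ (A ∩ Φ ⁻¹' Vᶜ) := by
          ext y
          simp only [hN, mem_ofPred_eq, mem_inter_iff, mem_preimage, mem_compl_iff]
          tauto
        rw [e1]
        have k1 := (continuousOn_iff_isClosed.mp c1) _ (isClosed_closure (s := W))
        have k2 := (continuousOn_iff_isClosed.mp c2) _ hV.isClosed_compl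
        obtain ⟨u1, hu1, hu1'⟩ := k1
        obtain ⟨u2, hu2, hu2'⟩ := k2
        rw [inter_comm A, hu1', inter_comm A (Φ ⁻¹' Vᶜ), hu2']
        have : u1 ∩ A ∩ (u2 ∩ A) = A ∩ (u1 ∩ u2) := by
          ext y; simp only [mem_inter_iff]; tauto
        rw [this]
        exact hAcomp.inter_right (hu1.inter hu2)
      rcases N.eq_empty_or_nonempty with hemp | hne
      · refine ⟨1 / 2, le_refl _, by norm_num, ?_⟩
        intro y h1 h2 h3
        by_contra h4
        have : y ∈ N := ⟨⟨by simpa using h2, by simp; linarith⟩, h3, h4⟩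
        rw [hemp] at this
        exact this
      · obtain ⟨y0, hy0, hmax⟩ := hNcomp.exists_isMaxOn hne continuous_norm.continuousOn
        refine ⟨max ‖y0‖ (1 / 2), le_max_right _ _, max_lt ?_ (by norm_num), ?_⟩
        · have h1 : ‖y0‖ ≤ 1 := by simpa using hy0.1.1
          rcases lt_or_eq_of_le h1 with h | h
          · exact h
          · exfalso
            have h2 := hy0.2.1
            rw [h, inv_one, one_smul] at h2
            have h3 : Φ y0 ∈ S' := hfr y0 (by simpa using h)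
            exact hy0.2.2 (hclW ⟨h2, h3⟩).2
        · intro y h1 h2 h3
          by_contra h4
          have hyN : y ∈ N := by
            refine ⟨⟨by simpa using h2, ?_⟩, h3, h4⟩
            have := (le_max_right ‖y0‖ (1 / 2)).trans h1.le
            simp only [mem_ball, dist_zero_right, not_lt]
            linarith
          have h5 : ‖y‖ ≤ ‖y0‖ := hmax hyN
          have h6 := lt_of_le_of_lt (le_max_left ‖y0‖ (1 / 2)) h1
          linarith
    set r1 := (1 + r0) / 2 with hr1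
    have hr1a : r0 < r1 := by rw [hr1]; linarith
    have hr1b : r1 < 1 := by rw [hr1]; linarith
    have hr1pos : 0 < r1 := by linarith
    set Ann := closedBall (0 : E) 1 \ ball 0 r1 with hAnn
    have hAnncomp : IsCompact Ann := (isCompact_closedBall 0 1).diff isOpen_ball
    have hAnn_mem : ∀ y : E, y ∈ Ann ↔ ‖y‖ ≤ 1 ∧ r1 ≤ ‖y‖ := by
      intro y; simp [hAnn]
    -- the closed set to be removed
    set Z := (S' \ W) ∪ (Φ '' closedBall 0 r1 ∪ Φ '' (Ann ∩ (fun y : E => Φ (‖y‖⁻¹ • y)) ⁻¹' Wᶜ))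
      with hZ
    have hZclosed : IsClosed Z := by
      refine (hS.diff hW).isClosed.union (IsClosed.union ?_ ?_)
      · refine ((isCompact_closedBall 0 r1).image_of_continuousOn (hΦ.mono ?_)).isClosed
        exact closedBall_subset_closedBall hr1b.le
      · obtain ⟨u, hu, hu'⟩ := (continuousOn_iff_isClosed.mp (hdir r1 hr1pos)) _ hW.isClosed_compl
        rw [inter_comm, hu', inter_comm]
        exact ((hAnncomp.inter_right hu).image_of_continuousOn
          (hΦ.mono (inter_subset_left.trans sdiff_subset))).isClosed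
    have hxZ : x ∉ Z := by
      rintro (h | ⟨y, hy, rfl⟩ | ⟨y, hy, rfl⟩)
      · exact h.2 hxW'
      · exact hdis y (closedBall_subset_ball hr1b hy) hxS
      · have h1 := ((hAnn_mem y).mp hy.1).1
        rcases lt_or_eq_of_le h1 with h | h
        · exact hdis y (by simpa using h) hxS
        · have h2 : Φ (‖y‖⁻¹ • y) ∉ W := hy.2
          rw [h, inv_one, one_smul] at h2
          exact h2 hxW'
    -- description of the points of the neighbourhood
    have hdescS : ∀ z ∈ Zᶜ ∩ (S' ∪ Φ '' ball 0 1), z ∈ S' → z ∈ W := by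
      rintro z ⟨hz, _⟩ hzS
      by_contra h
      exact hz (Or.inl ⟨hzS, h⟩)
    have hdescC : ∀ z ∈ Zᶜ ∩ (S' ∪ Φ '' ball 0 1), z ∉ S' →
        ∃ y, Φ y = z ∧ Ψ z = y ∧ r1 < ‖y‖ ∧ ‖y‖ < 1 ∧ Φ (‖y‖⁻¹ • y) ∈ W := by
      rintro z ⟨hz, hz'⟩ hzS
      obtain ⟨y, hy, rfl⟩ := hz'.resolve_left hzS
      have hy1 : ‖y‖ < 1 := by simpa using hy
      refine ⟨y, rfl, hinv y hy, ?_, hy1, ?_⟩
      · by_contra h
        push Not at h
        exact hz (Or.inr (Or.inl ⟨y, by simpa using h, rfl⟩))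
      · by_contra h
        apply hz
        by_cases h2 : ‖y‖ ≤ r1
        · exact Or.inr (Or.inl ⟨y, by simpa using h2, rfl⟩)
        · push Not at h2
          exact Or.inr (Or.inr ⟨y, ⟨(hAnn_mem y).mpr ⟨hy1.le, h2.le⟩, h⟩, rfl⟩)
    -- the radial homotopy
    classical
    let R : K × ℝ → K := fun w =>
      if w.1 ∈ S' then w.1 else Φ (((1 - w.2) + w.2 * ‖Ψ w.1‖⁻¹) • Ψ w.1)
    have hRS : ∀ z ∈ S', ∀ s, R (z, s) = z := fun z hz s => if_pos hz
    have hRC : ∀ y ∈ ball (0 : E) 1, ∀ s, R (Φ y, s) = Φ (((1 - s) + s * ‖y‖⁻¹) • y) := by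
      intro y hy s
      simp only [R, if_neg (hdis y hy), hinv y hy]
    have hRcont : ContinuousOn R ((S' ∪ Φ '' Ann) ×ˢ Icc (0 : ℝ) 1) := by
      have c1 : ContinuousOn R (S' ×ˢ Icc (0 : ℝ) 1) := by
        refine continuousOn_fst.congr ?_
        rintro ⟨z, s⟩ ⟨hz, _⟩
        exact hRS z hz s
      have hcompAI : IsCompact (Ann ×ˢ Icc (0 : ℝ) 1) := hAnncomp.prod isCompact_Icc
      have cf : ContinuousOn (fun w : E × ℝ => (Φ w.1, w.2)) (Ann ×ˢ Icc (0 : ℝ) 1) := by
        refine ContinuousOn.prodMk ?_ continuousOn_snd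
        exact hΦ.comp continuousOn_fst (fun w hw => hw.1.1)
      have cg : ContinuousOn (R ∘ fun w : E × ℝ => (Φ w.1, w.2)) (Ann ×ˢ Icc (0 : ℝ) 1) := by
        have e1 : EqOn (R ∘ fun w : E × ℝ => (Φ w.1, w.2))
            (fun w : E × ℝ => Φ (((1 - w.2) + w.2 * ‖w.1‖⁻¹) • w.1)) (Ann ×ˢ Icc (0 : ℝ) 1) := by
          rintro ⟨y, s⟩ ⟨hy, _⟩
          have h1 := ((hAnn_mem y).mp hy).1
          rcases lt_or_eq_of_le h1 with h | h
          · exact hRC y (by simpa using h) s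
          · have h2 : Φ y ∈ S' := hfr y (by simpa using h)
            simp only [Function.comp]
            rw [hRS _ h2, h, inv_one, mul_one, sub_add_cancel, one_smul]
        refine ContinuousOn.congr ?_ e1
        refine hΦ.comp ?_ ?_
        · have hne : ∀ w ∈ Ann ×ˢ Icc (0 : ℝ) 1, ‖w.1‖ ≠ 0 := by
            rintro ⟨y, s⟩ ⟨hy, _⟩
            have := ((hAnn_mem y).mp hy).2
            simp only
            linarith
          exact ((continuousOn_const.sub continuousOn_snd).add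
            (continuousOn_snd.mul (continuousOn_fst.norm.inv₀ hne))).smul continuousOn_fst
        · rintro ⟨y, s⟩ ⟨hy, hs⟩
          have h1 := (hAnn_mem y).mp hy
          have hpos : 0 < ‖y‖ := by linarith [h1.2]
          simp only [mem_Icc] at hs
          rw [mem_closedBall_zero_iff, norm_smul, Real.norm_eq_abs, abs_of_nonneg]
          · have : ((1 - s) + s * ‖y‖⁻¹) * ‖y‖ = (1 - s) * ‖y‖ + s := by field_simp
            simp only
            rw [this]
            nlinarith [h1.1]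
          · have : 0 ≤ ‖y‖⁻¹ := inv_nonneg.mpr hpos.le
            simp only
            nlinarith [hs.1, hs.2]
      have c2 : ContinuousOn R ((Φ '' Ann) ×ˢ Icc (0 : ℝ) 1) := by
        have := continuousOn_image_of_comp hcompAI cf cg
        refine this.mono ?_
        rintro ⟨z, s⟩ ⟨⟨y, hy, rfl⟩, hs⟩
        exact ⟨(y, s), ⟨hy, hs⟩, rfl⟩
      rw [union_prod]
      refine c1.union_of_isClosed c2 (hS.isClosed.prod isClosed_Icc) ?_
      exact (hAnncomp.image_of_continuousOn (hΦ.mono sdiff_subset)).isClosed.prod isClosed_Icc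
    have hsubT : Zᶜ ∩ (S' ∪ Φ '' ball 0 1) ⊆ S' ∪ Φ '' Ann := by
      intro z hz
      by_cases hzS : z ∈ S'
      · exact Or.inl hzS
      · obtain ⟨y, hy1, _, hy3, hy4, _⟩ := hdescC z hz hzS
        exact Or.inr ⟨y, (hAnn_mem y).mpr ⟨hy4.le, hy3.le⟩, hy1⟩
    have hR1 : ∀ z ∈ Zᶜ ∩ (S' ∪ Φ '' ball 0 1), R (z, 1) ∈ O' ∩ S' := by
      intro z hz
      by_cases hzS : z ∈ S'
      · rw [hRS z hzS]
        exact ⟨(hclW ⟨subset_closure (hdescS z hz hzS), hzS⟩).1, hzS⟩
      · obtain ⟨y, hy1, _, hy3, hy4, hy5⟩ := hdescC z hz hzS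
        rw [← hy1, hRC y (by simpa using hy4)]
        simp only [sub_self, one_mul, zero_add]
        have hsph : ‖y‖⁻¹ • y ∈ sphere (0 : E) 1 := by
          rw [mem_sphere_zero_iff_norm, norm_smul, norm_inv, norm_norm,
            inv_mul_cancel₀ (by linarith)]
        have hS'' := hfr _ hsph
        exact ⟨(hclW ⟨subset_closure hy5, hS''⟩).1, hS''⟩
    have hRV : ∀ z ∈ Zᶜ ∩ (S' ∪ Φ '' ball 0 1), ∀ s ∈ Icc (0 : ℝ) 1,
        R (z, s) ∈ V ∩ (S' ∪ Φ '' ball 0 1) := by
      intro z hz s hs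
      by_cases hzS : z ∈ S'
      · rw [hRS z hzS]
        exact ⟨(hclW ⟨subset_closure (hdescS z hz hzS), hzS⟩).2, Or.inl hzS⟩
      · obtain ⟨y, hy1, _, hy3, hy4, hy5⟩ := hdescC z hz hzS
        have hpos : 0 < ‖y‖ := by linarith
        rw [← hy1, hRC y (by simpa using hy4)]
        set k := (1 - s) + s * ‖y‖⁻¹ with hk
        have hinvpos : 0 < ‖y‖⁻¹ := inv_pos.mpr hpos
        have hkpos : 0 < k := by
          rcases lt_or_eq_of_le hs.1 with h | h
          · have := mul_pos h hinvpos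
            rw [hk]; linarith [hs.2]
          · rw [hk, ← h]; norm_num
        have hknorm : ‖k • y‖ = (1 - s) * ‖y‖ + s := by
          rw [norm_smul, Real.norm_eq_abs, abs_of_pos hkpos, hk]; field_simp
        have hn1 : ‖k • y‖ ≤ 1 := by rw [hknorm]; nlinarith [hs.1, hs.2]
        have hn2 : r0 < ‖k • y‖ := by rw [hknorm]; nlinarith [hs.1, hs.2]
        have hdir' : ‖k • y‖⁻¹ • (k • y) = ‖y‖⁻¹ • y := by
          rw [norm_smul, Real.norm_eq_abs, abs_of_pos hkpos, smul_smul, mul_inv]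
          congr 1
          field_simp
        refine ⟨hr0 _ hn2 hn1 (by rw [hdir']; exact subset_closure hy5), ?_⟩
        rcases lt_or_eq_of_le hn1 with h | h
        · exact Or.inr ⟨_, by simpa using h, rfl⟩
        · exact Or.inl (hfr _ (by simpa using h))
    refine ⟨Zᶜ, hZclosed.isOpen_compl, hxZ,
      fun w => if w.2 ≤ 1 / 2 then R (w.1, 2 * w.2) else H' (R (w.1, 1), 2 * w.2 - 1),
      ?_, ?_, ?_, ?_⟩
    · refine ContinuousOn.if ?_ ?_ ?_
      · rintro ⟨z, t⟩ ⟨⟨hz, _⟩, hfr'⟩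
        have h1 : t = 1 / 2 := by
          have := frontier_le_subset_eq (continuous_snd (X := K) (Y := ℝ))
            (continuous_const (y := (1 / 2 : ℝ))) hfr'
          exact this
        simp only [h1]
        norm_num
        exact (hH'0 _ (hR1 z hz)).symm
      · have hcl : closure {w : K × ℝ | w.2 ≤ 1 / 2} = {w : K × ℝ | w.2 ≤ 1 / 2} :=
          (isClosed_le continuous_snd continuous_const).closure_eq
        rw [hcl]
        refine hRcont.comp (f := fun w : K × ℝ => (w.1, 2 * w.2)) (by fun_prop) ?_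
        rintro ⟨z, t⟩ ⟨⟨hz, ht⟩, ht'⟩
        have ht'' : t ≤ 1 / 2 := ht'
        exact ⟨hsubT hz, ⟨by simp only; linarith [ht.1], by simp only; linarith⟩⟩
      · have hcl : closure {w : K × ℝ | ¬ w.2 ≤ 1 / 2} ⊆ {w : K × ℝ | 1 / 2 ≤ w.2} := by
          apply closure_minimal
          · intro w hw
            have : ¬ w.2 ≤ 1 / 2 := hw
            push Not at this
            exact this.le
          · exact isClosed_le continuous_const continuous_snd
        have cR1 : ContinuousOn (fun w : K × ℝ => R (w.1, 1))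
            (((Zᶜ ∩ (S' ∪ Φ '' ball 0 1)) ×ˢ Icc (0 : ℝ) 1) ∩ closure {w : K × ℝ | ¬ w.2 ≤ 1 / 2}) := by
          refine hRcont.comp (f := fun w : K × ℝ => (w.1, (1 : ℝ))) (by fun_prop) ?_
          rintro ⟨z, t⟩ ⟨⟨hz, ht⟩, _⟩
          exact ⟨hsubT hz, ⟨zero_le_one, le_refl _⟩⟩
        refine hH'c.comp (cR1.prodMk (by fun_prop)) ?_
        rintro ⟨z, t⟩ ⟨⟨hz, ht⟩, ht'⟩
        have ht'' : 1 / 2 ≤ t := hcl ht'
        exact ⟨hR1 z hz, ⟨by simp only; linarith, by simp only; linarith [ht.2]⟩⟩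
    · intro z hz
      have h0 : (0 : ℝ) ≤ 1 / 2 := by norm_num
      simp only [h0, if_true, mul_zero]
      by_cases hzS : z ∈ S'
      · exact hRS z hzS 0
      · obtain ⟨y, hy1, _, hy3, hy4, hy5⟩ := hdescC z hz hzS
        rw [← hy1, hRC y (by simpa using hy4)]
        simp
    · intro z hz
      have h0 : ¬ ((1 : ℝ) ≤ 1 / 2) := by norm_num
      simp only [h0, if_false]
      have : (2 * 1 - 1 : ℝ) = 1 := by norm_num
      rw [this]
      exact hH'1 _ (hR1 z hz)
    · intro z hz t ht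
      by_cases h0 : t ≤ 1 / 2
      · simp only [h0, if_true]
        exact hRV z hz _ ⟨by linarith [ht.1], by linarith⟩
      · simp only [h0, if_false]
        push Not at h0
        have := hH'V _ (hR1 z hz) (2 * t - 1) ⟨by linarith, by linarith [ht.2]⟩
        exact ⟨this.1, Or.inl this.2⟩

end Pool.Agent.Helper77.Graphoid
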