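import Pool.Agent.Helper77.Graphoid.Chi
import Pool.Agent.Helper77.Graphoid.Prim

/-!
The local system on a compact space, and its descent to a finite level.
-/

open Topology Set Filter

set_option linter.unusedSectionVars false

namespace Pool.Agent.Helper77.Graphoid

variable {K : Type*} [TopologicalSpace K] [PathConnectedSpace K] {k0 : K}
variable {Y : Type*} [TopologicalSpace Y] [CompactSpace Y] [T2Space Y]

/-- the straight path in the real line -/
noncomputable def segPath (s t : ℝ) : Path s t where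
  toFun r := s + r * (t - s)
  continuous_toFun := by fun_prop
  source' := by simp
  target' := by simp

theorem segPath_mem (s t : ℝ) (r : unitInterval) : segPath s t r ∈ uIcc s t := by
  change s + (r : ℝ) * (t - s) ∈ uIcc s t
  have h0 := r.2.1
  have h1 := r.2.2
  rw [mem_uIcc]
  rcases le_total s t with h | h
  · left; constructor <;> nlinarith
  · right; constructor <;> nlinarith

variable (χ : FundamentalGroup K k0 →* Multiplicative (ZMod 2))

/-- value of the character on the part of a curve between two parameters -/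
noncomputable def chiSeg (μ : C(ℝ, K)) (s t : ℝ) : ZMod 2 :=
  chiP χ ((segPath s t).map μ.continuous)

theorem chiSeg_add (μ : C(ℝ, K)) (s t u : ℝ) :
    chiSeg χ μ s u = chiSeg χ μ s t + chiSeg χ μ t u := by
  unfold chiSeg
  rw [← chiP_trans, ← Path.map_trans]
  apply chiP_congr
  exact (SimplyConnectedSpace.paths_homotopic (segPath s u) ((segPath s t).trans (segPath t u))).map μ

theorem chiSeg_const (μ : C(ℝ, K)) (s t : ℝ) (x : K) (h : ∀ r ∈ uIcc s t, μ r = x) :
    chiSeg χ μ s t = 0 := by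
  unfold chiSeg
  apply chiP_const χ _ x
  intro r
  exact h _ (segPath_mem s t r)

/-- finite closed cover adapted to contractions -/
theorem exists_cover {S : Set K} (hS : LC S) (f : Y → K) (hf : Continuous f)
    (hfS : ∀ y, f y ∈ S) :
    ∃ (T : Finset Y) (c : T → Contr S) (A : T → Set Y), (∀ i, IsClosed (A i)) ∧
      (∀ i, ∀ y ∈ A i, f y ∈ (c i).O) ∧ (∀ y, ∃ i, y ∈ A i) := by
  choose c hc using fun y => hS.exists_contr (hfS y)
  have hU : ∀ y, f ⁻¹' (c y).O ∈ 𝓝 y := fun y =>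
    ((c y).isOpen_O.preimage hf).mem_nhds (hc y)
  have hA : ∀ y, ∃ A : Set Y, A ∈ 𝓝 y ∧ IsClosed A ∧ A ⊆ f ⁻¹' (c y).O := by
    intro y
    obtain ⟨A, ⟨h1, h2⟩, h3⟩ := (closed_nhds_basis y).mem_iff.mp (hU y)
    exact ⟨A, h1, h2, h3⟩
  choose A hA1 hA2 hA3 using hA
  obtain ⟨T, hT⟩ := CompactSpace.elim_nhds_subcover A hA1
  refine ⟨T, fun i => c i, fun i => A i, fun i => hA2 i, fun i y hy => hA3 i hy, ?_⟩
  intro y
  have hy : y ∈ ⋃ x ∈ T, A x := by rw [hT]; trivial
  simp only [mem_iUnion] at hy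
  obtain ⟨x, hx, hy⟩ := hy
  exact ⟨⟨x, hx⟩, hy⟩

theorem exists_nbhd {S : Set K} (hS : LC S) (f : Y → K) (hf : Continuous f)
    (hfS : ∀ y, f y ∈ S) {T : Finset Y} (c : T → Contr S) (A : T → Set Y)
    (hA : ∀ i, IsClosed (A i)) (hAc : ∀ i, ∀ y ∈ A i, f y ∈ (c i).O) (y0 : Y) :
    ∃ U ∈ 𝓝 y0, (∀ i, ∀ y ∈ U, y ∈ A i → y0 ∈ A i) ∧
      (∀ i, y0 ∈ A i → ∀ y ∈ U, f y ∈ (c i).O) ∧
      (∀ i j, y0 ∈ A i → y0 ∈ A j → ∀ y ∈ U, (c i).val χ (f y) + (c j).val χ (f y) =
        (c i).val χ (f y0) + (c j).val χ (f y0)) := by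
  have h1 : ∀ᶠ y in 𝓝 y0, ∀ i, y ∈ A i → y0 ∈ A i := by
    rw [eventually_all]
    intro i
    by_cases h : y0 ∈ A i
    · exact Eventually.of_forall (fun y _ => h)
    · have : ∀ᶠ y in 𝓝 y0, y ∉ A i := (hA i).isOpen_compl.mem_nhds h
      filter_upwards [this] with y hy1 hy2
      exact absurd hy2 hy1
  have h2 : ∀ᶠ y in 𝓝 y0, ∀ i, y0 ∈ A i → f y ∈ (c i).O := by
    rw [eventually_all]
    intro i
    by_cases h : y0 ∈ A i
    · have : ∀ᶠ y in 𝓝 y0, f y ∈ (c i).O :=
        ((c i).isOpen_O.preimage hf).mem_nhds (hAc i y0 h)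
      filter_upwards [this] with y hy _
      exact hy
    · exact Eventually.of_forall (fun y h' => absurd h' h)
  have h3 : ∀ᶠ y in 𝓝 y0, ∀ i j, y0 ∈ A i → y0 ∈ A j →
      (c i).val χ (f y) + (c j).val χ (f y) = (c i).val χ (f y0) + (c j).val χ (f y0) := by
    rw [eventually_all]
    intro i
    rw [eventually_all]
    intro j
    by_cases h : y0 ∈ A i ∧ y0 ∈ A j
    · obtain ⟨O, hO, hxO, hval⟩ := hS.val_add_const χ (c i) (c j) (hfS y0)
        (hAc i y0 h.1) (hAc j y0 h.2)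
      have : ∀ᶠ y in 𝓝 y0, f y ∈ O := (hO.preimage hf).mem_nhds hxO
      filter_upwards [this] with y hy _ _
      exact hval _ ⟨hy, hfS y⟩
    · exact Eventually.of_forall (fun y h1 h2 => absurd ⟨h1, h2⟩ h)
  refine ⟨_, h1.and (h2.and h3), ?_, ?_, ?_⟩
  · intro i y hy h; exact hy.1 i h
  · intro i h y hy; exact hy.2.1 i h
  · intro i j hi hj y hy; exact hy.2.2 i j hi hj

/-- descent of neighbourhood assignments to a finite level -/
theorem finite_level {J R : Type*} [TopologicalSpace R] (e : Y → (J → R)) (he : IsInducing e)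
    (U : Y → Set Y) (hU : ∀ y, U y ∈ 𝓝 y) (I0 : Finset J) :
    ∃ I : Finset J, I0 ⊆ I ∧ ∀ y1 : Y, ∃ O : Set (I → R), IsOpen O ∧
      (fun i : I => e y1 i) ∈ O ∧ ∃ y0, ∀ y, (fun i : I => e y i) ∈ O → y ∈ U y0 := by
  classical
  have h1 : ∀ y : Y, ∃ (I : Finset J) (t : J → Set R), (∀ j, IsOpen (t j)) ∧
      (∀ j, e y j ∈ t j) ∧ ∀ y', (∀ j ∈ I, e y' j ∈ t j) → y' ∈ U y := by
    intro y
    have h2 := hU y
    rw [he.nhds_eq_comap, mem_comap] at h2
    obtain ⟨V, hV, hVU⟩ := h2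
    obtain ⟨V', hV'V, hV'o, hyV'⟩ := mem_nhds_iff.mp hV
    obtain ⟨I, t, ht, hsub⟩ := isOpen_pi_iff.mp hV'o (e y) hyV'
    refine ⟨I, fun j => if j ∈ I then t j else univ, ?_, ?_, ?_⟩
    · intro j
      by_cases hj : j ∈ I
      · simp only [hj, if_true]; exact (ht j hj).1
      · simp only [hj, if_false]; exact isOpen_univ
    · intro j
      by_cases hj : j ∈ I
      · simp only [hj, if_true]; exact (ht j hj).2
      · simp only [hj, if_false]; exact mem_univ _
    · intro y' hy'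
      apply hVU
      apply hV'V
      apply hsub
      intro j hj
      have := hy' j hj
      simp only [Finset.mem_coe.mp hj, if_true] at this
      exact this
  choose Iy t ht hmem hsub using h1
  let Bx : Y → Set Y := fun y => {y' | ∀ j ∈ Iy y, e y' j ∈ t y j}
  have hBx : ∀ y, Bx y ∈ 𝓝 y := by
    intro y
    have : Bx y = ⋂ j ∈ Iy y, {y' | e y' j ∈ t y j} := by
      ext y'; simp [Bx]
    rw [this]
    refine (Finset.iInter_mem_sets _).mpr ?_
    intro j _
    have hc : Continuous (fun y' => e y' j) := (continuous_apply j).comp he.continuous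
    exact ((ht y j).preimage hc).mem_nhds (hmem y j)
  obtain ⟨T, hT⟩ := CompactSpace.elim_nhds_subcover Bx hBx
  refine ⟨I0 ∪ T.biUnion Iy, Finset.subset_union_left, ?_⟩
  intro y1
  have hy1 : y1 ∈ ⋃ x ∈ T, Bx x := by rw [hT]; trivial
  simp only [mem_iUnion] at hy1
  obtain ⟨y0, hy0, hy1⟩ := hy1
  have hIsub : Iy y0 ⊆ I0 ∪ T.biUnion Iy :=
    (Finset.subset_biUnion_of_mem Iy hy0).trans Finset.subset_union_right
  refine ⟨{s | ∀ j (h : j ∈ Iy y0), s ⟨j, hIsub h⟩ ∈ t y0 j}, ?_, ?_, y0, ?_⟩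
  · have : {s : (↥(I0 ∪ T.biUnion Iy)) → R | ∀ j (h : j ∈ Iy y0), s ⟨j, hIsub h⟩ ∈ t y0 j} =
        ⋂ j : Iy y0, {s | s ⟨j, hIsub j.2⟩ ∈ t y0 j} := by
      ext s; simp
    rw [this]
    exact isOpen_iInter_of_finite (fun j => (ht y0 j).preimage (continuous_apply _))
  · intro j h
    exact hy1 j h
  · intro y hy
    apply hsub
    intro j hj
    exact hy j hj

/-- the cocycle at a finite level -/
theorem exists_tau {S : Set K} (hS : LC S) (f : Y → K) (hf : Continuous f)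
    (hfS : ∀ y, f y ∈ S) {J R : Type*} [TopologicalSpace R] (e : Y → (J → R))
    (he : IsInducing e) (I0 : Finset J) :
    ∃ I : Finset J, I0 ⊆ I ∧ ∃ τ : (I → R) → (I → R) → ZMod 2,
      LocCocycle τ (range (fun y => (fun i : I => e y i))) ∧
      ∀ (μ : C(ℝ, K)) (a b : ℝ) (c : ℝ → (I → R)), ContinuousOn c (Icc a b) →
        (∀ t ∈ Icc a b, c t ∈ range (fun y => (fun i : I => e y i))) →
        (∀ t ∈ Icc a b, ∀ y, (fun i : I => e y i) = c t → f y = μ t) →
        ∀ t0 ∈ Icc a b, ∀ᶠ t in 𝓝[Icc a b] t0, τ (c t) (c t0) = chiSeg χ μ t0 t := by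
  classical
  obtain ⟨T, c, A, hA1, hA2, hA3⟩ := exists_cover hS f hf hfS
  choose U hU hU1 hU2 hU3 using fun y0 => exists_nbhd χ hS f hf hfS c A hA1 hA2 y0
  obtain ⟨I, hI0, hI⟩ := finite_level e he U hU I0
  choose idx hidx using hA3
  set pr : Y → (I → R) := fun y => (fun i : I => e y i) with hpr
  -- the lift
  let lift : (I → R) → Option Y := fun s => if h : ∃ y, pr y = s then some h.choose else none
  have hlift : ∀ s ∈ range pr, ∃ y, lift s = some y ∧ pr y = s := by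
    rintro s hs
    have h : ∃ y, pr y = s := hs
    exact ⟨h.choose, by simp only [lift, dif_pos h], h.choose_spec⟩
  let τ : (I → R) → (I → R) → ZMod 2 := fun s s' =>
    match lift s, lift s' with
    | some y, some y' => (c (idx y)).val χ (f y) + (c (idx y)).val χ (f y')
    | _, _ => 0
  have hτ : ∀ s s' y y', lift s = some y → lift s' = some y' →
      τ s s' = (c (idx y)).val χ (f y) + (c (idx y)).val χ (f y') := by
    intro s s' y y' h1 h2
    simp only [τ, h1, h2]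
  refine ⟨I, hI0, τ, ?_, ?_⟩
  · -- local cocycle
    rintro s0 ⟨y1, rfl⟩
    obtain ⟨O, hO, hy1O, y0, hy0⟩ := hI y1
    refine ⟨O, hO.mem_nhds hy1O, ?_⟩
    rintro s ⟨hsO, hs⟩ s' ⟨hsO', hs'⟩ s'' ⟨hsO'', hs''⟩
    obtain ⟨y, hy, hys⟩ := hlift s hs
    obtain ⟨y', hy', hys'⟩ := hlift s' hs'
    obtain ⟨y'', hy'', hys''⟩ := hlift s'' hs''
    rw [hτ _ _ _ _ hy hy'', hτ _ _ _ _ hy hy', hτ _ _ _ _ hy' hy'']
    have u : y ∈ U y0 := hy0 y (by change pr y ∈ O; rw [hys]; exact hsO)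
    have u' : y' ∈ U y0 := hy0 y' (by change pr y' ∈ O; rw [hys']; exact hsO')
    have u'' : y'' ∈ U y0 := hy0 y'' (by change pr y'' ∈ O; rw [hys'']; exact hsO'')
    have m : y0 ∈ A (idx y) := hU1 y0 _ y u (hidx y)
    have m' : y0 ∈ A (idx y') := hU1 y0 _ y' u' (hidx y')
    have q1 := hU3 y0 _ _ m m' y' u'
    have q2 := hU3 y0 _ _ m m' y'' u''
    have h3 : ∀ a b b' c c' d : ZMod 2, b + b' = c + c' → a + c = a + b + (b' + c') := by decide
    have q3 := q1.trans q2.symm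
    exact h3 _ _ _ _ _ 0 q3
  · -- boundary property
    intro μ a b cc hcc hran hfib t0 ht0
    obtain ⟨y1, hy1, hy1s⟩ := hlift (cc t0) (hran t0 ht0)
    obtain ⟨O, hO, hy1O, y0, hy0⟩ := hI y1
    have hy1O' : cc t0 ∈ O := by rw [← hy1s]; exact hy1O
    have u1 : y1 ∈ U y0 := hy0 y1 hy1O
    have hft0 : f y1 = μ t0 := hfib t0 ht0 y1 hy1s
    have e1 : ∀ᶠ t in 𝓝[Icc a b] t0, cc t ∈ O := hcc t0 ht0 (hO.mem_nhds hy1O')
    have e2 : ∀ᶠ t in 𝓝 t0, ∀ i, y0 ∈ A i → ∀ r ∈ uIcc t0 t, μ r ∈ (c i).O := by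
      rw [eventually_all]
      intro i
      by_cases hi : y0 ∈ A i
      · have h1 : μ t0 ∈ (c i).O := by rw [← hft0]; exact hU2 y0 i hi y1 u1
        have h2 : μ ⁻¹' (c i).O ∈ 𝓝 t0 := ((c i).isOpen_O.preimage μ.continuous).mem_nhds h1
        obtain ⟨δ, hδ, hball⟩ := Metric.mem_nhds_iff.mp h2
        filter_upwards [Metric.ball_mem_nhds t0 hδ] with t ht _ r hr
        apply hball
        rw [Metric.mem_ball, Real.dist_eq] at ht ⊢
        have := abs_sub_left_of_mem_uIcc hr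
        calc |r - t0| ≤ |t - t0| := this
          _ < δ := ht
      · exact Eventually.of_forall (fun t h => absurd h hi)
    filter_upwards [e1, nhdsWithin_le_nhds e2, self_mem_nhdsWithin] with t k1 k2 k3
    obtain ⟨y, hy, hys⟩ := hlift (cc t) (hran t k3)
    rw [hτ _ _ _ _ hy hy1]
    have u : y ∈ U y0 := hy0 y (by change pr y ∈ O; rw [hys]; exact k1)
    have m : y0 ∈ A (idx y) := hU1 y0 _ y u (hidx y)
    have hft : f y = μ t := hfib t k3 y hys
    rw [hft, hft0]
    have hpath := (c (idx y)).val_path χ ((segPath t0 t).map μ.continuous) (by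
      intro r
      have hr := segPath_mem t0 t r
      refine ⟨k2 _ m _ hr, ?_⟩
      have hrI : segPath t0 t r ∈ Icc a b := by
        have : uIcc t0 t ⊆ Icc a b := by
          rw [← uIcc_of_le (ht0.1.trans ht0.2)]
          exact uIcc_subset_uIcc (by rw [uIcc_of_le (ht0.1.trans ht0.2)]; exact ht0)
            (by rw [uIcc_of_le (ht0.1.trans ht0.2)]; exact k3)
        exact this hr
      obtain ⟨y2, hy2⟩ := hran _ hrI
      have := hfib _ hrI y2 hy2
      change μ (segPath t0 t r) ∈ S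
      rw [← this]
      exact hfS y2)
    rw [hpath]
    unfold chiSeg
    have h3 : ∀ a b : ZMod 2, a + (b + a) = b := by decide
    exact h3 _ _

end Pool.Agent.Helper77.Graphoid
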