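import Pool.Agent.Helper77.Graphoid.Top
import Pool.Agent.Helper77.Graphoid.Blow3
import Pool.Agent.Helper77.Graphoid.Sys
import Pool.Agent.Helper77.Graphoid.CW

/-!
The lower bound for the cohomological dimension of graphoids.
-/

open Topology Set Filter

set_option linter.unusedSectionVars false

namespace Pool.Agent.Helper77.Graphoid

/-- the blow-up induction at an arbitrary point -/
theorem good_at {ι : Type*} [Fintype ι] {τ : (ι → OnePoint ℝ) → (ι → OnePoint ℝ) → ZMod 2}
    {C : Set (ι → OnePoint ℝ)} (hC : IsClosed C) (hτ : LocCocycle τ C) {p q : ι → P2}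
    (hpq : ∀ i, IsRelPrime (p i) (q i)) (hmem : ∀ z, z ∉ badSet p q → cmap p q z ∈ C)
    (w : ℝ × ℝ) : Good τ p q w := by
  have hbad : ∀ z : ℝ × ℝ, z ∈ badSet (fun i => twHom w (p i)) (fun i => twHom w (q i)) ↔
      (z.1 + w.1, z.2 + w.2) ∈ badSet p q := by
    intro z
    simp only [badSet, mem_ofPred_eq, Bad, ev_twHom]
  have hval : ∀ z : ℝ × ℝ, cmap (fun i => twHom w (p i)) (fun i => twHom w (q i)) z =
      cmap p q (z.1 + w.1, z.2 + w.2) := by
    intro z
    funext i
    simp only [cmap, fv, ev_twHom]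
  obtain ⟨ε, hε, hiso, h, hh⟩ := blow_main hC hτ _ (fun i => twHom w (p i))
    (fun i => twHom w (q i)) (fun i => finCo_of_isRelPrime _ _ (isRelPrime_tw (hpq i) w)) rfl
    (Eventually.of_forall (fun z hz => by
      rw [hbad] at hz
      rw [hval]
      exact hmem _ hz))
  refine ⟨ε, hε, ?_, fun z => h (z.1 - w.1, z.2 - w.2), ?_⟩
  · rintro ⟨x, y⟩ ⟨hx, hy⟩ hb
    simp only [mem_Icc] at hx hy
    have h1 : (x - w.1, y - w.2) ∈ box (0, 0) ε := by
      refine ⟨⟨?_, ?_⟩, ⟨?_, ?_⟩⟩ <;> simp only <;> linarith [hx.1, hx.2, hy.1, hy.2]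
    have h2 := hiso _ h1 (by rw [hbad]; simpa using hb)
    have h3 := congrArg Prod.fst h2
    have h4 := congrArg Prod.snd h2
    simp only at h3 h4
    ext
    · simp only; linarith
    · simp only; linarith
  · have h1 : IsPrim τ (fun z : ℝ × ℝ => cmap (fun i => twHom w (p i)) (fun i => twHom w (q i))
        (z.1 - w.1, z.2 - w.2)) (box w ε \ badSet p q) (fun z => h (z.1 - w.1, z.2 - w.2)) := by
      refine hh.comp (φ := fun z : ℝ × ℝ => (z.1 - w.1, z.2 - w.2)) (by fun_prop) ?_
      rintro ⟨x, y⟩ ⟨⟨hx, hy⟩, hb⟩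
      simp only [mem_Icc] at hx hy
      refine ⟨⟨⟨?_, ?_⟩, ⟨?_, ?_⟩⟩, ?_⟩
      · simp only; linarith [hx.1]
      · simp only; linarith [hx.2]
      · simp only; linarith [hy.1]
      · simp only; linarith [hy.2]
      · rw [hbad]; simpa using hb
    refine h1.congr_map ?_
    rintro ⟨x, y⟩ _
    rw [hval]; simp

/-- numerators of the family of all coordinate functions -/
noncomputable def pJ {F : Set RatXY} : Bool ⊕ F → P2
  | Sum.inl false => MvPolynomial.X 0
  | Sum.inl true => MvPolynomial.X 1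
  | Sum.inr f => ratNum f

/-- denominators of the family of all coordinate functions -/
noncomputable def qJ {F : Set RatXY} : Bool ⊕ F → P2
  | Sum.inl _ => 1
  | Sum.inr f => ratDen f

/-- all coordinates of a point of the ambient space -/
def eJ {F : Set RatXY} (w : (OnePoint ℝ × OnePoint ℝ) × (F → OnePoint ℝ)) :
    Bool ⊕ F → OnePoint ℝ
  | Sum.inl false => w.1.1
  | Sum.inl true => w.1.2
  | Sum.inr f => w.2 f

theorem continuous_eJ {F : Set RatXY} : Continuous (eJ (F := F)) := by
  rw [continuous_pi_iff]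
  rintro ((_ | _) | f)
  · exact continuous_fst.comp continuous_fst
  · exact continuous_snd.comp continuous_fst
  · exact (continuous_apply f).comp continuous_snd

theorem eJ_injective {F : Set RatXY} : Function.Injective (eJ (F := F)) := by
  intro w w' h
  have h1 := congrFun h (Sum.inl false)
  have h2 := congrFun h (Sum.inl true)
  have h3 : ∀ f, w.2 f = w'.2 f := fun f => congrFun h (Sum.inr f)
  simp only [eJ] at h1 h2
  exact Prod.ext (Prod.ext h1 h2) (funext h3)

theorem isRelPrime_J {F : Set RatXY} (j : Bool ⊕ F) : IsRelPrime (pJ j) (qJ j) := by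
  rcases j with (b | f)
  · cases b <;> exact isRelPrime_one_right
  · exact isRelPrime_ratNum_ratDen _

theorem fv_J_inl {F : Set RatXY} (b : Bool) (z : ℝ × ℝ) :
    fv (pJ (F := F) (Sum.inl b)) (qJ (F := F) (Sum.inl b)) z =
      if b then (z.2 : OnePoint ℝ) else (z.1 : OnePoint ℝ) := by
  cases b <;> simp [pJ, qJ, fv, rv]

/-- real coordinate -/
def re (x : OnePoint ℝ) : ℝ := x.elim 0 id

@[simp] theorem re_coe (x : ℝ) : re (x : OnePoint ℝ) = x := rfl

theorem continuousAt_re (x : ℝ) : ContinuousAt re (x : OnePoint ℝ) := by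
  rw [OnePoint.continuousAt_coe]
  exact continuous_id.continuousAt

/-- The main construction: a loop in `K` on which a `ZMod 2`-valued character is nontrivial gives a
map from a closed subset of the graphoid to `K` which does not extend. -/
theorem not_extProp_of_character (F : Set RatXY) {K : Type*} [TopologicalSpace K] [T2Space K]
    [PathConnectedSpace K] [CWComplex (univ : Set K)] (k0 : K)
    (χ : FundamentalGroup K k0 →* Multiplicative (ZMod 2)) (lam : Path k0 k0)
    (hlam : chiP χ lam = 1) : ¬ ExtProp (graphoid F) K := by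
  intro hext
  -- the annular region
  set N : Set (ℝ × ℝ) := (Icc (0:ℝ) 1 ×ˢ Icc (0:ℝ) 1) \ (Ioo (1/4 : ℝ) (3/4) ×ˢ Ioo (1/4 : ℝ) (3/4))
    with hN
  have hNcomp : IsCompact N := (isCompact_Icc.prod isCompact_Icc).diff (isOpen_Ioo.prod isOpen_Ioo)
  -- the map on the region
  let φ0 : ℝ × ℝ → K := fun z => if z.2 ≤ 1/2 then lam.extend (2 * z.1 - 1/2) else k0
  have hφ0 : ContinuousOn φ0 N := by
    refine ContinuousOn.if ?_ ?_ ?_
    · rintro ⟨x, y⟩ ⟨hz, hfr⟩
      have hy : y = 1 / 2 :=
        frontier_le_subset_eq (continuous_snd (X := ℝ) (Y := ℝ))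
            (continuous_const (y := (1 / 2 : ℝ))) hfr
      subst hy
      have hx : x ≤ 1/4 ∨ 3/4 ≤ x := by
        by_contra hcon
        push Not at hcon
        exact hz.2 ⟨⟨hcon.1, hcon.2⟩, ⟨by norm_num, by norm_num⟩⟩
      rcases hx with hx | hx
      · simp only
        rw [Path.extend_of_le_zero _ (by linarith)]
      · simp only
        rw [Path.extend_of_one_le _ (by linarith)]
    · exact (lam.continuous_extend.comp (by fun_prop)).continuousOn
    · exact continuousOn_const
  -- the closed set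
  let A : Set (graphoid F) := {y | y.1.1 ∈ torusPt '' N}
  have hA : IsClosed A := by
    have h1 : IsClosed (torusPt '' N) :=
      (hNcomp.image isOpenEmbedding_torusPt.continuous).isClosed
    exact h1.preimage (continuous_fst.comp continuous_subtype_val)
  let φ : C(A, K) :=
    ⟨fun a => φ0 (re a.1.1.1.1, re a.1.1.1.2), by
      rw [continuous_iff_continuousAt]
      rintro ⟨y, hy⟩
      obtain ⟨z, hzN, hz⟩ := hy
      have h1 : y.1.1.1 = (z.1 : OnePoint ℝ) := by rw [← hz]; rfl
      have h2 : y.1.1.2 = (z.2 : OnePoint ℝ) := by rw [← hz]; rfl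
      have hc : Tendsto (fun a : A => (re a.1.1.1.1, re a.1.1.1.2)) (𝓝 ⟨y, ⟨z, hzN, hz⟩⟩) (𝓝 z) := by
        have c1 : ContinuousAt (fun a : A => re a.1.1.1.1) ⟨y, ⟨z, hzN, hz⟩⟩ := by
          have k1 : Continuous (fun a : A => a.1.1.1.1) := by fun_prop
          refine ContinuousAt.comp (f := fun a : A => a.1.1.1.1) (g := re) ?_ k1.continuousAt
          simp only
          rw [h1]; exact continuousAt_re _
        have c2 : ContinuousAt (fun a : A => re a.1.1.1.2) ⟨y, ⟨z, hzN, hz⟩⟩ := by
          have k1 : Continuous (fun a : A => a.1.1.1.2) := by fun_prop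
          refine ContinuousAt.comp (f := fun a : A => a.1.1.1.2) (g := re) ?_ k1.continuousAt
          simp only
          rw [h2]; exact continuousAt_re _
        have c3 := (c1.prodMk c2).tendsto
        simp only at c3
        rw [h1, h2, re_coe, re_coe] at c3
        exact c3
      have hcN : Tendsto (fun a : A => (re a.1.1.1.1, re a.1.1.1.2)) (𝓝 ⟨y, ⟨z, hzN, hz⟩⟩)
          (𝓝[N] z) := by
        refine tendsto_nhdsWithin_iff.mpr ⟨hc, Eventually.of_forall ?_⟩
        rintro ⟨y', z', hz'N, hz'⟩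
        have h3 : y'.1.1.1 = (z'.1 : OnePoint ℝ) := by rw [← hz']; rfl
        have h4 : y'.1.1.2 = (z'.2 : OnePoint ℝ) := by rw [← hz']; rfl
        simp only
        rw [h3, h4, re_coe, re_coe]
        exact hz'N
      have h5 := (hφ0 z hzN).tendsto.comp hcN
      unfold ContinuousAt
      simp only
      rw [h1, h2, re_coe, re_coe]
      exact h5⟩
  obtain ⟨ψ, hψ⟩ := hext A hA φ
  have hψA : ∀ (y : graphoid F) (z : ℝ × ℝ), z ∈ N → y.1.1 = torusPt z → ψ y = φ0 z := by
    intro y z hz hy
    have hyA : y ∈ A := ⟨z, hz, hy.symm⟩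
    have h1 := hψ ⟨y, hyA⟩
    rw [h1]
    change φ0 (re y.1.1.1, re y.1.1.2) = φ0 z
    rw [hy]; rfl
  -- local contractibility
  obtain ⟨S, _, hSLC, hψS⟩ := exists_lc_of_isCompact (isCompact_range ψ.continuous)
  have hψS' : ∀ y, ψ y ∈ S := fun y => hψS ⟨y, rfl⟩
  -- finite level
  let e : graphoid F → (Bool ⊕ F → OnePoint ℝ) := fun y => eJ y.1
  have hec : Continuous e := continuous_eJ.comp continuous_subtype_val
  have heinj : Function.Injective e := fun y y' h => Subtype.ext (eJ_injective h)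
  have heind : IsInducing e := (hec.isClosedEmbedding heinj).isInducing
  obtain ⟨I, hI0, τ, hτ, hbdry⟩ := exists_tau χ hSLC ψ ψ.continuous hψS' e heind
    {Sum.inl false, Sum.inl true}
  have hIf : (Sum.inl false : Bool ⊕ F) ∈ I := hI0 (by simp)
  have hIt : (Sum.inl true : Bool ⊕ F) ∈ I := hI0 (by simp)
  let p : I → P2 := fun i => pJ i.1
  let q : I → P2 := fun i => qJ i.1
  set C := range (fun y : graphoid F => (fun i : I => e y i)) with hC
  have hCclosed : IsClosed C := by
    have : Continuous (fun y : graphoid F => (fun i : I => e y i)) := by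
      rw [continuous_pi_iff]
      intro i
      exact (continuous_apply _).comp hec
    exact (isCompact_range this).isClosed
  have hmem : ∀ z, z ∉ badSet p q → cmap p q z ∈ C := by
    intro z hz
    obtain ⟨w, hw, hw1⟩ := exists_mem_graphoid F z
    refine ⟨⟨w, hw⟩, ?_⟩
    funext ⟨i, hi⟩
    rcases i with (b | f)
    · change eJ w (Sum.inl b) = fv (pJ (Sum.inl b)) (qJ (Sum.inl b)) z
      rw [fv_J_inl]
      cases b
      · simp [eJ, hw1, torusPt]
      · simp [eJ, hw1, torusPt]
    · change w.2 f = fv (ratNum f) (ratDen f) z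
      rw [← ratVal_eq]
      refine graphoid_val hw hw1 f ?_
      rw [mem_ratDom]
      intro hb
      exact hz ⟨⟨Sum.inr f, hi⟩, hb⟩
  -- points over a good point
  have hover : ∀ (z : ℝ × ℝ) (y : graphoid F), (fun i : I => e y i) = cmap p q z →
      y.1.1 = torusPt z := by
    intro z y hy
    have h1 := congrFun hy ⟨Sum.inl false, hIf⟩
    have h2 := congrFun hy ⟨Sum.inl true, hIt⟩
    have h1' : y.1.1.1 = fv (pJ (F := F) (Sum.inl false)) (qJ (F := F) (Sum.inl false)) z := h1
    have h2' : y.1.1.2 = fv (pJ (F := F) (Sum.inl true)) (qJ (F := F) (Sum.inl true)) z := h2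
    rw [fv_J_inl] at h1' h2'
    simp only [if_true] at h2'
    simp only [Bool.false_eq_true, if_false] at h1'
    exact Prod.ext h1' h2'
  have hgood := fun w => good_at hCclosed hτ (p := p) (q := q) (fun i => isRelPrime_J i.1) hmem w
  -- finiteness of the bad set
  have hbadclosed : IsClosed (badSet p q) := isClosed_badSet p q
  have hfin : (badSet p q ∩ (Icc (0:ℝ) 1 ×ˢ Icc (0:ℝ) 1)).Finite := by
    have hcomp : IsCompact (badSet p q ∩ (Icc (0:ℝ) 1 ×ˢ Icc (0:ℝ) 1)) :=
      (isCompact_Icc.prod isCompact_Icc).inter_left hbadclosed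
    apply hcomp.finite
    rw [isDiscrete_iff_forall_mem_exists_isOpen]
    intro w hw
    obtain ⟨ε, hε, h1, _⟩ := hgood w
    refine ⟨interior (box w ε), isOpen_interior, ?_⟩
    ext z
    simp only [mem_inter_iff, mem_singleton_iff]
    constructor
    · rintro ⟨hz1, hz2, _⟩
      exact h1 z (interior_subset hz1) hz2
    · rintro rfl
      exact ⟨mem_interior_iff_mem_nhds.mpr (box_mem_nhds _ hε), hw⟩
  -- choice of the square
  obtain ⟨s, hsI, hsF⟩ : ∃ s ∈ Ioo (0:ℝ) (1/4),
      s ∉ (Prod.fst '' (badSet p q ∩ (Icc (0:ℝ) 1 ×ˢ Icc (0:ℝ) 1)) ∪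
        (fun z : ℝ × ℝ => 1 - z.1) '' (badSet p q ∩ (Icc (0:ℝ) 1 ×ˢ Icc (0:ℝ) 1)) ∪
        Prod.snd '' (badSet p q ∩ (Icc (0:ℝ) 1 ×ˢ Icc (0:ℝ) 1)) ∪
        (fun z : ℝ × ℝ => 1 - z.2) '' (badSet p q ∩ (Icc (0:ℝ) 1 ×ˢ Icc (0:ℝ) 1))) := by
    apply (Ioo_infinite (by norm_num : (0:ℝ) < 1/4)).exists_notMem_finite
    exact (((hfin.image _).union (hfin.image _)).union (hfin.image _)).union (hfin.image _)
  simp only [mem_union, not_or] at hsF
  obtain ⟨⟨⟨hs1, hs2⟩, hs3⟩, hs4⟩ := hsF
  have hs0 := hsI.1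
  have hs14 := hsI.2
  have hgoodpt : ∀ x y : ℝ, x ∈ Icc (0:ℝ) 1 → y ∈ Icc (0:ℝ) 1 →
      (x = s ∨ x = 1 - s ∨ y = s ∨ y = 1 - s) → (x, y) ∉ badSet p q := by
    intro x y hx hy hcase hb
    have hmem' : (x, y) ∈ badSet p q ∩ (Icc (0:ℝ) 1 ×ˢ Icc (0:ℝ) 1) := ⟨hb, hx, hy⟩
    rcases hcase with h | h | h | h
    · exact hs1 ⟨_, hmem', h⟩
    · exact hs2 ⟨_, hmem', by simp only; linarith⟩
    · exact hs3 ⟨_, hmem', h⟩
    · exact hs4 ⟨_, hmem', by simp only; linarith⟩
  -- the primitive on the square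
  obtain ⟨h, hh⟩ := rect τ (cmap p q) (badSet p q) hbadclosed hgood
    (a := s) (b := 1 - s) (a' := s) (b' := 1 - s) (by linarith) (by linarith)
  -- variation along an edge
  have hedge : ∀ (μ : C(ℝ, K)) (β : ℝ → ℝ × ℝ), Continuous β →
      (∀ t ∈ Icc s (1 - s), β t ∈ (Icc s (1 - s) ×ˢ Icc s (1 - s)) \ badSet p q) →
      (∀ t ∈ Icc s (1 - s), β t ∈ N) →
      (∀ t ∈ Icc s (1 - s), φ0 (β t) = μ t) →
      h (β s) + h (β (1 - s)) = chiSeg χ μ s (1 - s) := by
    intro μ β hβ hβD hβN hβμ
    have hb := hbdry μ s (1 - s) (fun t => cmap p q (β t)) (by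
        intro t ht
        exact (ContinuousAt.comp (f := β) (g := cmap p q) (continuousAt_cmap (hβD t ht).2)
          hβ.continuousAt).continuousWithinAt)
      (fun t ht => hmem _ (hβD t ht).2)
      (fun t ht y hy => by
        rw [hψA y (β t) (hβN t ht) (hover _ _ hy)]
        exact hβμ t ht)
    have hprim : IsPrim τ (fun t => cmap p q (β t)) (Icc s (1 - s)) (fun t => h (β t)) :=
      hh.comp hβ.continuousOn hβD
    have hM : IsPrim τ (fun t => cmap p q (β t)) (Icc s (1 - s)) (fun t => chiSeg χ μ s t) := by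
      intro t0 ht0
      filter_upwards [hb t0 ht0] with t ht
      rw [ht]
      exact chiSeg_add χ μ s t0 t
    have hconst := IsPrim.sub_const isPreconnected_Icc hprim hM
      (a := s) (b := 1 - s) ⟨le_refl _, by linarith⟩ ⟨by linarith, le_refl _⟩
    have h0 : chiSeg χ μ s s = 0 := chiSeg_const χ μ s s (μ s) (fun r hr => by
      rw [uIcc_self, mem_singleton_iff] at hr; rw [hr])
    rw [h0, add_zero] at hconst
    rw [hconst]
    have h3 : ∀ a b : ZMod 2, a + b + a = b := by decide
    exact h3 _ _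
  -- the bottom edge
  let μ1 : C(ℝ, K) := ⟨fun t => lam.extend (2 * t - 1/2), lam.continuous_extend.comp (by fun_prop)⟩
  let μ0 : C(ℝ, K) := ContinuousMap.const ℝ k0
  have hbot := hedge μ1 (fun t => (t, s)) (by fun_prop)
    (fun t ht => ⟨⟨ht, ⟨le_refl _, by linarith⟩⟩, hgoodpt t s
      ⟨by linarith [ht.1], by linarith [ht.2]⟩ ⟨hs0.le, by linarith⟩ (Or.inr (Or.inr (Or.inl rfl)))⟩)
    (fun t ht => ⟨⟨⟨by simp only; linarith [ht.1], by simp only; linarith [ht.2]⟩,
      ⟨hs0.le, by simp only; linarith⟩⟩, fun hcon => by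
        have := hcon.2.1
        simp only at this
        linarith⟩)
    (fun t ht => by
      simp only [φ0]
      rw [if_pos (by linarith)]
      rfl)
  have hright := hedge μ0 (fun t => (1 - s, t)) (by fun_prop)
    (fun t ht => ⟨⟨⟨by simp only; linarith, le_refl _⟩, ht⟩, hgoodpt (1 - s) t
      ⟨by linarith, by linarith⟩ ⟨by linarith [ht.1], by linarith [ht.2]⟩ (Or.inr (Or.inl rfl))⟩)
    (fun t ht => ⟨⟨⟨by simp only; linarith, by simp only; linarith⟩,
      ⟨by simp only; linarith [ht.1], by simp only; linarith [ht.2]⟩⟩, fun hcon => by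
        have := hcon.1.2
        simp only at this
        linarith⟩)
    (fun t ht => by
      simp only [φ0]
      split_ifs
      · rw [Path.extend_of_one_le _ (by linarith)]; rfl
      · rfl)
  have htop := hedge μ0 (fun t => (t, 1 - s)) (by fun_prop)
    (fun t ht => ⟨⟨ht, ⟨by simp only; linarith, le_refl _⟩⟩, hgoodpt t (1 - s)
      ⟨by linarith [ht.1], by linarith [ht.2]⟩ ⟨by linarith, by linarith⟩
        (Or.inr (Or.inr (Or.inr rfl)))⟩)
    (fun t ht => ⟨⟨⟨by simp only; linarith [ht.1], by simp only; linarith [ht.2]⟩,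
      ⟨by simp only; linarith, by simp only; linarith⟩⟩, fun hcon => by
        have := hcon.2.2
        simp only at this
        linarith⟩)
    (fun t ht => by
      simp only [φ0]
      rw [if_neg (by linarith)]
      rfl)
  have hleft := hedge μ0 (fun t => (s, t)) (by fun_prop)
    (fun t ht => ⟨⟨⟨le_refl _, by simp only; linarith⟩, ht⟩, hgoodpt s t
      ⟨hs0.le, by linarith⟩ ⟨by linarith [ht.1], by linarith [ht.2]⟩ (Or.inl rfl)⟩)
    (fun t ht => ⟨⟨⟨hs0.le, by simp only; linarith⟩,
      ⟨by simp only; linarith [ht.1], by simp only; linarith [ht.2]⟩⟩, fun hcon => by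
        have := hcon.1.1
        simp only at this
        linarith⟩)
    (fun t ht => by
      simp only [φ0]
      split_ifs
      · rw [Path.extend_of_le_zero _ (by linarith)]; rfl
      · rfl)
  have hc0 : chiSeg χ μ0 s (1 - s) = 0 := chiSeg_const χ μ0 _ _ k0 (fun r _ => rfl)
  have hc1 : chiSeg χ μ1 s (1 - s) = 1 := by
    rw [chiSeg_add χ μ1 s (1/4) (1 - s), chiSeg_add χ μ1 (1/4) (3/4) (1 - s)]
    have k1 : chiSeg χ μ1 s (1/4) = 0 := by
      apply chiSeg_const χ μ1 _ _ k0
      intro r hr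
      rw [uIcc_of_le hs14.le] at hr
      change lam.extend (2 * r - 1/2) = k0
      exact Path.extend_of_le_zero _ (by linarith [hr.2])
    have k3 : chiSeg χ μ1 (3/4) (1 - s) = 0 := by
      apply chiSeg_const χ μ1 _ _ k0
      intro r hr
      rw [uIcc_of_le (by linarith)] at hr
      change lam.extend (2 * r - 1/2) = k0
      exact Path.extend_of_one_le _ (by linarith [hr.1])
    have k2 : chiSeg χ μ1 (1/4) (3/4) = 1 := by
      rw [← hlam]
      unfold chiSeg
      have q0 : μ1 (1/4) = k0 := Path.extend_of_le_zero _ (by norm_num)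
      have q1 : μ1 (3/4) = k0 := Path.extend_of_one_le _ (by norm_num)
      have : (segPath (1/4) (3/4)).map μ1.continuous = lam.cast q0 q1 := by
        ext t
        change lam.extend (2 * (1/4 + (t : ℝ) * (3/4 - 1/4)) - 1/2) = lam t
        have : (2 * (1/4 + (t : ℝ) * (3/4 - 1/4)) - 1/2) = (t : ℝ) := by ring
        rw [this, Path.extend_apply _ t.2]
      rw [this, chiP_cast]
    rw [k1, k2, k3]; decide
  rw [hc1] at hbot
  rw [hc0] at hright htop hleft
  have hfinal : ∀ a b c d : ZMod 2, a + b = 1 → b + c = 0 → d + c = 0 → a + d = 0 → False := by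
    decide
  exact hfinal _ _ _ _ hbot hright htop hleft

end Pool.Agent.Helper77.Graphoid
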