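import Pool.Agent.Helper77.Graphoid.Lower

/-!
The lower bound for groups that are not 2-divisible.
-/

open Topology Set Filter

set_option maxHeartbeats 400000

namespace Pool.Agent.Helper77.Graphoid

/-- a homomorphism to `ZMod 2` detecting an element which is not divisible by two -/
theorem exists_hom_zmod2 (G : Type*) [AddCommGroup G] (g : G) (hg : ¬ ∃ h : G, g = h + h) :
    ∃ f : G →+ ZMod 2, f g = 1 := by
  let D : AddSubgroup G := (nsmulAddMonoidHom (α := G) 2).range
  have h2 : ∀ x : G ⧸ D, 2 • x = 0 := by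
    intro x
    obtain ⟨y, rfl⟩ := QuotientAddGroup.mk_surjective x
    have : (2 • (y : G ⧸ D)) = ((2 • y : G) : G ⧸ D) := rfl
    rw [this, QuotientAddGroup.eq_zero_iff]
    exact ⟨y, rfl⟩
  let _ : Module (ZMod 2) (G ⧸ D) := AddCommGroup.zmodModule h2
  have hne : (g : G ⧸ D) ≠ 0 := by
    intro h0
    rw [QuotientAddGroup.eq_zero_iff] at h0
    obtain ⟨h, hh⟩ := h0
    apply hg
    refine ⟨h, ?_⟩
    have : (nsmulAddMonoidHom (α := G) 2) h = 2 • h := rfl
    rw [this, two_nsmul] at hh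
    exact hh.symm
  have h3 : ∃ φ : Module.Dual (ZMod 2) (G ⧸ D), φ (g : G ⧸ D) ≠ 0 := by
    by_contra hcon
    push Not at hcon
    exact hne ((Module.forall_dual_apply_eq_zero_iff (ZMod 2) (g : G ⧸ D)).mp hcon)
  obtain ⟨φ, hφ⟩ := h3
  refine ⟨φ.toAddMonoidHom.comp (QuotientAddGroup.mk' D), ?_⟩
  have h4 : ∀ t : ZMod 2, t ≠ 0 → t = 1 := by decide
  exact h4 _ hφ

/-- The lower bound, in the form used below: only the fundamental group of the complex matters. -/
theorem not_extProp_of_pi1 (F : Set RatXY) (G : Type*) [AddCommGroup G]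
    (hG : ¬ ∀ g : G, ∃ h : G, g = h + h) (K : Type*) [TopologicalSpace K] [T2Space K]
    [PathConnectedSpace K] [CWComplex (univ : Set K)] (k0 : K)
    (E : FundamentalGroup K k0 ≃* Multiplicative G) : ¬ ExtProp (graphoid F) K := by
  push Not at hG
  obtain ⟨g, hg⟩ := hG
  obtain ⟨f, hf⟩ := exists_hom_zmod2 G g (by push Not; exact hg)
  let χ : FundamentalGroup K k0 →* Multiplicative (ZMod 2) :=
    (AddMonoidHom.toMultiplicative f).comp E.toMonoidHom
  obtain ⟨lam, hlam⟩ := Path.Homotopic.Quotient.mk_surjective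
    (FundamentalGroup.toPath (E.symm (Multiplicative.ofAdd g)))
  refine not_extProp_of_character F k0 χ lam ?_
  unfold chiP
  rw [hlam, chiQ_loop]
  change f (Multiplicative.toAdd (E (E.symm (Multiplicative.ofAdd g)))) = 1
  rw [MulEquiv.apply_symm_apply]
  exact hf

theorem IsEilenbergMacLane.one {G : Type*} [AddCommGroup G] {K : Type*} [TopologicalSpace K]
    (hK : IsEilenbergMacLane G 1 K) : T2Space K ∧ Nonempty (CWComplex (univ : Set K)) ∧
      PathConnectedSpace K ∧
      (∀ x : K, Nonempty (HomotopyGroup.Pi (0 + 1) K x ≃* Multiplicative G)) := by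
  unfold IsEilenbergMacLane at hK
  exact ⟨hK.1, hK.2.1, hK.2.2.1, hK.2.2.2.1⟩

theorem nonempty_pi1Equiv (N : Type) [inst : DecidableEq N] [Unique N] {K : Type*}
    [TopologicalSpace K] (x : K) : Nonempty (HomotopyGroup N K x ≃* FundamentalGroup K x) := by
  have h : inst = (fun a b => decidableEq_of_subsingleton a b) := Subsingleton.elim _ _
  subst h
  exact ⟨HomotopyGroup.homotopyGroupOfUniqueMulEquivFundamentalGroup N⟩

theorem not_extProp_one (F : Set RatXY) (G : Type*) [AddCommGroup G]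
    (hG : ¬ ∀ g : G, ∃ h : G, g = h + h) (K : Type*) [TopologicalSpace K]
    (hK : IsEilenbergMacLane G 1 K) : ¬ ExtProp (graphoid F) K := by
  obtain ⟨hT2, ⟨hcw⟩, hpc, hpi⟩ := hK.one
  obtain ⟨k0⟩ := hpc.nonempty
  obtain ⟨E⟩ := hpi k0
  have hu : Unique (Fin (0 + 1)) := inferInstanceAs (Unique (Fin 1))
  obtain ⟨E'⟩ := nonempty_pi1Equiv (Fin (0 + 1)) k0
  exact not_extProp_of_pi1 F G hG K k0 (E'.symm.trans E)

end Pool.Agent.Helper77.Graphoid
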