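import Pool.Agent.Helper77.Graphoid.Defs
import Pool.Agent.Helper77.Graphoid.Blow1

/-!
Topology of graphoids.
-/

open Topology Set Filter

namespace Pool.Agent.Helper77.Graphoid

theorem evalXY_eq (p : P2) (z : ℝ × ℝ) : evalXY p z = ev z p := rfl

theorem ratVal_eq (f : RatXY) (z : ℝ × ℝ) : ratVal f z = fv (ratNum f) (ratDen f) z := rfl

theorem mem_ratDom (f : RatXY) (z : ℝ × ℝ) : z ∈ ratDom f ↔ ¬ Bad (ratNum f) (ratDen f) z :=
  Iff.rfl

theorem isRelPrime_ratNum_ratDen (f : RatXY) : IsRelPrime (ratNum f) (ratDen f) :=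
  IsFractionRing.num_den_reduced _ f

/-- translation of polynomials -/
noncomputable def twHom (w : ℝ × ℝ) : P2 →ₐ[ℝ] P2 :=
  MvPolynomial.aeval ![MvPolynomial.X 0 + MvPolynomial.C w.1, MvPolynomial.X 1 + MvPolynomial.C w.2]

theorem ev_twHom (w z : ℝ × ℝ) (f : P2) : ev z (twHom w f) = ev (z.1 + w.1, z.2 + w.2) f := by
  have : (ev z).comp (twHom w) = ev (z.1 + w.1, z.2 + w.2) := by
    apply MvPolynomial.algHom_ext
    intro i
    fin_cases i <;> simp [twHom]
  rw [← this]; rfl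

theorem twHom_twHom_neg (w : ℝ × ℝ) (f : P2) : twHom w (twHom (-w) f) = f := by
  have : (twHom w).comp (twHom (-w)) = AlgHom.id ℝ P2 := by
    apply MvPolynomial.algHom_ext
    intro i
    fin_cases i
    · simp [twHom]
    · simp [twHom]
  exact DFunLike.congr_fun this f

theorem twHom_neg_twHom (w : ℝ × ℝ) (f : P2) : twHom (-w) (twHom w f) = f := by
  have := twHom_twHom_neg (-w) f
  rwa [neg_neg] at this

theorem isRelPrime_tw {p q : P2} (h : IsRelPrime p q) (w : ℝ × ℝ) :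
    IsRelPrime (twHom w p) (twHom w q) := by
  intro d h1 h2
  have k1 : twHom (-w) d ∣ p := by
    have := map_dvd (twHom (-w)) h1
    rwa [twHom_neg_twHom] at this
  have k2 : twHom (-w) d ∣ q := by
    have := map_dvd (twHom (-w)) h2
    rwa [twHom_neg_twHom] at this
  have := (h k1 k2).map (twHom w)
  rwa [twHom_twHom_neg] at this

theorem isolated_of_isRelPrime {p q : P2} (h : IsRelPrime p q) (w : ℝ × ℝ) :
    ∀ᶠ z in 𝓝 w, Bad p q z → z = w := by
  have h1 := (finCo_of_isRelPrime _ _ (isRelPrime_tw h w)).isolated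
  have h2 : Tendsto (fun z : ℝ × ℝ => (z.1 - w.1, z.2 - w.2)) (𝓝 w) (𝓝 (0, 0)) := by
    have hc : ContinuousAt (fun z : ℝ × ℝ => (z.1 - w.1, z.2 - w.2)) w := by fun_prop
    have := hc.tendsto
    simpa using this
  filter_upwards [h2.eventually h1] with z hz hb
  have h3 : Bad (twHom w p) (twHom w q) (z.1 - w.1, z.2 - w.2) := by
    unfold Bad
    rw [ev_twHom, ev_twHom]
    simpa [Bad] using hb
  have h4 := hz h3
  have h5 := congrArg Prod.fst h4
  have h6 := congrArg Prod.snd h4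
  simp only at h5 h6
  ext <;> linarith

theorem isOpenEmbedding_torusPt : IsOpenEmbedding torusPt :=
  OnePoint.isOpenEmbedding_coe.prodMap OnePoint.isOpenEmbedding_coe

theorem continuousAt_ratVal {f : RatXY} {z : ℝ × ℝ} (h : z ∈ ratDom f) :
    ContinuousAt (ratVal f) z := continuousAt_fv h

theorem ratDom_mem_nhdsNE (f : RatXY) (z : ℝ × ℝ) : ratDom f ∈ 𝓝[≠] z := by
  have h := isolated_of_isRelPrime (isRelPrime_ratNum_ratDen f) z
  filter_upwards [nhdsWithin_le_nhds h, self_mem_nhdsWithin] with w h1 h2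
  intro hb
  exact h2 (h1 hb)

theorem isClosed_graphoid (F : Set RatXY) : IsClosed (graphoid F) := by
  rw [← isOpen_compl_iff, isOpen_iff_mem_nhds]
  intro w hw
  have hw' : ¬ (w.2 ∈ graphoidExt F w.1) := hw
  unfold graphoidExt at hw'
  simp only [mem_ofPred_eq, not_forall] at hw'
  obtain ⟨O, hO, E, V, hV, hno⟩ := hw'
  have h1 : ∀ᶠ w' in 𝓝 w, O ∈ 𝓝 w'.1 := by
    have := eventually_mem_nhds_iff.mpr hO
    exact continuous_fst.continuousAt.eventually this
  have h2 : ∀ᶠ w' in 𝓝 w, ∀ f ∈ E, V f ∈ 𝓝 (w'.2 f) := by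
    rw [Filter.eventually_all_finset]
    intro f hf
    have := eventually_mem_nhds_iff.mpr (hV f hf)
    have hc : Continuous (fun w' : (OnePoint ℝ × OnePoint ℝ) × (F → OnePoint ℝ) => w'.2 f) := by
      fun_prop
    exact hc.continuousAt.eventually this
  filter_upwards [h1, h2] with w' k1 k2
  intro hmem
  exact hno (hmem O k1 E V k2)

instance (F : Set RatXY) : CompactSpace (graphoid F) :=
  isCompact_iff_compactSpace.mp (isClosed_graphoid F).isCompact

theorem exists_mem_graphoid (F : Set RatXY) (z : ℝ × ℝ) :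
    ∃ w ∈ graphoid F, w.1 = torusPt z := by
  let Φ : ℝ × ℝ → (OnePoint ℝ × OnePoint ℝ) × (F → OnePoint ℝ) :=
    fun z' => (torusPt z', fun f => ratVal f z')
  have : NeBot (𝓝[≠] z) := inferInstance
  obtain ⟨w, hw⟩ := exists_clusterPt_of_compactSpace (map Φ (𝓝[≠] z))
  have hw1 : w.1 = torusPt z := by
    by_contra hne
    obtain ⟨U1, U2, hU1, hU2, hw1U, hzU, hdis⟩ := t2_separation hne
    have e1 : ∀ᶠ z' in 𝓝[≠] z, torusPt z' ∈ U2 :=
      nhdsWithin_le_nhds ((isOpenEmbedding_torusPt.continuous.continuousAt).eventually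
        (hU2.mem_nhds hzU))
    have e2 : ∃ᶠ w' in map Φ (𝓝[≠] z), w' ∈ {w' | w'.1 ∈ U1} :=
      hw.frequently ((hU1.preimage continuous_fst).mem_nhds hw1U)
    rw [frequently_map] at e2
    obtain ⟨z', h1, h2⟩ := (e2.and_eventually e1).exists
    exact disjoint_left.mp hdis h1 h2
  refine ⟨w, ?_, hw1⟩
  intro O hO E V hV
  have e1 : ∀ᶠ z' in 𝓝[≠] z, ∀ f ∈ E, z' ∈ ratDom (f : RatXY) := by
    rw [Filter.eventually_all_finset]
    intro f _
    exact ratDom_mem_nhdsNE f z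
  have e2 : ∃ᶠ w' in map Φ (𝓝[≠] z), w' ∈ {w' | w'.1 ∈ O ∧ ∀ f ∈ E, w'.2 f ∈ V f} := by
    apply hw.frequently
    have h1 : ∀ᶠ w' in 𝓝 w, w'.1 ∈ O := continuous_fst.continuousAt.eventually hO
    have h2 : ∀ᶠ w' in 𝓝 w, ∀ f ∈ E, w'.2 f ∈ V f := by
      rw [Filter.eventually_all_finset]
      intro f hf
      have hc : Continuous (fun w' : (OnePoint ℝ × OnePoint ℝ) × (F → OnePoint ℝ) => w'.2 f) := by
        fun_prop
      exact hc.continuousAt.eventually (hV f hf)
    exact h1.and h2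
  rw [frequently_map] at e2
  obtain ⟨z', ⟨h1, h2⟩, h3⟩ := (e2.and_eventually e1).exists
  exact ⟨z', h1, fun f hf => ⟨h3 f hf, h2 f hf⟩⟩

theorem graphoid_val {F : Set RatXY} {w : (OnePoint ℝ × OnePoint ℝ) × (F → OnePoint ℝ)}
    (hw : w ∈ graphoid F) {z : ℝ × ℝ} (hz : w.1 = torusPt z) (f : F) (hf : z ∈ ratDom f) :
    w.2 f = ratVal f z := by
  by_contra hne
  obtain ⟨U1, U2, hU1, hU2, h1, h2, hdis⟩ := t2_separation hne
  have hN : ratVal f ⁻¹' U2 ∈ 𝓝 z := (continuousAt_ratVal hf) (hU2.mem_nhds h2)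
  have hO : torusPt '' (ratVal f ⁻¹' U2) ∈ 𝓝 w.1 := by
    rw [hz]
    exact isOpenEmbedding_torusPt.isOpenMap.image_mem_nhds hN
  obtain ⟨z', hz', hall⟩ := hw _ hO {f} (fun _ => U1) (by
    intro g hg
    rw [Finset.mem_singleton] at hg
    subst hg
    exact hU1.mem_nhds h1)
  obtain ⟨z'', hz'', heq⟩ := hz'
  have := isOpenEmbedding_torusPt.injective heq
  subst this
  have h3 := (hall f (Finset.mem_singleton_self f)).2
  exact disjoint_left.mp hdis h3 hz''

end Pool.Agent.Helper77.Graphoid
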