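import Pool.Agent.Helper77.Graphoid.Lower2

/-!
Connectedness of graphoids and the case of degree zero.
-/

open Topology Set Filter

set_option maxHeartbeats 400000

namespace Pool.Agent.Helper77.Graphoid

theorem countable_compl_ratDom (f : RatXY) : ((ratDom f)ᶜ : Set (ℝ × ℝ)).Countable := by
  have h1 : IsDiscrete ((ratDom f)ᶜ : Set (ℝ × ℝ)) := by
    rw [isDiscrete_iff_forall_mem_exists_isOpen]
    intro z hz
    have h := isolated_of_isRelPrime (isRelPrime_ratNum_ratDen f) z
    obtain ⟨U, hU, hUo, hzU⟩ := eventually_nhds_iff.mp h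
    refine ⟨U, hUo, ?_⟩
    ext w
    constructor
    · rintro ⟨hw1, hw2⟩
      have : ¬ w ∈ ratDom f := hw2
      rw [mem_ratDom, not_not] at this
      exact hU w hw1 this
    · rintro rfl
      exact ⟨hzU, hz⟩
  have h2 : DiscreteTopology ((ratDom f)ᶜ : Set (ℝ × ℝ)) := h1.to_subtype
  exact Set.countable_coe_iff.mp (TopologicalSpace.separableSpace_iff_countable.mp inferInstance)

theorem isPreconnected_dom {F : Set RatXY} (I : Finset (Bool ⊕ F)) :
    IsPreconnected {z : ℝ × ℝ | ∀ f : F, Sum.inr f ∈ I → z ∈ ratDom (f : RatXY)} := by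
  classical
  have h1 : ({z : ℝ × ℝ | ∀ f : F, Sum.inr f ∈ I → z ∈ ratDom (f : RatXY)}ᶜ).Countable := by
    have h2 : {z : ℝ × ℝ | ∀ f : F, Sum.inr f ∈ I → z ∈ ratDom (f : RatXY)}ᶜ ⊆
        ⋃ j ∈ I, (Sum.elim (fun _ => (∅ : Set (ℝ × ℝ))) (fun f : F => (ratDom (f : RatXY))ᶜ) j) := by
      intro z hz
      simp only [mem_compl_iff, mem_ofPred_eq, not_forall] at hz
      obtain ⟨f, hf, hz⟩ := hz
      simp only [mem_iUnion]
      exact ⟨Sum.inr f, hf, hz⟩
    refine Set.Countable.mono h2 ?_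
    refine I.countable_toSet.biUnion ?_
    rintro (b | f) _
    · simp
    · exact countable_compl_ratDom _
  have h3 := h1.isConnected_compl_of_one_lt_rank (by
    rw [rank_prod']; simp; norm_num)
  rw [compl_compl] at h3
  exact h3.isPreconnected

/-- connectedness of the graphoid, in terms of locally constant predicates -/
theorem graphoid_connected (F : Set RatXY) (P : graphoid F → Prop)
    (hP : ∀ y, ∀ᶠ y' in 𝓝 y, (P y' ↔ P y)) (a b : graphoid F) (ha : P a) : P b := by
  classical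
  let e : graphoid F → (Bool ⊕ F → OnePoint ℝ) := fun y => eJ y.1
  have he : IsInducing e := by
    have h1 : Continuous e := continuous_eJ.comp continuous_subtype_val
    have h2 : Function.Injective e := eJ_injective.comp Subtype.val_injective
    exact (h1.isClosedEmbedding h2).isInducing
  obtain ⟨I, hI0, hI⟩ := finite_level e he (fun y => {y' | P y' ↔ P y}) hP
    {Sum.inl false, Sum.inl true}
  -- points over the common domain
  choose s hs1 hs2 using fun z : ℝ × ℝ => exists_mem_graphoid F z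
  let D : Set (ℝ × ℝ) := {z : ℝ × ℝ | ∀ f : F, Sum.inr f ∈ I → z ∈ ratDom (f : RatXY)}
  let s' : ℝ × ℝ → graphoid F := fun z => ⟨s z, hs1 z⟩
  have hval : ∀ z ∈ D, ∀ i : I, e (s' z) i = fv (pJ (F := F) i) (qJ (F := F) i) z := by
    rintro z hz ⟨(b | f), hi⟩
    · rw [fv_J_inl]
      have := hs2 z
      cases b
      · change (s z).1.1 = _
        rw [this]; rfl
      · change (s z).1.2 = _
        rw [this]; rfl
    · exact graphoid_val (hs1 z) (hs2 z) f (hz f hi)
  have hcont : ContinuousOn (fun z : ℝ × ℝ => (fun i : I => e (s' z) i)) D := by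
    have h1 : ContinuousOn (fun z : ℝ × ℝ => (fun i : I => fv (pJ (F := F) i) (qJ (F := F) i) z))
        D := by
      rw [continuousOn_pi]
      rintro ⟨(b | f), hi⟩ z hz
      · refine (continuousAt_fv ?_).continuousWithinAt
        intro hbad
        have := hbad.2
        simp [qJ] at this
      · exact (continuousAt_ratVal (hz f hi)).continuousWithinAt
    refine h1.congr ?_
    intro z hz
    funext i
    exact hval z hz i
  have hloc : ∀ z ∈ D, ∀ᶠ z' in 𝓝[D] z, (P (s' z') ↔ P (s' z)) := by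
    intro z hz
    obtain ⟨O, hO, hzO, y0, hy0⟩ := hI (s' z)
    filter_upwards [(hcont z hz) (hO.mem_nhds hzO)] with z' hz'
    have h1 : P (s' z') ↔ P y0 := hy0 _ hz'
    have h2 : P (s' z) ↔ P y0 := hy0 _ hzO
    exact h1.trans h2.symm
  have hconst : ∀ z ∈ D, ∀ z' ∈ D, P (s' z) → P (s' z') := by
    intro z hz z' hz' hPz
    have hD : IsPreconnected D := isPreconnected_dom I
    have hc : ContinuousOn (fun z => (decide (P (s' z)) : Bool)) D := by
      intro w hw
      refine tendsto_nhds_of_eventually_eq ?_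
      filter_upwards [hloc w hw] with w' hw'
      exact decide_eq_decide.mpr hw'
    have := hD.constant hc hz hz'
    simp only [decide_eq_decide] at this
    exact this.mp hPz
  have hnear : ∀ y : graphoid F, ∃ z ∈ D, (P (s' z) ↔ P y) := by
    intro y
    obtain ⟨O, hO, hyO, y0, hy0⟩ := hI y
    obtain ⟨u, hu, huO⟩ := isOpen_pi_iff'.mp hO _ hyO
    have hIf : (Sum.inl false : Bool ⊕ F) ∈ I := hI0 (by simp)
    have hIt : (Sum.inl true : Bool ⊕ F) ∈ I := hI0 (by simp)
    have hN : (u ⟨_, hIf⟩) ×ˢ (u ⟨_, hIt⟩) ∈ 𝓝 y.1.1 :=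
      prod_mem_nhds ((hu _).1.mem_nhds (hu ⟨_, hIf⟩).2) ((hu _).1.mem_nhds (hu ⟨_, hIt⟩).2)
    let E : Finset F := (I.preimage Sum.inr Sum.inr_injective.injOn)
    let V : F → Set (OnePoint ℝ) := fun f => if h : Sum.inr f ∈ I then u ⟨Sum.inr f, h⟩ else univ
    obtain ⟨z, hzN, hz⟩ := y.2 _ hN E V (by
      intro f hf
      have hf' : (Sum.inr f : Bool ⊕ F) ∈ I := Finset.mem_preimage.mp hf
      simp only [V, dif_pos hf']
      exact (hu _).1.mem_nhds (hu ⟨_, hf'⟩).2)
    have hzD : z ∈ D := fun f hf => (hz f (Finset.mem_preimage.mpr hf)).1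
    refine ⟨z, hzD, ?_⟩
    have hzO : (fun i : I => e (s' z) i) ∈ O := by
      apply huO
      rintro ⟨(b | f), hi⟩ -
      · simp only
        rw [hval z hzD ⟨Sum.inl b, hi⟩, fv_J_inl]
        cases b
        · exact hzN.1
        · exact hzN.2
      · simp only
        rw [hval z hzD ⟨Sum.inr f, hi⟩]
        have := (hz f (Finset.mem_preimage.mpr hi)).2
        simp only [V, dif_pos hi] at this
        exact this
    have h1 : P (s' z) ↔ P y0 := hy0 _ hzO
    have h2 : P y ↔ P y0 := hy0 _ hyO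
    exact h1.trans h2.symm
  obtain ⟨z, hz, h1⟩ := hnear a
  obtain ⟨z', hz', h2⟩ := hnear b
  exact h2.mp (hconst z hz z' hz' (h1.mpr ha))

theorem not_extProp_zero (F : Set RatXY) (G : Type*) [AddCommGroup G]
    (hG : ¬ ∀ g : G, ∃ h : G, g = h + h) (K : Type*) [TopologicalSpace K]
    (hK : IsEilenbergMacLane G 0 K) : ¬ ExtProp (graphoid F) K := by
  classical
  unfold IsEilenbergMacLane at hK
  obtain ⟨hT2, ⟨hcw⟩, ⟨E⟩, _⟩ := hK
  intro hext
  obtain ⟨g, hg⟩ : ∃ g : G, g ≠ 0 := by
    by_contra hcon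
    push Not at hcon
    exact hG (fun g => ⟨0, by rw [hcon g, add_zero]⟩)
  obtain ⟨a, ha⟩ := Quotient.exists_rep (E.symm g)
  obtain ⟨b, hb⟩ := Quotient.exists_rep (E.symm 0)
  have hab : ¬ Joined a b := by
    intro h
    have h1 : E.symm g = E.symm 0 := by
      rw [← ha, ← hb]
      exact Quotient.sound h
    exact hg (E.symm.injective h1)
  obtain ⟨x, hx, hx1⟩ := exists_mem_graphoid F (0, 0)
  obtain ⟨y, hy, hy1⟩ := exists_mem_graphoid F (1, 0)
  let x' : graphoid F := ⟨x, hx⟩
  let y' : graphoid F := ⟨y, hy⟩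
  have hne : x' ≠ y' := by
    intro h
    have h1 : x = y := congrArg Subtype.val h
    have h2 := isOpenEmbedding_torusPt.injective (hx1.symm.trans ((congrArg Prod.fst h1).trans hy1))
    have h3 := congrArg Prod.fst h2
    simp at h3
  let A : Set (graphoid F) := {x', y'}
  have hA : IsClosed A := (toFinite A).isClosed
  have hAd : DiscreteTopology A := by
    have : Finite A := (toFinite A).to_subtype
    infer_instance
  let φ : C(A, K) := ⟨fun w => if w.1 = x' then a else b, continuous_of_discreteTopology⟩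
  obtain ⟨ψ, hψ⟩ := hext A hA φ
  have h1 : ψ x' = a := by
    have := hψ ⟨x', by simp [A]⟩
    rw [this]; simp [φ]
  have h2 : ψ y' = b := by
    have := hψ ⟨y', by simp [A]⟩
    rw [this]; simp [φ, hne.symm]
  obtain ⟨S, _, hSLC, hψS⟩ := exists_lc_of_isCompact (isCompact_range ψ.continuous)
  have hψS' : ∀ y, ψ y ∈ S := fun y => hψS ⟨y, rfl⟩
  have hjoin : ∀ w, ∀ᶠ w' in 𝓝 w, Joined (ψ w') (ψ w) := by
    intro w
    obtain ⟨O, hO, hwO, H, hHc, hH0, hH1, _⟩ := hSLC (ψ w) (hψS' w) univ isOpen_univ (mem_univ _)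
    have h3 : ∀ᶠ w' in 𝓝 w, ψ w' ∈ O := (hO.preimage ψ.continuous).mem_nhds hwO
    filter_upwards [h3] with w' hw'
    have hw'S : ψ w' ∈ O ∩ S := ⟨hw', hψS' w'⟩
    refine ⟨⟨⟨fun t => H (ψ w', (t : ℝ)), ?_⟩, ?_, ?_⟩⟩
    · exact hHc.comp_continuous (by fun_prop) (fun t => ⟨hw'S, t.2⟩)
    · simpa using hH0 _ hw'S
    · simpa using hH1 _ hw'S
  have := graphoid_connected F (fun w => Joined a (ψ w)) (by
    intro w
    filter_upwards [hjoin w] with w' hw'
    exact ⟨fun h => h.trans hw', fun h => h.trans hw'.symm⟩) x' y' (by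
      rw [h1])
  rw [h2] at this
  exact hab this

end Pool.Agent.Helper77.Graphoid
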